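import Mathlib

/-!
Abstract interface for the fixed-point-free involution Little bump.
-/

namespace Pool.Agent.H156.Fpf

/-- signed location of a marker: `up = true` is the upper strand. -/
def loc (up : Bool) (j : ℕ) : ℤ := if up then 2 * (j : ℤ) + 2 else -(2 * (j : ℤ) + 2)

/-- `c` lies strictly between `a` and `b`. -/
def Betw (a b c : ℤ) : Prop := (a < c ∧ c < b) ∨ (b < c ∧ c < a)

/-- the data of a run of the push process, seen through the labels (= final positions) of strands.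
`P τ x f` is the position at time `x ∈ {0,…,n}` of the strand with label `f` in the wiring diagram
number `τ` (the letter `J τ` is deleted in this diagram); `v τ t` is letter `t` before push `τ`. -/
structure RunData where
  n : ℕ
  N : ℕ
  p : ℤ
  q : ℤ
  J : ℕ → ℕ
  up : ℕ → Bool
  v : ℕ → ℕ → ℤ
  P : ℕ → ℕ → Equiv.Perm ℤ

namespace RunData

variable (R : RunData)

/-- location of the marker at push `τ`. -/
def lc (τ : ℕ) : ℤ := loc (R.up τ) (R.J τ)

/-- the point `x` of the lower strand is covered by the move `τ → τ+1`. -/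
def covL (τ x : ℕ) : Prop := Betw (R.lc τ) (R.lc (τ + 1)) (-(2 * (x : ℤ) + 1))

/-- the point `x` of the upper strand is covered by the move `τ → τ+1`. -/
def covU (τ x : ℕ) : Prop := Betw (R.lc τ) (R.lc (τ + 1)) (2 * (x : ℤ) + 1)

/-- a jump: the marker is pushed over the lower strand and then over the upper strand. -/
structure IsJump (τ : ℕ) : Prop where
  lt : τ + 1 < R.N
  up0 : R.up τ = false
  up1 : R.up (τ + 1) = true
  J1 : R.J (τ + 1) = R.J τ
  P1 : ∀ x ≤ R.n, R.P (τ + 1) x = R.P τ x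
  adj : R.P τ (R.J τ) R.q = R.P τ (R.J τ) R.p + 1

open Classical in
/-- a genuine move; `a` is the label exchanged with the lower strand, `b` the label exchanged
with the upper strand (on the covered points). -/
structure IsMove (τ : ℕ) (a b : ℤ) : Prop where
  lt : τ + 1 < R.N
  J1 : R.J (τ + 1) ≠ R.J τ
  ap : a ≠ R.p
  aq : a ≠ R.q
  bp : b ≠ R.p
  bq : b ≠ R.q
  ab : a ≠ b
  P1 : ∀ x ≤ R.n, R.P (τ + 1) x = R.P τ x * (if R.covL τ x then Equiv.swap R.p a else 1) *
    (if R.covU τ x then Equiv.swap R.q b else 1)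
  cL : ∀ x ≤ R.n, R.covL τ x → R.P τ x R.p < R.P τ x a
  cU : ∀ x ≤ R.n, R.covU τ x → R.P τ x R.q < R.P τ x b
  /-- decreasing direction, starting on the upper strand. -/
  t1 : R.lc (τ + 1) < R.lc τ → R.up τ = true → R.P (τ + 1) 0 b < R.P (τ + 1) 0 R.p
  t1' : R.lc (τ + 1) < R.lc τ → R.up τ = true →
    ∀ x, R.J τ ≤ x → x ≤ R.n → R.P τ x R.q < R.P τ x b
  /-- change of side. -/
  t2 : R.up τ ≠ R.up (τ + 1) → R.P τ 0 R.p < R.P τ 0 a ∧ R.P τ 0 R.q < R.P τ 0 b
  /-- starting on the lower strand. -/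
  t3 : R.up τ = false → R.P τ (R.J τ) a = R.P τ (R.J τ) R.p + 1
  t3' : R.lc τ < R.lc (τ + 1) → R.up (τ + 1) = false →
    ∀ x ≤ R.J (τ + 1), R.P τ x a < R.P τ x R.p
  /-- increasing direction, ending on the upper strand. -/
  t4 : R.lc τ < R.lc (τ + 1) → R.up (τ + 1) = true →
    ∀ x ≤ R.J (τ + 1), R.P τ x R.q < R.P τ x b
  /-- decreasing direction, ending on the lower strand. -/
  t5 : R.lc (τ + 1) < R.lc τ → R.up (τ + 1) = false →
    ∀ x ≤ R.J (τ + 1), R.P τ x R.p < R.P τ x a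
  t5' : R.lc (τ + 1) < R.lc τ → R.up (τ + 1) = false →
    ∀ x, R.J (τ + 1) < x → x ≤ R.n → R.P τ x a < R.P τ x R.p

/-- the axioms of a run. -/
structure IsRun : Prop where
  hJ : ∀ τ < R.N, R.J τ < R.n
  hv : ∀ τ < R.N, ∀ t, R.v (τ + 1) t = if t = R.J τ then R.v τ t + 1 else R.v τ t
  hstep : ∀ τ < R.N, ∀ t < R.n,
    R.P τ t = (if t = R.J τ then 1 else Equiv.swap (R.v τ t) (R.v τ t + 1)) * R.P τ (t + 1)
  h0 : ∀ τ < R.N, R.P τ 0 R.q = R.P τ 0 R.p + 1
  hpq : ∀ τ < R.N, ∀ x ≤ R.n, R.P τ x R.p < R.P τ x R.q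
  hcross : ∀ τ < R.N, ∀ f g : ℤ, ∀ x y z : ℕ, x ≤ y → y ≤ z → z ≤ R.n →
    R.P τ x f < R.P τ x g → R.P τ y g < R.P τ y f → R.P τ z g < R.P τ z f
  hmark : ∀ τ < R.N, R.P τ (R.J τ) (if R.up τ then R.q else R.p) = R.v τ (R.J τ) + 1
  hmove : ∀ τ, τ + 1 < R.N → R.IsJump τ ∨ ∃ a b, R.IsMove τ a b

end RunData

/-- **Claim S** (separation of jumps). -/
def S_claimS : Prop := ∀ R : RunData, R.IsRun → ∀ s t : ℕ, s < t → R.IsJump s → R.IsJump t →
  ∀ x, x ≤ R.J s → x ≤ R.J t → R.P s x R.q < R.P t x R.p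

/-- **Claim T**: between a push of letter `m` on the upper strand and the next push of letter `m`,
if that one is on the lower strand, there is a jump over `m`. -/
def S_claimT : Prop := ∀ R : RunData, R.IsRun → ∀ m s t : ℕ, s < t → t < R.N →
  R.J s = m → R.J t = m → (∀ r, s < r → r < t → R.J r ≠ m) → R.up s = true → R.up t = false →
  ∃ r, s < r ∧ r < t ∧ R.IsJump r ∧ m < R.J r

/-- **Lemma K**, the cases (U,U), (L,L), (L,U). -/
def S_lemmaK : Prop := ∀ R : RunData, R.IsRun → ∀ m s t : ℕ, s < t → t < R.N →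
  R.J s = m → R.J t = m → (∀ r, s < r → r < t → R.J r ≠ m) →
  ¬ (R.up s = true ∧ R.up t = false) →
  (t = s + 1 ∧ R.IsJump s) ∨ ∃ r, s < r ∧ r < t ∧ R.IsJump r ∧ m < R.J r

/-- the final count: no letter is pushed three times. -/
def S_final : Prop := S_claimS → S_claimT → S_lemmaK → ∀ R : RunData, R.IsRun →
  ∀ m r s t : ℕ, r < s → s < t → t < R.N → R.J r = m → R.J s = m → R.J t = m →
  (∀ k, r < k → k < s → R.J k ≠ m) → (∀ k, s < k → k < t → R.J k ≠ m) → False

end Pool.Agent.H156.Fpf
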