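import Pool.Agent.H156.Fpf.Good

/-!
Problem-level definitions: reduced words, fpf-involution words, marked words, the operator `fpush`
and the fixed-point-free involution Little bump.
-/

namespace Pool.Agent.H156.Fpf

/-- the simple transposition `s_c = (c, c+1)`. -/
def sw (c : ℤ) : Equiv.Perm ℤ := Equiv.swap c (c + 1)

/-- `s_{w_1} s_{w_2} ⋯ s_{w_l}`. -/
def wordProd (w : List ℤ) : Equiv.Perm ℤ := (w.map sw).prod

/-- the permutations of `ℤ` fixing all but finitely many integers. -/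
def SZ : Set (Equiv.Perm ℤ) := {σ | {i : ℤ | σ i ≠ i}.Finite}

/-- `w` is a reduced word for `σ`. -/
def IsReducedWord (w : List ℤ) (σ : Equiv.Perm ℤ) : Prop :=
  wordProd w = σ ∧ ∀ u : List ℤ, wordProd u = σ → w.length ≤ u.length

/-- the length of `σ`: the least length of a word for `σ`. -/
noncomputable def len (σ : Equiv.Perm ℤ) : ℕ := sInf {l | ∃ u : List ℤ, wordProd u = σ ∧ u.length = l}

/-- the set `I^fpf_ℤ`. -/
def IFpf : Set (Equiv.Perm ℤ) := {π | ∃ σ ∈ SZ, σ⁻¹ * oneFpf * σ = π}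

/-- the set `A^Sp(π)` of minimal length `σ` with `σ⁻¹ 1_fpf σ = π`. -/
def ASp (π : Equiv.Perm ℤ) : Set (Equiv.Perm ℤ) :=
  {σ | σ ∈ SZ ∧ σ⁻¹ * oneFpf * σ = π ∧ ∀ τ ∈ SZ, τ⁻¹ * oneFpf * τ = π → len σ ≤ len τ}

/-- the set `R^Sp(π)` of fpf-involution words for `π`. -/
def RSp (π : Equiv.Perm ℤ) : Set (List ℤ) := {w | ∃ σ ∈ ASp π, IsReducedWord w σ}

/-- `w` is an fpf-involution word. -/
def FpfWord (w : List ℤ) : Prop := ∃ π ∈ IFpf, w ∈ RSp π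

/-- `(w,i)` is `π`-marked (indices start at `0`). -/
def Marked (π : Equiv.Perm ℤ) (w : List ℤ) (i : ℕ) : Prop := i < w.length ∧ w.eraseIdx i ∈ RSp π

/-- `(w,i)` is semi-reduced. -/
def Semi (π : Equiv.Perm ℤ) (w : List ℤ) : Prop :=
  ¬ FpfWord w ∧ ∃ σ ∈ SZ, IsReducedWord w σ ∧ σ⁻¹ * oneFpf * σ = π

/-- `fpush (w,i) = (v,j)`. -/
def Fpush (π : Equiv.Perm ℤ) (a b : List ℤ × ℕ) : Prop :=
  (((FpfWord a.1 ∨ Semi π a.1) ∧ b.2 = a.2) ∨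
    (¬ (FpfWord a.1 ∨ Semi π a.1) ∧ b.2 ≠ a.2 ∧ Marked π a.1 b.2)) ∧
  b.1 = a.1.set b.2 (a.1.getD b.2 0 + 1)

/-- `fb_π(w) = v`. -/
def IsFb (π : Equiv.Perm ℤ) (w v : List ℤ) : Prop :=
  (∃ i, Marked π w i ∧ ∃ N, 0 < N ∧ ∃ c : ℕ → List ℤ × ℕ, c 0 = (w, i) ∧
      (∀ k < N, Fpush π (c k) (c (k + 1))) ∧ (∀ k, 0 < k → k < N → ¬ FpfWord (c k).1) ∧
      FpfWord (c N).1 ∧ v = (c N).1) ∨
  ((¬ ∃ i, Marked π w i) ∧ v = w)

end Pool.Agent.H156.Fpf
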