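import Pool.Agent.H156.Fpf.Core

/-!
Wiring diagrams with one deleted letter, labelled by final positions.
-/

namespace Pool.Agent.H156.Fpf

/-- `1_fpf`: exchanges `2k-1` and `2k`. -/
def fpfFun (i : ℤ) : ℤ := if Even i then i - 1 else i + 1

theorem fpfFun_invol (i : ℤ) : fpfFun (fpfFun i) = i := by
  unfold fpfFun
  by_cases h : Even i
  · have h' : ¬ Even (i - 1) := by
      rw [Int.even_sub_one, not_not]; exact h
    rw [if_pos h, if_neg h']; ring
  · have h' : Even (i + 1) := by
      rw [Int.even_add_one]; exact h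
    rw [if_neg h, if_pos h']; ring

def oneFpf : Equiv.Perm ℤ where
  toFun := fpfFun
  invFun := fpfFun
  left_inv := fpfFun_invol
  right_inv := fpfFun_invol

/-- letter `t` acts by an adjacent transposition, the deleted letter `j` acts trivially. -/
def stepPerm (v : ℕ → ℤ) (j t : ℕ) : Equiv.Perm ℤ :=
  if t = j then 1 else Equiv.swap (v t) (v t + 1)

/-- `pos v j n x f`: position at place `x` of the strand whose final position (at place `n`) is `f`,
in the wiring diagram of `v 0 … v (n-1)` with letter `j` deleted. -/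
def pos (v : ℕ → ℤ) (j n x : ℕ) : Equiv.Perm ℤ :=
  ((List.range' x (n - x)).map (stepPerm v j)).prod

theorem pos_last (v : ℕ → ℤ) (j n : ℕ) : pos v j n n = 1 := by
  simp [pos]

theorem pos_step (v : ℕ → ℤ) (j n x : ℕ) (hx : x < n) :
    pos v j n x = stepPerm v j x * pos v j n (x + 1) := by
  have h : n - x = (n - (x + 1)) + 1 := by omega
  simp only [pos]
  rw [h, List.range'_succ, List.map_cons, List.prod_cons]

/-- the diagram of `v` with letter `j` deleted is a reduced fpf-involution word for `π`. -/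
structure Good (π : Equiv.Perm ℤ) (n : ℕ) (v : ℕ → ℤ) (j : ℕ) : Prop where
  cap : ∀ f, pos v j n 0 (π f) = oneFpf (pos v j n 0 f)
  asc : ∀ t < n, t ≠ j → ∀ f g, pos v j n t f = v t → pos v j n t g = v t + 1 →
    pos v j n t (π f) < pos v j n t (π g)

/-- order facts: for labels `f`, `g` which are different and not partners, `f,g` and `πf, πg`
together cross at most once. -/
def S_cross2 : Prop := ∀ (π : Equiv.Perm ℤ) (n : ℕ) (v : ℕ → ℤ) (j : ℕ), Good π n v j →
  (∀ f, π (π f) = f) ∧ (∀ f, π f ≠ f) ∧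
  (∀ f x y, x ≤ n → y ≤ n → pos v j n x f < pos v j n x (π f) →
    pos v j n y f < pos v j n y (π f)) ∧
  (∀ f g, g ≠ f → g ≠ π f → ∀ x y, x ≤ y → y ≤ n →
    ((pos v j n y f < pos v j n y g ↔ pos v j n y (π f) < pos v j n y (π g)) →
      ((pos v j n x f < pos v j n x g ↔ pos v j n y f < pos v j n y g) ∧
       (pos v j n x (π f) < pos v j n x (π g) ↔ pos v j n y (π f) < pos v j n y (π g)))) ∧
    (¬ (pos v j n x f < pos v j n x g ↔ pos v j n x (π f) < pos v j n x (π g)) →
      ((pos v j n x f < pos v j n x g ↔ pos v j n y f < pos v j n y g) ∧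
       (pos v j n x (π f) < pos v j n x (π g) ↔ pos v j n y (π f) < pos v j n y (π g)))))

/-- any two strands cross at most once. -/
def S_cross1 : Prop := ∀ (π : Equiv.Perm ℤ) (n : ℕ) (v : ℕ → ℤ) (j : ℕ), Good π n v j →
  ∀ f g : ℤ, ∀ x y z : ℕ, x ≤ y → y ≤ z → z ≤ n →
    pos v j n x f < pos v j n x g → pos v j n y g < pos v j n y f → pos v j n z g < pos v j n z f

open Classical in
/-- the two kinds of moves (partner index). -/
def S_move : Prop := ∀ (π : Equiv.Perm ℤ) (n : ℕ) (w : ℕ → ℤ) (j j' : ℕ), j < n → j' < n →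
  j ≠ j' → Good π n w j → Good π n w j' →
  ∀ C F : ℤ, pos w j n j C = w j → pos w j n j F = w j + 1 →
  F ≠ π C ∧
  (((∀ x ≤ n, pos w j' n x = pos w j n x *
        (if min j j' < x ∧ x ≤ max j j' then Equiv.swap C F else 1)) ∧
      pos w j' n j' C = w j' + 1 ∧
      (j' < j → (∀ x ≤ j', pos w j n x F < pos w j n x C) ∧
        (∀ x, j' < x → x ≤ n → pos w j n x C < pos w j n x F)) ∧
      (j < j' → (∀ x ≤ j', pos w j n x C < pos w j n x F) ∧
        (∀ x, j' < x → x ≤ n → pos w j n x F < pos w j n x C))) ∨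
   ((∀ x ≤ n, pos w j' n x = pos w j n x * (if x ≤ j then Equiv.swap C F else 1) *
        (if x ≤ j' then Equiv.swap (π C) (π F) else 1)) ∧
      pos w j' n j' (π C) = w j' + 1 ∧
      (∀ x ≤ n, pos w j n x C < pos w j n x F) ∧
      (∀ x ≤ j', pos w j n x (π C) < pos w j n x (π F)) ∧
      (∀ x, j' < x → x ≤ n → pos w j n x (π F) < pos w j n x (π C))))

/-- a chain of pushes: `V τ` is the word before push `τ`, `J τ` the pushed index. -/
structure Chain (π : Equiv.Perm ℤ) (n N : ℕ) (V : ℕ → ℕ → ℤ) (J : ℕ → ℕ) : Prop where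
  hJ : ∀ τ < N, J τ < n
  good : ∀ τ < N, Good π n (V τ) (J τ)
  push : ∀ τ < N, V (τ + 1) = Function.update (V τ) (J τ) (V τ (J τ) + 1)
  /-- if the same index is pushed again, the two strands at the deleted letter are partners. -/
  semi : ∀ τ, τ + 1 < N → J (τ + 1) = J τ →
    ∀ f g, pos (V τ) (J τ) n (J τ) f = V τ (J τ) + 1 → pos (V τ) (J τ) n (J τ) g = V τ (J τ) + 2 →
      g = π f

/-- a chain gives a run. -/
def S_toRun : Prop := S_cross2 → S_cross1 → S_move →
  ∀ (π : Equiv.Perm ℤ) (n N : ℕ) (V : ℕ → ℕ → ℤ) (J : ℕ → ℕ), Chain π n N V J → 0 < N →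
    ∃ R : RunData, R.IsRun ∧ R.n = n ∧ R.N = N ∧ R.J = J

end Pool.Agent.H156.Fpf
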