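import Pool.Agent.H156.Fpf.Trans

/-!
Assembly: the increments of the letters are at most two.
-/

namespace Pool.Agent.H156.Fpf

/-- the number of pushes of letter `m` among the first `τ` pushes. -/
def cnt (J : ℕ → ℕ) (m : ℕ) : ℕ → ℕ
  | 0 => 0
  | τ + 1 => cnt J m τ + if J τ = m then 1 else 0

theorem cnt_succ (J : ℕ → ℕ) (m τ : ℕ) : cnt J m (τ + 1) = cnt J m τ + if J τ = m then 1 else 0 :=
  rfl

/-- if the count exceeds `k` there is a last push before. -/
theorem exists_last (J : ℕ → ℕ) (m : ℕ) : ∀ τ, 0 < cnt J m τ →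
    ∃ t, t < τ ∧ J t = m ∧ cnt J m t + 1 = cnt J m τ ∧ ∀ r, t < r → r < τ → J r ≠ m := by
  intro τ
  induction τ with
  | zero => intro h; simp [cnt] at h
  | succ τ ih =>
    intro h
    rw [cnt_succ] at h ⊢
    by_cases hJ : J τ = m
    · refine ⟨τ, by omega, hJ, by simp [hJ], fun r h1 h2 => by omega⟩
    · rw [if_neg hJ] at h ⊢
      obtain ⟨t, h1, h2, h3, h4⟩ := ih (by omega)
      refine ⟨t, by omega, h2, by omega, fun r h5 h6 => ?_⟩
      rcases Nat.lt_or_ge r τ with h7 | h7
      · exact h4 r h5 h7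
      · have : r = τ := by omega
        rw [this]; exact hJ

theorem cnt_le_two {J : ℕ → ℕ} {N m : ℕ}
    (h : ∀ r s t : ℕ, r < s → s < t → t < N → J r = m → J s = m → J t = m →
      (∀ k, r < k → k < s → J k ≠ m) → (∀ k, s < k → k < t → J k ≠ m) → False) :
    cnt J m N ≤ 2 := by
  by_contra hcon
  obtain ⟨t, t1, t2, t3, -⟩ := exists_last J m N (by omega)
  obtain ⟨s, s1, s2, s3, s4⟩ := exists_last J m t (by omega)
  obtain ⟨r, r1, r2, -, r4⟩ := exists_last J m s (by omega)
  exact h r s t r1 s1 t1 r2 s2 t2 r4 s4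

/-- the combinatorial core. -/
def S_core : Prop := ∀ (π : Equiv.Perm ℤ) (n N : ℕ) (V : ℕ → ℕ → ℤ) (J : ℕ → ℕ),
  Chain π n N V J → 0 < N → ∀ m, cnt J m N ≤ 2

theorem core_of (h2 : S_cross2) (h1 : S_cross1) (hm : S_move) (hr : S_toRun) (hS : S_claimS)
    (hT : S_claimT) (hK : S_lemmaK) (hF : S_final) : S_core := by
  intro π n N V J hC hN m
  obtain ⟨R, hR, -, hRN, hRJ⟩ := hr h2 h1 hm π n N V J hC hN
  apply cnt_le_two
  intro r s t
  have := hF hS hT hK R hR m r s t
  rw [hRN, hRJ] at this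
  exact this

theorem fw_set (w : List ℤ) (j : ℕ) (hj : j < w.length) (a : ℤ) :
    fw (w.set j a) = Function.update (fw w) j a := by
  funext t
  by_cases ht : t = j
  · subst ht
    rw [Function.update_self, fw_eq _ _ (by simpa using hj)]
    simp
  · rw [Function.update_of_ne ht]
    unfold fw
    simp only [List.getD_eq_getElem?_getD]
    rw [List.getElem?_set_ne (Ne.symm ht)]

theorem main_of_core (hcore : S_core) (π : Equiv.Perm ℤ) (w : List ℤ) (hw : FpfWord w)
    (v : List ℤ) (hv : IsFb π w v) :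
    v.length = w.length ∧ ∀ k, k < w.length →
      v.getD k 0 - w.getD k 0 = 0 ∨ v.getD k 0 - w.getD k 0 = 1 ∨ v.getD k 0 - w.getD k 0 = 2 := by
  rcases hv with ⟨i, hi, N, hN, c, c0, cs, cn, cN, rfl⟩ | ⟨-, rfl⟩
  swap
  · refine ⟨rfl, fun k _ => Or.inl (by omega)⟩
  -- markedness
  have hJlt : ∀ τ ≤ N, (c τ).1.length = w.length ∧ Marked π (c τ).1 (c τ).2 := by
    intro τ
    induction τ with
    | zero => intro _; rw [c0]; exact ⟨rfl, hi⟩
    | succ τ ih =>
      intro hτ
      obtain ⟨h1, h2⟩ := ih (by omega)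
      obtain ⟨h3, h4⟩ := cs τ (by omega)
      have hm : Marked π (c τ).1 (c (τ + 1)).2 := by
        rcases h3 with ⟨-, h3⟩ | ⟨-, -, h3⟩
        · rw [h3]; exact h2
        · exact h3
      rw [h4]
      refine ⟨by rw [List.length_set]; exact h1, ?_, ?_⟩
      · rw [List.length_set]; exact hm.1
      · rw [List.eraseIdx_set_eq]
        exact hm.2
  have hmk : ∀ τ < N, Marked π (c τ).1 (c (τ + 1)).2 := by
    intro τ hτ
    obtain ⟨h1, h2⟩ := hJlt τ (by omega)
    obtain ⟨h3, h4⟩ := cs τ hτ
    rcases h3 with ⟨-, h3⟩ | ⟨-, -, h3⟩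
    · rw [h3]; exact h2
    · exact h3
  have hC : Chain π w.length N (fun τ => fw (c τ).1) (fun τ => (c (τ + 1)).2) := by
    constructor
    · intro τ hτ
      have := (hmk τ hτ).1
      rw [(hJlt τ (by omega)).1] at this
      exact this
    · intro τ hτ
      have := good_of_marked (hmk τ hτ)
      rw [(hJlt τ (by omega)).1] at this
      exact this
    · intro τ hτ
      rw [(cs τ hτ).2, fw_set _ _ (hmk τ hτ).1]
      rfl
    · intro τ hτ hJJ f g hf hg
      -- the word after the push
      have hmk1 := hJlt (τ + 1) (by omega)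
      have hsemi : Semi π (c (τ + 1)).1 := by
        obtain ⟨h3, -⟩ := cs (τ + 1) hτ
        rcases h3 with ⟨h3 | h3, -⟩ | ⟨-, h3, -⟩
        · exact absurd h3 (cn (τ + 1) (by omega) hτ)
        · exact h3
        · exact absurd hJJ h3
      have hlen := (hJlt τ (by omega)).1
      have hj := (hmk τ (by omega)).1
      have hset := (cs τ (by omega)).2
      have hpos : pos (fw (c τ).1) (c (τ + 1)).2 w.length (c (τ + 1)).2 =
          wordProd ((c τ).1.drop ((c (τ + 1)).2 + 1)) := by
        have hj' : (c (τ + 1)).2 < w.length := by omega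
        rw [pos_step _ _ _ _ hj', stepPerm, if_pos rfl, one_mul]
        have := pos_right (c τ).1 (c (τ + 1)).2 (w.length - ((c (τ + 1)).2 + 1)) ((c (τ + 1)).2 + 1)
          (by omega) (by omega)
        rw [hlen] at this
        exact this
      have hdrop : (c (τ + 1)).1.drop ((c (τ + 1)).2 + 1) = (c τ).1.drop ((c (τ + 1)).2 + 1) := by
        rw [hset, List.drop_set, if_pos (by omega)]
      have hval : (c (τ + 1)).1.getD (c (τ + 1)).2 0 = fw (c τ).1 (c (τ + 1)).2 + 1 := by
        conv_lhs => rw [hset]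
        rw [List.getD_eq_getElem _ _ (by rw [List.length_set]; exact hj), List.getElem_set_self]
        rfl
      rw [hpos, ← hdrop] at hf hg
      exact partner_of_semi hmk1.2 hsemi f g (by rw [hval]; exact hf) (by rw [hval, hg]; ring)
  have hcount := hcore π w.length N _ _ hC hN
  have hval : ∀ m, ∀ τ ≤ N, fw (c τ).1 m = fw w m + cnt (fun τ => (c (τ + 1)).2) m τ := by
    intro m τ
    induction τ with
    | zero => intro _; rw [c0]; simp [cnt]
    | succ τ ih =>
      intro hτ
      rw [(cs τ (by omega)).2, fw_set _ _ (hmk τ (by omega)).1, cnt_succ]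
      by_cases hm : (c (τ + 1)).2 = m
      · rw [if_pos hm, hm, Function.update_self]
        have := ih (by omega)
        unfold fw at this ⊢
        rw [this]; push_cast; ring
      · rw [if_neg hm, Function.update_of_ne (Ne.symm hm), ih (by omega)]
        push_cast; ring
  refine ⟨(hJlt N le_rfl).1, fun k hk => ?_⟩
  have h1 := hval k N le_rfl
  have h2 := hcount k
  unfold fw at h1
  rw [h1]
  have h3 : (cnt (fun τ => (c (τ + 1)).2) k N : ℤ) ≤ 2 := by exact_mod_cast h2
  omega

end Pool.Agent.H156.Fpf
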