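import Pool.Agent.H156.Fpf.Core

/-!
Claim S of the project FPF: separation of jumps.
-/

set_option autoImplicit false

namespace Pool.Agent.H156.Fpf

namespace ClS

variable {R : RunData} {τ : ℕ} {a b : ℤ}

theorem lc_ne1 (R : RunData) (τ x : ℕ) : R.lc τ ≠ 2 * (x : ℤ) + 1 := by
  unfold RunData.lc loc
  split <;> omega

theorem lc_ne2 (R : RunData) (τ x : ℕ) : R.lc τ ≠ -(2 * (x : ℤ) + 1) := by
  unfold RunData.lc loc
  split <;> omega

theorem up_true (h : 0 < R.lc τ) : R.up τ = true := by
  unfold RunData.lc loc at h
  split at h
  · assumption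
  · omega

theorem up_false (h : R.lc τ < 0) : R.up τ = false := by
  unfold RunData.lc loc at h
  split at h
  · omega
  · simp_all

theorem lc_up (h : R.up τ = true) : R.lc τ = 2 * (R.J τ : ℤ) + 2 := by
  unfold RunData.lc loc
  rw [if_pos h]

theorem lc_dn (h : R.up τ = false) : R.lc τ = -(2 * (R.J τ : ℤ) + 2) := by
  unfold RunData.lc loc
  rw [h]
  simp

theorem p_ne_q (hr : R.IsRun) (hτ : τ < R.N) : R.p ≠ R.q := by
  intro h
  have := hr.hpq τ hτ 0 (Nat.zero_le _)
  rw [h] at this
  exact lt_irrefl _ this

/-- the effect of a move -/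
theorem mv (hr : R.IsRun) (h : R.IsMove τ a b) {x : ℕ} (hx : x ≤ R.n) :
    (R.covL τ x → R.P (τ + 1) x R.p = R.P τ x a ∧ R.P (τ + 1) x a = R.P τ x R.p) ∧
    (¬ R.covL τ x → R.P (τ + 1) x R.p = R.P τ x R.p ∧ R.P (τ + 1) x a = R.P τ x a) ∧
    (R.covU τ x → R.P (τ + 1) x R.q = R.P τ x b ∧ R.P (τ + 1) x b = R.P τ x R.q) ∧
    (¬ R.covU τ x → R.P (τ + 1) x R.q = R.P τ x R.q ∧ R.P (τ + 1) x b = R.P τ x b) ∧
    ∀ f, f ≠ R.p → f ≠ R.q → f ≠ a → f ≠ b → R.P (τ + 1) x f = R.P τ x f := by
  classical
  have hpq := p_ne_q hr (Nat.lt_of_succ_lt h.lt)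
  have hap := h.ap
  have haq := h.aq
  have hbp := h.bp
  have hbq := h.bq
  have hab := h.ab
  have s1 : Equiv.swap R.q b R.p = R.p := Equiv.swap_apply_of_ne_of_ne hpq hbp.symm
  have s2 : Equiv.swap R.q b a = a := Equiv.swap_apply_of_ne_of_ne haq hab
  have s3 : Equiv.swap R.q b R.q = b := Equiv.swap_apply_left _ _
  have s4 : Equiv.swap R.q b b = R.q := Equiv.swap_apply_right _ _
  have s5 : Equiv.swap R.p a R.p = a := Equiv.swap_apply_left _ _
  have s6 : Equiv.swap R.p a a = R.p := Equiv.swap_apply_right _ _
  have s7 : Equiv.swap R.p a R.q = R.q := Equiv.swap_apply_of_ne_of_ne hpq.symm haq.symm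
  have s8 : Equiv.swap R.p a b = b := Equiv.swap_apply_of_ne_of_ne hbp hab.symm
  have hP := h.P1 x hx
  refine ⟨fun h1 => ?_, fun h1 => ?_, fun h1 => ?_, fun h1 => ?_, fun f hf1 hf2 hf3 hf4 => ?_⟩
  · by_cases h2 : R.covU τ x
    · rw [if_pos h1, if_pos h2] at hP
      simp only [hP, Equiv.Perm.mul_apply, s1, s2, s5, s6, and_self]
    · rw [if_pos h1, if_neg h2] at hP
      simp only [hP, Equiv.Perm.mul_apply, Equiv.Perm.one_apply, s5, s6, and_self]
  · by_cases h2 : R.covU τ x
    · rw [if_neg h1, if_pos h2] at hP
      simp only [hP, Equiv.Perm.mul_apply, Equiv.Perm.one_apply, s1, s2, and_self]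
    · rw [if_neg h1, if_neg h2] at hP
      simp only [hP, Equiv.Perm.mul_apply, Equiv.Perm.one_apply, and_self]
  · by_cases h2 : R.covL τ x
    · rw [if_pos h2, if_pos h1] at hP
      simp only [hP, Equiv.Perm.mul_apply, s3, s4, s7, s8, and_self]
    · rw [if_neg h2, if_pos h1] at hP
      simp only [hP, Equiv.Perm.mul_apply, Equiv.Perm.one_apply, s3, s4, and_self]
  · by_cases h2 : R.covL τ x
    · rw [if_pos h2, if_neg h1] at hP
      simp only [hP, Equiv.Perm.mul_apply, Equiv.Perm.one_apply, s7, s8, and_self]
    · rw [if_neg h2, if_neg h1] at hP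
      simp only [hP, Equiv.Perm.mul_apply, Equiv.Perm.one_apply, and_self]
  · have s9 : Equiv.swap R.q b f = f := Equiv.swap_apply_of_ne_of_ne hf2 hf4
    have s10 : Equiv.swap R.p a f = f := Equiv.swap_apply_of_ne_of_ne hf1 hf3
    by_cases h1 : R.covL τ x <;> by_cases h2 : R.covU τ x <;>
      simp only [h1, h2, if_true, if_false] at hP <;>
      simp only [hP, Equiv.Perm.mul_apply, Equiv.Perm.one_apply, s9, s10]

/-- the lower strand does not decrease -/
theorem mono_p (hr : R.IsRun) (h : R.IsMove τ a b) {x : ℕ} (hx : x ≤ R.n) :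
    R.P τ x R.p ≤ R.P (τ + 1) x R.p := by
  obtain ⟨m1, m2, -, -, -⟩ := mv hr h hx
  by_cases h1 : R.covL τ x
  · rw [(m1 h1).1]
    exact (h.cL x hx h1).le
  · rw [(m2 h1).1]

/-- the upper strand does not decrease -/
theorem mono_q (hr : R.IsRun) (h : R.IsMove τ a b) {x : ℕ} (hx : x ≤ R.n) :
    R.P τ x R.q ≤ R.P (τ + 1) x R.q := by
  obtain ⟨-, -, m3, m4, -⟩ := mv hr h hx
  by_cases h1 : R.covU τ x
  · rw [(m3 h1).1]
    exact (h.cU x hx h1).le
  · rw [(m4 h1).1]

/-- the invariant -/
def Inv (R : RunData) (s r x : ℕ) : Prop :=
  (2 * (x : ℤ) + 1 < R.lc r ∧ R.P r x R.q = R.P s x R.q) ∨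
  (∃ O : ℤ, O ≠ R.p ∧ O ≠ R.q ∧ R.P r x O = R.P s x R.q ∧ R.P r 0 O < R.P r 0 R.p ∧
    R.P r x R.p < R.P s x R.q ∧ R.P s x R.q < R.P r x R.q) ∨
  (R.P r x R.p = R.P s x R.q ∧ -(2 * (x : ℤ) + 1) < R.lc r) ∨
  R.P s x R.q < R.P r x R.p

theorem inv_start {s x : ℕ} (hs : R.IsJump s) (hx : x ≤ R.J s) (hxn : x ≤ R.n) :
    Inv R s (s + 1) x := by
  left
  refine ⟨?_, ?_⟩
  · rw [lc_up hs.up1, hs.J1]
    have : (x : ℤ) ≤ R.J s := by exact_mod_cast hx
    linarith
  · rw [hs.P1 x hxn]

theorem inv_jump {s r x : ℕ} (hj : R.IsJump r) (hxn : x ≤ R.n) (h : Inv R s r x) :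
    Inv R s (r + 1) x := by
  have e1 := hj.P1 x hxn
  have e0 := hj.P1 0 (Nat.zero_le _)
  have l0 := lc_dn hj.up0
  have l1 := lc_up hj.up1
  have hJ : (0 : ℤ) ≤ R.J r := Int.natCast_nonneg _
  have hJ' : (0 : ℤ) ≤ R.J (r + 1) := Int.natCast_nonneg _
  have hx0 : (0 : ℤ) ≤ x := Int.natCast_nonneg _
  rcases h with ⟨h1, h2⟩ | h | ⟨h1, h2⟩ | h
  · exfalso
    linarith
  · right
    left
    rw [e1, e0]
    exact h
  · right
    right
    left
    refine ⟨by rw [e1]; exact h1, by linarith⟩
  · right
    right
    right
    rw [e1]
    exact h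

theorem inv_move {s r x : ℕ} (hr : R.IsRun) (hm : R.IsMove r a b) (hxn : x ≤ R.n)
    (h : Inv R s r x) : Inv R s (r + 1) x := by
  obtain ⟨m1, m2, m3, m4, m5⟩ := mv hr hm hxn
  obtain ⟨z1, z2, z3, z4, z5⟩ := mv hr hm (Nat.zero_le R.n)
  have hpq : R.p ≠ R.q := p_ne_q hr (Nat.lt_of_succ_lt hm.lt)
  have hp := mono_p hr hm hxn
  have hq := mono_q hr hm hxn
  have hp0 := mono_p hr hm (Nat.zero_le R.n)
  have hx0 : (0 : ℤ) ≤ x := Int.natCast_nonneg _
  rcases h with ⟨h1, h2⟩ | ⟨O, hOp, hOq, hO, hO0, hOx, hOq'⟩ | ⟨h1, h2⟩ | h
  · -- case (i)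
    by_cases hc : R.covU r x
    · have hlt : R.lc (r + 1) < 2 * (x : ℤ) + 1 := by
        rcases hc with hc | hc
        · exfalso
          linarith [hc.1]
        · exact hc.1
      have hup : R.up r = true := up_true (by linarith)
      have t1 := hm.t1 (by linarith) hup
      obtain ⟨c1, c2⟩ := m3 hc
      have c3 := hm.cU x hxn hc
      have hne : R.P (r + 1) x R.p ≠ R.P (r + 1) x b := fun he =>
        hm.bp ((R.P (r + 1) x).injective he).symm
      rcases lt_or_gt_of_ne hne with h3 | h3
      · right
        left
        refine ⟨b, hm.bp, hm.bq, by rw [c2, h2], t1, by rw [← h2, ← c2]; exact h3, ?_⟩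
        rw [← h2, c1]
        exact c3
      · right
        right
        right
        rw [← h2, ← c2]
        exact h3
    · left
      refine ⟨?_, by rw [(m4 hc).1, h2]⟩
      have hne := lc_ne1 R (r + 1) x
      by_contra hcon
      exact hc (Or.inr ⟨lt_of_le_of_ne (not_lt.1 hcon) hne, h1⟩)
  · -- case (ii)
    by_cases hA : R.covL r x ∧ O = a
    · obtain ⟨hA1, rfl⟩ := hA
      right
      right
      left
      refine ⟨by rw [(m1 hA1).1, hO], ?_⟩
      rcases hA1 with hA1 | hA1
      · exact hA1.2
      · exfalso
        have hdn : R.up (r + 1) = false := up_false (by linarith [hA1.1])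
        have t5 := hm.t5 (by linarith [hA1.1, hA1.2]) hdn 0 (Nat.zero_le _)
        exact absurd hO0 (not_lt.2 t5.le)
    · by_cases hB : R.covU r x ∧ O = b
      · exfalso
        obtain ⟨hB1, rfl⟩ := hB
        have := hm.cU x hxn hB1
        rw [hO] at this
        exact absurd this (not_lt.2 hOq'.le)
      · have hO' : R.P (r + 1) x O = R.P s x R.q := by
          by_cases ha : O = a
          · subst ha
            have : ¬ R.covL r x := fun hc => hA ⟨hc, rfl⟩
            rw [(m2 this).2, hO]
          · by_cases hb : O = b
            · subst hb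
              have : ¬ R.covU r x := fun hc => hB ⟨hc, rfl⟩
              rw [(m4 this).2, hO]
            · rw [m5 O hOp hOq ha hb, hO]
        have hne : R.P (r + 1) x R.p ≠ R.P (r + 1) x O := fun he =>
          hOp ((R.P (r + 1) x).injective he).symm
        rw [hO'] at hne
        rcases lt_or_gt_of_ne hne with h3 | h3
        · right
          left
          refine ⟨O, hOp, hOq, hO', ?_, h3, lt_of_lt_of_le hOq' hq⟩
          have hO0' : R.P (r + 1) 0 O = R.P r 0 O := by
            by_cases ha : O = a
            · subst ha
              have hn : ¬ R.covL r 0 := by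
                intro hc
                have hud : R.up r ≠ R.up (r + 1) := by
                  rcases hc with hc | hc
                  · have c1 := hc.1
                    have c2 := hc.2
                    have n1 := lc_ne2 R r 0
                    push_cast at c1 c2 n1
                    have u1 : R.up r = false := up_false (by linarith)
                    have u2 : R.up (r + 1) = true := by
                      apply up_true
                      unfold RunData.lc loc at c2 ⊢
                      split at c2 <;> rename_i hh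
                      · rw [if_pos hh]
                        omega
                      · omega
                    rw [u1, u2]
                    simp
                  · have c1 := hc.1
                    have c2 := hc.2
                    push_cast at c1 c2
                    have u1 : R.up (r + 1) = false := up_false (by linarith)
                    have u2 : R.up r = true := by
                      apply up_true
                      unfold RunData.lc loc at c2 ⊢
                      split at c2 <;> rename_i hh
                      · rw [if_pos hh]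
                        omega
                      · omega
                    rw [u1, u2]
                    simp
                exact absurd (hm.t2 hud).1 (not_lt.2 hO0.le)
              exact (z2 hn).2
            · by_cases hb : O = b
              · subst hb
                have hn : ¬ R.covU r 0 := by
                  intro hc
                  have hud : R.up r ≠ R.up (r + 1) := by
                    rcases hc with hc | hc
                    · have c1 := hc.1
                      have c2 := hc.2
                      push_cast at c1 c2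
                      have u1 : R.up (r + 1) = true := up_true (by linarith)
                      have u2 : R.up r = false := by
                        apply up_false
                        unfold RunData.lc loc at c1 ⊢
                        split at c1 <;> rename_i hh
                        · omega
                        · rw [if_neg hh]
                          omega
                      rw [u1, u2]
                      simp
                    · have c1 := hc.1
                      have c2 := hc.2
                      push_cast at c1 c2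
                      have u1 : R.up r = true := up_true (by linarith)
                      have u2 : R.up (r + 1) = false := by
                        apply up_false
                        unfold RunData.lc loc at c1 ⊢
                        split at c1 <;> rename_i hh
                        · omega
                        · rw [if_neg hh]
                          omega
                      rw [u1, u2]
                      simp
                  have h4 := (hm.t2 hud).2
                  have h5 := hr.hpq r (Nat.lt_of_succ_lt hm.lt) 0 (Nat.zero_le _)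
                  exact absurd (h5.trans h4) (not_lt.2 hO0.le)
                exact (z4 hn).2
              · exact z5 O hOp hOq ha hb
          rw [hO0']
          exact lt_of_lt_of_le hO0 hp0
        · right
          right
          right
          exact h3
  · -- case (iii)
    by_cases hc : R.covL r x
    · right
      right
      right
      have := hm.cL x hxn hc
      rw [(m1 hc).1, ← h1]
      exact this
    · right
      right
      left
      refine ⟨by rw [(m2 hc).1, h1], ?_⟩
      have hne := lc_ne2 R (r + 1) x
      by_contra hcon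
      exact hc (Or.inr ⟨lt_of_le_of_ne (not_lt.1 hcon) hne, h2⟩)
  · right
    right
    right
    exact lt_of_lt_of_le h hp

theorem inv_all {s x : ℕ} (hr : R.IsRun) (hs : R.IsJump s) (hx : x ≤ R.J s) (hxn : x ≤ R.n)
    (r : ℕ) (hsr : s + 1 ≤ r) (hrN : r < R.N) : Inv R s r x := by
  induction r, hsr using Nat.le_induction with
  | base => exact inv_start hs hx hxn
  | succ r hsr ih =>
    have h := ih (Nat.lt_of_succ_lt hrN)
    rcases hr.hmove r hrN with hj | ⟨a, b, hm⟩
    · exact inv_jump hj hxn h
    · exact inv_move hr hm hxn h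

/-- passing down raises -/
theorem raise {s k : ℕ} (hr : R.IsRun) (hs : R.IsJump s) (hk : R.J s = k) (hkn : k ≤ R.n)
    (r : ℕ) (hsr : s + 1 ≤ r) (hrN : r < R.N) :
    R.P s k R.p ≤ R.P r k R.p ∧ (-(2 * (k : ℤ) + 1) < R.lc r ∨ R.P s k R.p < R.P r k R.p) := by
  induction r, hsr using Nat.le_induction with
  | base =>
    refine ⟨by rw [hs.P1 k hkn], Or.inl ?_⟩
    rw [lc_up hs.up1]
    have : (0 : ℤ) ≤ R.J (s + 1) := Int.natCast_nonneg _
    have : (0 : ℤ) ≤ k := Int.natCast_nonneg _
    linarith
  | succ r hsr ih =>
    obtain ⟨h1, h2⟩ := ih (Nat.lt_of_succ_lt hrN)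
    rcases hr.hmove r hrN with hj | ⟨a, b, hm⟩
    · rw [hj.P1 k hkn]
      refine ⟨h1, Or.inl ?_⟩
      rw [lc_up hj.up1]
      have : (0 : ℤ) ≤ R.J (r + 1) := Int.natCast_nonneg _
      have : (0 : ℤ) ≤ k := Int.natCast_nonneg _
      linarith
    · have h3 := mono_p hr hm hkn
      refine ⟨h1.trans h3, ?_⟩
      rcases h2 with h2 | h2
      · by_cases hc : R.covL r k
        · right
          rw [((mv hr hm hkn).1 hc).1]
          exact lt_of_le_of_lt h1 (hm.cL k hkn hc)
        · left
          have hne := lc_ne2 R (r + 1) k
          by_contra hcon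
          exact hc (Or.inr ⟨lt_of_le_of_ne (not_lt.1 hcon) hne, h2⟩)
      · right
        exact lt_of_lt_of_le h2 h3

/-- consecutive places -/
theorem row (hr : R.IsRun) (hτ : τ < R.N) {x : ℕ} (hx : x < R.n) (f : ℤ) :
    |R.P τ x f - R.P τ (x + 1) f| ≤ 1 := by
  have h := hr.hstep τ hτ x hx
  by_cases hc : x = R.J τ
  · rw [if_pos hc, one_mul] at h
    rw [h]
    simp
  · rw [if_neg hc] at h
    rw [h, Equiv.Perm.mul_apply, Equiv.swap_apply_def]
    split_ifs with h1 h2
    · rw [h1]
      simp
    · rw [h2]
      simp
    · simp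

end ClS

open ClS in
theorem claimS : S_claimS := by
  intro R hr s t hst hs ht
  have hsN : s < R.N := Nat.lt_of_succ_lt hs.lt
  have htN : t < R.N := Nat.lt_of_succ_lt ht.lt
  have hJs := hr.hJ s hsN
  have hJt := hr.hJ t htN
  -- the invariant at the time `t`
  have hinv : ∀ x, x ≤ R.J s → x ≤ R.J t →
      (∃ O : ℤ, O ≠ R.p ∧ O ≠ R.q ∧ R.P t x O = R.P s x R.q ∧ R.P t 0 O < R.P t 0 R.p ∧
        R.P t x R.p < R.P s x R.q ∧ R.P s x R.q < R.P t x R.q) ∨
      R.P s x R.q < R.P t x R.p := by
    intro x hx1 hx2
    have hx0 : (0 : ℤ) ≤ x := Int.natCast_nonneg _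
    have hx2' : (x : ℤ) ≤ R.J t := by exact_mod_cast hx2
    have hl := lc_dn ht.up0
    rcases inv_all hr hs hx1 (hx1.trans hJs.le) t hst htN with h | h | h | h
    · exfalso
      linarith [h.1]
    · exact Or.inl h
    · exfalso
      linarith [h.2]
    · exact Or.inr h
  -- the last place
  have hlast : R.P s (min (R.J s) (R.J t)) R.q < R.P t (min (R.J s) (R.J t)) R.p := by
    rcases hinv _ (min_le_left _ _) (min_le_right _ _) with ⟨O, -, -, -, -, h1, h2⟩ | h
    · exfalso
      rcases le_or_gt (R.J t) (R.J s) with hle | hlt
      · rw [min_eq_right hle] at h1 h2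
        have := ht.adj
        linarith
      · rw [min_eq_left hlt.le] at h1 h2
        have h3 := (raise hr hs rfl hJs.le t hst htN).2
        have h4 := hs.adj
        have h5 : (R.J s : ℤ) < R.J t := by exact_mod_cast hlt
        have hl := lc_dn ht.up0
        rcases h3 with h3 | h3
        · linarith
        · linarith
    · exact h
  -- downward induction
  have hdown : ∀ d x : ℕ, x + d = min (R.J s) (R.J t) → R.P s x R.q < R.P t x R.p := by
    intro d
    induction d with
    | zero =>
      intro x hx
      rw [add_zero] at hx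
      rw [hx]
      exact hlast
    | succ d ih =>
      intro x hx
      have hx1 : R.P s (x + 1) R.q < R.P t (x + 1) R.p := ih (x + 1) (by omega)
      have hxs : x < R.J s := by
        have := min_le_left (R.J s) (R.J t)
        omega
      have hxt : x < R.J t := by
        have := min_le_right (R.J s) (R.J t)
        omega
      rcases hinv x hxs.le hxt.le with ⟨O, hOp, hOq, hO, hO0, h1, h2⟩ | h
      · exfalso
        have hxn : x < R.n := hxt.trans hJt
        have r1 := abs_le.1 (row hr htN hxn R.p)
        have r2 := abs_le.1 (row hr hsN hxn R.q)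
        have e1 : R.P t (x + 1) R.p = R.P t x R.p + 1 := by
          linarith [r1.1, r1.2, r2.1, r2.2]
        have e2 : R.P s x R.q = R.P t x R.p + 1 := by
          linarith [r1.1, r1.2, r2.1, r2.2]
        have hstep := hr.hstep t htN x hxn
        rw [if_neg hxt.ne] at hstep
        have e3 : R.P t x R.p = Equiv.swap (R.v t x) (R.v t x + 1) (R.P t (x + 1) R.p) := by
          rw [hstep, Equiv.Perm.mul_apply]
        have e4 : R.P t x O = Equiv.swap (R.v t x) (R.v t x + 1) (R.P t (x + 1) O) := by
          rw [hstep, Equiv.Perm.mul_apply]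
        have e5 : R.P t x R.p = R.v t x := by
          rw [e1, Equiv.swap_apply_def] at e3
          split_ifs at e3 with c1 c2
          · linarith
          · exact e3
          · linarith
        have e6 : R.P t (x + 1) O = R.P t x R.p := by
          have h6 : Equiv.swap (R.v t x) (R.v t x + 1) (R.P t x O) = R.P t (x + 1) O := by
            rw [e4, ← Equiv.Perm.mul_apply, Equiv.swap_mul_self, Equiv.Perm.one_apply]
          rw [← h6, hO, e2, e5, Equiv.swap_apply_right]
        have hcr := hr.hcross t htN O R.p 0 x (x + 1) (Nat.zero_le _) (Nat.le_succ _) hxn hO0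
          (by rw [hO]; exact h1)
        linarith
      · exact h
  intro x hx1 hx2
  have hle : x ≤ min (R.J s) (R.J t) := le_min hx1 hx2
  exact hdown (min (R.J s) (R.J t) - x) x (by omega)

end Pool.Agent.H156.Fpf
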