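import Pool.Agent.H156.Fpf.Core

/-!
Claim T of the project FPF.
-/

namespace Pool.Agent.H156.Fpf

namespace CT

open RunData

variable {R : RunData}

theorem lc_cases (R : RunData) (τ : ℕ) : (R.up τ = true ∧ R.lc τ = 2 * (R.J τ : ℤ) + 2) ∨
    (R.up τ = false ∧ R.lc τ = -(2 * (R.J τ : ℤ) + 2)) := by
  unfold RunData.lc loc
  cases h : R.up τ
  · right
    exact ⟨rfl, by simp⟩
  · left
    exact ⟨rfl, by simp⟩

theorem covL_iff {τ x : ℕ} : R.covL τ x ↔
    (R.lc τ < -(2 * (x : ℤ) + 1) ∧ -(2 * (x : ℤ) + 1) < R.lc (τ + 1)) ∨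
    (R.lc (τ + 1) < -(2 * (x : ℤ) + 1) ∧ -(2 * (x : ℤ) + 1) < R.lc τ) := Iff.rfl

theorem covU_iff {τ x : ℕ} : R.covU τ x ↔
    (R.lc τ < 2 * (x : ℤ) + 1 ∧ 2 * (x : ℤ) + 1 < R.lc (τ + 1)) ∨
    (R.lc (τ + 1) < 2 * (x : ℤ) + 1 ∧ 2 * (x : ℤ) + 1 < R.lc τ) := Iff.rfl

theorem pq (hR : R.IsRun) {τ : ℕ} (hτ : τ < R.N) : R.p ≠ R.q := by
  intro h
  have h1 := hR.hpq τ hτ 0 (Nat.zero_le _)
  rw [h] at h1
  exact lt_irrefl _ h1

section move

variable {τ : ℕ} {a b : ℤ} {x : ℕ}

theorem e11 (hm : R.IsMove τ a b) (hx : x ≤ R.n) (hL : R.covL τ x) (hU : R.covU τ x) (f : ℤ) :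
    R.P (τ + 1) x f = R.P τ x (Equiv.swap R.p a (Equiv.swap R.q b f)) := by
  rw [hm.P1 x hx, if_pos hL, if_pos hU]
  rfl

theorem e10 (hm : R.IsMove τ a b) (hx : x ≤ R.n) (hL : R.covL τ x) (hU : ¬ R.covU τ x) (f : ℤ) :
    R.P (τ + 1) x f = R.P τ x (Equiv.swap R.p a f) := by
  rw [hm.P1 x hx, if_pos hL, if_neg hU]
  rfl

theorem e01 (hm : R.IsMove τ a b) (hx : x ≤ R.n) (hL : ¬ R.covL τ x) (hU : R.covU τ x) (f : ℤ) :
    R.P (τ + 1) x f = R.P τ x (Equiv.swap R.q b f) := by
  rw [hm.P1 x hx, if_neg hL, if_pos hU]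
  rfl

theorem e00 (hm : R.IsMove τ a b) (hx : x ≤ R.n) (hL : ¬ R.covL τ x) (hU : ¬ R.covU τ x) (f : ℤ) :
    R.P (τ + 1) x f = R.P τ x f := by
  rw [hm.P1 x hx, if_neg hL, if_neg hU]
  rfl

theorem mp1 (hR : R.IsRun) (hm : R.IsMove τ a b) (hx : x ≤ R.n) (hL : R.covL τ x) :
    R.P (τ + 1) x R.p = R.P τ x a := by
  have hpq := pq hR hm.lt
  by_cases hU : R.covU τ x
  · rw [e11 hm hx hL hU, Equiv.swap_apply_of_ne_of_ne hpq hm.bp.symm, Equiv.swap_apply_left]
  · rw [e10 hm hx hL hU, Equiv.swap_apply_left]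

theorem mp0 (hR : R.IsRun) (hm : R.IsMove τ a b) (hx : x ≤ R.n) (hL : ¬ R.covL τ x) :
    R.P (τ + 1) x R.p = R.P τ x R.p := by
  have hpq := pq hR hm.lt
  by_cases hU : R.covU τ x
  · rw [e01 hm hx hL hU, Equiv.swap_apply_of_ne_of_ne hpq hm.bp.symm]
  · rw [e00 hm hx hL hU]

theorem ma1 (hm : R.IsMove τ a b) (hx : x ≤ R.n) (hL : R.covL τ x) :
    R.P (τ + 1) x a = R.P τ x R.p := by
  by_cases hU : R.covU τ x
  · rw [e11 hm hx hL hU, Equiv.swap_apply_of_ne_of_ne hm.aq hm.ab, Equiv.swap_apply_right]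
  · rw [e10 hm hx hL hU, Equiv.swap_apply_right]

theorem ma0 (hm : R.IsMove τ a b) (hx : x ≤ R.n) (hL : ¬ R.covL τ x) :
    R.P (τ + 1) x a = R.P τ x a := by
  by_cases hU : R.covU τ x
  · rw [e01 hm hx hL hU, Equiv.swap_apply_of_ne_of_ne hm.aq hm.ab]
  · rw [e00 hm hx hL hU]

theorem mq1 (hm : R.IsMove τ a b) (hx : x ≤ R.n) (hU : R.covU τ x) :
    R.P (τ + 1) x R.q = R.P τ x b := by
  by_cases hL : R.covL τ x
  · rw [e11 hm hx hL hU, Equiv.swap_apply_left, Equiv.swap_apply_of_ne_of_ne hm.bp hm.ab.symm]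
  · rw [e01 hm hx hL hU, Equiv.swap_apply_left]

theorem mq0 (hR : R.IsRun) (hm : R.IsMove τ a b) (hx : x ≤ R.n) (hU : ¬ R.covU τ x) :
    R.P (τ + 1) x R.q = R.P τ x R.q := by
  have hpq := pq hR hm.lt
  by_cases hL : R.covL τ x
  · rw [e10 hm hx hL hU, Equiv.swap_apply_of_ne_of_ne hpq.symm hm.aq.symm]
  · rw [e00 hm hx hL hU]

theorem mb1 (hR : R.IsRun) (hm : R.IsMove τ a b) (hx : x ≤ R.n) (hU : R.covU τ x) :
    R.P (τ + 1) x b = R.P τ x R.q := by
  have hpq := pq hR hm.lt
  by_cases hL : R.covL τ x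
  · rw [e11 hm hx hL hU, Equiv.swap_apply_right,
      Equiv.swap_apply_of_ne_of_ne hpq.symm hm.aq.symm]
  · rw [e01 hm hx hL hU, Equiv.swap_apply_right]

theorem mb0 (hm : R.IsMove τ a b) (hx : x ≤ R.n) (hU : ¬ R.covU τ x) :
    R.P (τ + 1) x b = R.P τ x b := by
  by_cases hL : R.covL τ x
  · rw [e10 hm hx hL hU, Equiv.swap_apply_of_ne_of_ne hm.bp hm.ab.symm]
  · rw [e00 hm hx hL hU]

theorem mo (hm : R.IsMove τ a b) (hx : x ≤ R.n) {f : ℤ} (h1 : f ≠ R.p) (h2 : f ≠ R.q)
    (h3 : f ≠ a) (h4 : f ≠ b) : R.P (τ + 1) x f = R.P τ x f := by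
  by_cases hL : R.covL τ x <;> by_cases hU : R.covU τ x
  · rw [e11 hm hx hL hU, Equiv.swap_apply_of_ne_of_ne h2 h4, Equiv.swap_apply_of_ne_of_ne h1 h3]
  · rw [e10 hm hx hL hU, Equiv.swap_apply_of_ne_of_ne h1 h3]
  · rw [e01 hm hx hL hU, Equiv.swap_apply_of_ne_of_ne h2 h4]
  · rw [e00 hm hx hL hU]

end move

/-- monotonicity, one step -/
theorem mono1 (hR : R.IsRun) {τ : ℕ} (hτ : τ + 1 < R.N) {x : ℕ} (hx : x ≤ R.n) :
    R.P τ x R.p ≤ R.P (τ + 1) x R.p ∧ R.P τ x R.q ≤ R.P (τ + 1) x R.q := by
  rcases hR.hmove τ hτ with hj | ⟨a, b, hm⟩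
  · rw [hj.P1 x hx]
    exact ⟨le_refl _, le_refl _⟩
  · constructor
    · by_cases hL : R.covL τ x
      · rw [mp1 hR hm hx hL]
        exact (hm.cL x hx hL).le
      · rw [mp0 hR hm hx hL]
    · by_cases hU : R.covU τ x
      · rw [mq1 hm hx hU]
        exact (hm.cU x hx hU).le
      · rw [mq0 hR hm hx hU]

theorem mono (hR : R.IsRun) {s r : ℕ} (hsr : s ≤ r) (hr : r < R.N) {x : ℕ} (hx : x ≤ R.n) :
    R.P s x R.p ≤ R.P r x R.p ∧ R.P s x R.q ≤ R.P r x R.q := by
  induction r, hsr using Nat.le_induction with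
  | base => exact ⟨le_refl _, le_refl _⟩
  | succ r hsr ih =>
    have h1 := ih (by omega)
    have h2 := mono1 hR hr hx
    exact ⟨h1.1.trans h2.1, h1.2.trans h2.2⟩

/-- at the marked letter nothing changes -/
theorem rowJ (hR : R.IsRun) {τ : ℕ} (hτ : τ < R.N) (f : ℤ) :
    R.P τ (R.J τ) f = R.P τ (R.J τ + 1) f := by
  have h := hR.hstep τ hτ (R.J τ) (hR.hJ τ hτ)
  rw [if_pos rfl, one_mul] at h
  rw [h]

/-- at the other letters two positions are exchanged -/
theorem rowS (hR : R.IsRun) {τ : ℕ} (hτ : τ < R.N) {x : ℕ} (hx : x < R.n) (hJ : x ≠ R.J τ)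
    (f : ℤ) : R.P τ x f = Equiv.swap (R.v τ x) (R.v τ x + 1) (R.P τ (x + 1) f) := by
  have h := hR.hstep τ hτ x hx
  rw [if_neg hJ] at h
  rw [h]
  rfl

theorem row4 (hR : R.IsRun) {τ : ℕ} (hτ : τ < R.N) {x : ℕ} (hx : x < R.n) (hJ : x ≠ R.J τ)
    (f : ℤ) : (R.P τ (x + 1) f = R.v τ x ∧ R.P τ x f = R.v τ x + 1) ∨
      (R.P τ (x + 1) f = R.v τ x + 1 ∧ R.P τ x f = R.v τ x) ∨
      (R.P τ (x + 1) f ≠ R.v τ x ∧ R.P τ (x + 1) f ≠ R.v τ x + 1 ∧
        R.P τ x f = R.P τ (x + 1) f) := by
  have h := rowS hR hτ hx hJ f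
  by_cases h1 : R.P τ (x + 1) f = R.v τ x
  · left
    rw [h1, Equiv.swap_apply_left] at h
    exact ⟨h1, h⟩
  · by_cases h2 : R.P τ (x + 1) f = R.v τ x + 1
    · right
      left
      rw [h2, Equiv.swap_apply_right] at h
      exact ⟨h2, h⟩
    · right
      right
      rw [Equiv.swap_apply_of_ne_of_ne h1 h2] at h
      exact ⟨h1, h2, h⟩

theorem rowB (hR : R.IsRun) {τ : ℕ} (hτ : τ < R.N) {x : ℕ} (hx : x < R.n) (f : ℤ) :
    R.P τ x f ≤ R.P τ (x + 1) f + 1 ∧ R.P τ (x + 1) f ≤ R.P τ x f + 1 := by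
  by_cases hJ : x = R.J τ
  · rw [hJ, rowJ hR hτ f]
    constructor <;> omega
  · rcases row4 hR hτ hx hJ f with h | h | h <;> omega

/-- the hypotheses of Claim T, and the negation of the conclusion -/
structure Ctx (R : RunData) (m s t : ℕ) (h : ℤ) : Prop where
  run : R.IsRun
  st : s < t
  tN : t < R.N
  Js : R.J s = m
  Jt : R.J t = m
  ne : ∀ r, s < r → r < t → R.J r ≠ m
  ups : R.up s = true
  upt : R.up t = false
  jmp : ∀ r, s < r → r < t → R.IsJump r → R.J r < m
  hh : h = R.v s m + 1

namespace Ctx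

variable {m s t : ℕ} {h : ℤ}

theorem sN (c : Ctx R m s t h) : s < R.N := c.st.trans c.tN

theorem mn (c : Ctx R m s t h) : m < R.n := by
  rw [← c.Js]
  exact c.run.hJ s c.sN

theorem q0 (c : Ctx R m s t h) : R.P s m R.q = h := by
  have h1 := c.run.hmark s c.sN
  rw [c.ups, if_pos rfl, c.Js] at h1
  rw [h1, c.hh]

theorem q1 (c : Ctx R m s t h) : R.P s (m + 1) R.q = h := by
  have h1 := rowJ c.run c.sN R.q
  rw [c.Js, c.q0] at h1
  exact h1.symm

theorem vr (c : Ctx R m s t h) {r : ℕ} (h1 : s < r) (h2 : r ≤ t) : R.v r m = h := by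
  induction r, h1 using Nat.le_induction with
  | base =>
    rw [c.run.hv s c.sN, if_pos c.Js.symm, c.hh]
  | succ r hr ih =>
    have h3 : s < r := hr
    have h4 : r < t := h2
    rw [c.run.hv r (h4.trans c.tN), if_neg (c.ne r h3 h4).symm]
    exact ih h4.le

/-- letter `m` between the times `s` and `t` -/
theorem lm (c : Ctx R m s t h) {r : ℕ} (h1 : s < r) (h2 : r < t) (f : ℤ) :
    (R.P r (m + 1) f = h ∧ R.P r m f = h + 1) ∨ (R.P r (m + 1) f = h + 1 ∧ R.P r m f = h) ∨
      (R.P r (m + 1) f ≠ h ∧ R.P r (m + 1) f ≠ h + 1 ∧ R.P r m f = R.P r (m + 1) f) := by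
  have h3 := row4 c.run (h2.trans c.tN) c.mn (c.ne r h1 h2).symm f
  rw [c.vr h1 h2.le] at h3
  exact h3

theorem pt (c : Ctx R m s t h) : R.P t (m + 1) R.p = h + 1 := by
  have h1 := c.run.hmark t c.tN
  rw [c.upt, if_neg (by simp), c.Jt, c.vr c.st (le_refl _)] at h1
  have h2 := rowJ c.run c.tN R.p
  rw [c.Jt, h1] at h2
  exact h2.symm

theorem lct (c : Ctx R m s t h) : R.lc t = -(2 * (m : ℤ) + 2) := by
  rcases lc_cases R t with h1 | h1
  · rw [c.upt] at h1
    exact absurd h1.1 (by simp)
  · rw [h1.2, c.Jt]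

theorem lcs (c : Ctx R m s t h) : R.lc s = 2 * (m : ℤ) + 2 := by
  rcases lc_cases R s with h1 | h1
  · rw [h1.2, c.Js]
  · rw [c.ups] at h1
    exact absurd h1.1 (by simp)

theorem monoq (c : Ctx R m s t h) {r : ℕ} (h1 : s < r) (h2 : r ≤ t) {x : ℕ} (hx : x ≤ R.n) :
    R.P s x R.q ≤ R.P r x R.q :=
  (mono c.run h1.le (lt_of_le_of_lt h2 c.tN) hx).2

end Ctx

/-- condition (B) -/
def CB (R : RunData) (m s r : ℕ) : Prop :=
  ∀ x, m + 1 ≤ x → x ≤ R.n → -(2 * (x : ℤ) + 1) < R.lc r → R.P r x R.p < R.P s x R.q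

/-- condition (A) -/
def CA (R : RunData) (m s r : ℕ) (k : ℤ) : Prop :=
  ∀ x, m + 1 ≤ x → x ≤ R.n → R.P r x R.p < R.P s x R.q → ∀ D, R.P r x D = R.P s x R.q →
    k ≤ R.P r (m + 1) D

/-- condition (E) -/
def CE (R : RunData) (m s r : ℕ) : Prop :=
  ∀ x, m + 1 ≤ x → x ≤ R.n → R.P r x R.q = R.P s x R.q → R.lc r < 2 * (x : ℤ) + 1

/-- condition (C), second alternative -/
structure CC (R : RunData) (m s r : ℕ) (h al : ℤ) : Prop where
  np : al ≠ R.p
  nq : al ≠ R.q
  at0 : R.P r m al = h
  ab : ∀ x, m + 1 ≤ x → x ≤ R.n → R.P s x R.q < R.P r x al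
  z : R.P r 0 al < R.P r 0 R.p

/-- phase 1 -/
structure I1 (R : RunData) (m s r : ℕ) (h : ℤ) : Prop where
  a : R.P r (m + 1) R.p < h
  A : CA R m s r h
  B : CB R m s r
  E : CE R m s r
  C : (R.P r m R.q = h ∧ 2 * (m : ℤ) + 1 < R.lc r) ∨ ∃ al, CC R m s r h al

/-- phase 2 -/
structure I2 (R : RunData) (m s r : ℕ) (h : ℤ) : Prop where
  a : R.P r (m + 1) R.p = h
  lo : R.lc r < -(2 * (m : ℤ) + 3)
  A : CA R m s r (h + 1)
  B : CB R m s r
  C : ∃ al, CC R m s r h al

section steps

variable {m s t : ℕ} {h : ℤ}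

/-- key fact: the label `al` is never exchanged with `p` at a place `≥ m` -/
theorem key (c : Ctx R m s t h) {r : ℕ} (h1 : s < r) (h2 : r < t) {al b : ℤ}
    (hC : CC R m s r h al) (hB : CB R m s r) (hm : R.IsMove r al b) {x : ℕ} (hx : m ≤ x)
    (hcov : R.covL r x) : False := by
  have hrN : r < R.N := h2.trans c.tN
  have hz := hC.z
  rw [covL_iff] at hcov
  rcases lc_cases R r with ⟨u1, l1⟩ | ⟨u1, l1⟩ <;>
    rcases lc_cases R (r + 1) with ⟨u2, l2⟩ | ⟨u2, l2⟩
  · omega
  · have := (hm.t2 (by rw [u1, u2]; simp)).1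
    omega
  · have := (hm.t2 (by rw [u1, u2]; simp)).1
    omega
  · by_cases hd : R.lc (r + 1) < R.lc r
    · have := hm.t5 hd u2 0 (Nat.zero_le _)
      omega
    · have hJ : m + 1 ≤ R.J r := by
        have hne := c.ne r h1 h2
        omega
      have h3 := hm.t3 u1
      rw [rowJ c.run hrN, rowJ c.run hrN] at h3
      have hJn : R.J r + 1 ≤ R.n := c.run.hJ r hrN
      have h4 := hB (R.J r + 1) (by omega) hJn (by rw [l1]; push_cast; omega)
      have h5 := hC.ab (R.J r + 1) (by omega) hJn
      omega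

/-- maintenance of (E) -/
theorem stepE (c : Ctx R m s t h) {r : ℕ} (h1 : s < r) (h2 : r < t) (hE : CE R m s r) :
    CE R m s (r + 1) := by
  intro x hx hxn hq
  have hrN : r + 1 < R.N := lt_of_le_of_lt h2 c.tN
  have m1 := c.monoq h1 h2.le hxn
  have m2 := (mono1 c.run hrN hxn).2
  have hE' := hE x hx hxn (by omega)
  rcases c.run.hmove r hrN with hj | ⟨a, b, hm⟩
  · have hJ := c.jmp r h1 h2 hj
    have hJ1 := hj.J1
    rcases lc_cases R (r + 1) with ⟨u2, l2⟩ | ⟨u2, l2⟩
    · rw [l2, hJ1]
      omega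
    · rw [hj.up1] at u2
      exact absurd u2 (by simp)
  · by_cases hU : R.covU r x
    · have h3 := hm.cU x hxn hU
      have h4 := mq1 hm hxn hU
      omega
    · rw [covU_iff] at hU
      rcases lc_cases R r with ⟨u1, l1⟩ | ⟨u1, l1⟩ <;>
        rcases lc_cases R (r + 1) with ⟨u2, l2⟩ | ⟨u2, l2⟩ <;> omega

/-- maintenance of (C), second alternative -/
theorem stepC (c : Ctx R m s t h) {r : ℕ} (h1 : s < r) (h2 : r < t) (hE : CE R m s r)
    (hB : CB R m s r) {al : ℤ} (hC : CC R m s r h al) : CC R m s (r + 1) h al := by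
  have hrN : r + 1 < R.N := lt_of_le_of_lt h2 c.tN
  have hrN' : r < R.N := by omega
  have hmn := c.mn
  rcases c.run.hmove r hrN with hj | ⟨a, b, hm⟩
  · refine ⟨hC.np, hC.nq, ?_, ?_, ?_⟩
    · rw [hj.P1 m hmn.le]
      exact hC.at0
    · intro x hx hxn
      rw [hj.P1 x hxn]
      exact hC.ab x hx hxn
    · rw [hj.P1 0 (Nat.zero_le _)]
      exact hC.z
  · have hpq0 := c.run.hpq r hrN' 0 (Nat.zero_le _)
    by_cases hala : al = a
    · subst hala
      refine ⟨hC.np, hC.nq, ?_, ?_, ?_⟩
      · rw [ma0 hm hmn.le (fun hc => key c h1 h2 hC hB hm (le_refl _) hc)]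
        exact hC.at0
      · intro x hx hxn
        rw [ma0 hm hxn (fun hc => key c h1 h2 hC hB hm (by omega) hc)]
        exact hC.ab x hx hxn
      · by_cases hc : R.covL r 0
        · have h3 := hm.cL 0 (Nat.zero_le _) hc
          have h4 := hC.z
          omega
        · rw [ma0 hm (Nat.zero_le _) hc, mp0 c.run hm (Nat.zero_le _) hc]
          exact hC.z
    · by_cases halb : al = b
      · subst halb
        refine ⟨hC.np, hC.nq, ?_, ?_, ?_⟩
        · by_cases hc : R.covU r m
          · have h3 := hm.cU m hmn.le hc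
            have h4 := hC.at0
            have h5 := c.monoq h1 h2.le hmn.le
            rw [c.q0] at h5
            omega
          · rw [mb0 hm hmn.le hc]
            exact hC.at0
        · intro x hx hxn
          by_cases hc : R.covU r x
          · rw [mb1 c.run hm hxn hc]
            have hle := c.monoq h1 h2.le hxn
            have hlt : ¬ (R.lc r < R.lc (r + 1)) := by
              intro hinc
              have hup : R.up (r + 1) = true := by
                rw [covU_iff] at hc
                rcases lc_cases R (r + 1) with ⟨u2, l2⟩ | ⟨u2, l2⟩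
                · exact u2
                · omega
              have h3 := hm.t4 hinc hup 0 (Nat.zero_le _)
              have h4 := hC.z
              omega
            have hne : R.P r x R.q ≠ R.P s x R.q := by
              intro he
              have h3 := hE x hx hxn he
              rw [covU_iff] at hc
              omega
            omega
          · rw [mb0 hm hxn hc]
            exact hC.ab x hx hxn
        · have h4 := hC.z
          by_cases hc : R.covU r 0
          · have h3 := hm.cU 0 (Nat.zero_le _) hc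
            omega
          · rw [mb0 hm (Nat.zero_le _) hc]
            have h5 := (mono1 c.run hrN (Nat.zero_le R.n)).1
            omega
      · refine ⟨hC.np, hC.nq, ?_, ?_, ?_⟩
        · rw [mo hm hmn.le hC.np hC.nq hala halb]
          exact hC.at0
        · intro x hx hxn
          rw [mo hm hxn hC.np hC.nq hala halb]
          exact hC.ab x hx hxn
        · rw [mo hm (Nat.zero_le _) hC.np hC.nq hala halb]
          have h4 := hC.z
          have h5 := (mono1 c.run hrN (Nat.zero_le R.n)).1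
          omega

/-- the induction for (B) on covered points -/
theorem covB (c : Ctx R m s t h) {r : ℕ} (h1 : s < r) (h2 : r < t) {k : ℤ} (hk : h ≤ k)
    (hA : CA R m s r k) (hB : CB R m s r) {a b : ℤ} (hm : R.IsMove r a b)
    (ha : R.P r (m + 1) a < h) {x : ℕ} (hx : m + 1 ≤ x) (hxn : x ≤ R.n)
    (hcov : R.covL r x) (hlc : -(2 * (x : ℤ) + 1) < R.lc (r + 1)) :
    R.P (r + 1) x R.p < R.P s x R.q := by
  have hrN : r < R.N := h2.trans c.tN
  have hcov' := hcov
  rw [covL_iff] at hcov'
  have hdir : R.lc r < -(2 * (x : ℤ) + 1) := by omega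
  obtain ⟨u1, l1⟩ : R.up r = false ∧ R.lc r = -(2 * (R.J r : ℤ) + 2) := by
    rcases lc_cases R r with h3 | h3
    · omega
    · exact h3
  have hT : x ≤ R.J r := by omega
  have hJn : R.J r + 1 ≤ R.n := c.run.hJ r hrN
  -- covered places
  have hcy : ∀ y, x ≤ y → y ≤ R.J r → R.covL r y := by
    intro y hy1 hy2
    rw [covL_iff]
    left
    constructor <;> omega
  have main : ∀ j, j ≤ R.J r + 1 - x →
      R.P r (R.J r + 1 - j) R.p < R.P s (R.J r + 1 - j) R.q ∧
      R.P r (R.J r + 1 - j) a < R.P s (R.J r + 1 - j) R.q := by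
    intro j
    induction j with
    | zero =>
      intro _
      rw [Nat.sub_zero]
      have h3 := hm.t3 u1
      rw [rowJ c.run hrN, rowJ c.run hrN] at h3
      have h4 := hB (R.J r + 1) (by omega) hJn (by rw [l1]; push_cast; omega)
      refine ⟨h4, ?_⟩
      by_contra hc
      have h5 : R.P r (R.J r + 1) a = R.P s (R.J r + 1) R.q := by omega
      have h6 := hA (R.J r + 1) (by omega) hJn h4 a h5
      omega
    | succ j ih =>
      intro hj
      obtain ⟨ihp, iha⟩ := ih (by omega)
      obtain ⟨y, hy⟩ : ∃ y, y = R.J r + 1 - (j + 1) := ⟨_, rfl⟩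
      have hy1 : R.J r + 1 - j = y + 1 := by omega
      rw [hy1] at ihp iha
      rw [← hy]
      have hxy : x ≤ y := by omega
      have hyT : y ≤ R.J r := by omega
      have hcL := hm.cL y (by omega) (hcy y hxy hyT)
      have hlt : R.P r y a < R.P s y R.q := by
        by_contra hc
        push Not at hc
        have hne : R.P r y a ≠ R.P s y R.q := by
          intro he
          have h6 := hA y (by omega) (by omega) (by omega) a he
          omega
        have b1 := (rowB c.run hrN (x := y) (by omega) a).1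
        have b2 := (rowB c.run c.sN (x := y) (by omega) R.q).2
        have e1 : R.P r y a = R.P s y R.q + 1 := by omega
        have e2 : R.P s (y + 1) R.q = R.P s y R.q + 1 := by omega
        have e3 : R.P r (y + 1) a = R.P s y R.q := by omega
        have hyJ : y ≠ R.J r := by
          intro he
          have h7 := rowJ c.run hrN a
          rw [← he] at h7
          omega
        have hv : R.v r y = R.P s y R.q := by
          rcases row4 c.run hrN (x := y) (by omega) hyJ a with h7 | h7 | h7 <;> omega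
        obtain ⟨D, hD⟩ : ∃ D, R.P r (y + 1) D = R.P s (y + 1) R.q :=
          ⟨(R.P r (y + 1)).symm (R.P s (y + 1) R.q), Equiv.apply_symm_apply _ _⟩
        have h8 := hA (y + 1) (by omega) (by omega) ihp D hD
        have h9 : R.P r y D = R.P s y R.q := by
          rcases row4 c.run hrN (x := y) (by omega) hyJ D with h7 | h7 | h7 <;> omega
        have h10 := c.run.hcross r hrN a D (m + 1) y (y + 1) (by omega) (by omega) (by omega)
          (by omega) (by omega)
        omega
      exact ⟨by omega, hlt⟩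
  have hfin := (main (R.J r + 1 - x) (le_refl _)).2
  have hxx : R.J r + 1 - (R.J r + 1 - x) = x := by omega
  rw [hxx] at hfin
  rw [mp1 c.run hm hxn hcov]
  exact hfin

/-- maintenance of (B) -/
theorem stepB (c : Ctx R m s t h) {r : ℕ} (h1 : s < r) (h2 : r < t) {k : ℤ} (hk : h ≤ k)
    (hA : CA R m s r k) (hB : CB R m s r) (ha : R.P r (m + 1) R.p ≤ h)
    (ha' : R.covL r (m + 1) → R.P (r + 1) (m + 1) R.p < h ∨ R.lc (r + 1) < R.lc r) :
    CB R m s (r + 1) := by
  have hrN : r + 1 < R.N := lt_of_le_of_lt h2 c.tN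
  have hmn := c.mn
  intro x hx hxn hlc
  rcases c.run.hmove r hrN with hj | ⟨a, b, hm⟩
  · have hJ := c.jmp r h1 h2 hj
    rw [hj.P1 x hxn]
    apply hB x hx hxn
    rcases lc_cases R r with ⟨u1, l1⟩ | ⟨u1, l1⟩
    · rw [hj.up0] at u1
      exact absurd u1 (by simp)
    · rw [l1]
      omega
  · by_cases hc : R.covL r x
    · apply covB c h1 h2 hk hA hB hm ?_ hx hxn hc hlc
      by_cases hc1 : R.covL r (m + 1)
      · rcases ha' hc1 with h3 | h3
        · rw [mp1 c.run hm hmn hc1] at h3
          exact h3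
        · exfalso
          rw [covL_iff] at hc
          omega
      · rw [covL_iff] at hc hc1
        push_cast at hc1
        obtain ⟨u2, l2⟩ : R.up (r + 1) = false ∧ R.lc (r + 1) = -(2 * (R.J (r + 1) : ℤ) + 2) := by
          rcases lc_cases R (r + 1) with h3 | h3
          · omega
          · exact h3
        have h3 := hm.t3' (by omega) u2 (m + 1) (by omega)
        omega
    · rw [mp0 c.run hm hxn hc]
      apply hB x hx hxn
      rw [covL_iff] at hc
      rcases lc_cases R r with ⟨u1, l1⟩ | ⟨u1, l1⟩ <;>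
        rcases lc_cases R (r + 1) with ⟨u2, l2⟩ | ⟨u2, l2⟩ <;> omega

/-- maintenance of (A), exact form for one move -/
theorem stepA (c : Ctx R m s t h) {r : ℕ} (h1 : s < r) (h2 : r < t) (hA : CA R m s r h)
    (hE : CE R m s r)
    (ha : ∀ a b x, m + 1 ≤ x → x ≤ R.n → R.IsMove r a b → R.P r x R.p < R.P s x R.q →
      ¬ R.covL r x → R.P r x a = R.P s x R.q → ¬ R.covL r (m + 1))
    : CA R m s (r + 1) h := by
  have hrN : r + 1 < R.N := lt_of_le_of_lt h2 c.tN
  have hrN' : r < R.N := by omega
  have hmn : m + 1 ≤ R.n := c.mn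
  intro x hx hxn hp D hD
  have hpr := (mono1 c.run hrN hxn).1
  have hp' : R.P r x R.p < R.P s x R.q := by omega
  have hqm : h ≤ R.P r (m + 1) R.q := by
    rw [← c.q1]
    exact c.monoq h1 h2.le hmn
  have hqm' : h ≤ R.P (r + 1) (m + 1) R.q := by
    rw [← c.q1]
    exact c.monoq (by omega) h2 hmn
  rcases c.run.hmove r hrN with hj | ⟨a, b, hm⟩
  · rw [hj.P1 x hxn] at hD
    rw [hj.P1 (m + 1) hmn]
    exact hA x hx hxn hp' D hD
  · by_cases hDq : D = R.q
    · rw [hDq]
      exact hqm'
    by_cases hDp : D = R.p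
    · rw [hDp] at hD
      omega
    by_cases hDb : D = b
    · subst hDb
      have hb : h ≤ R.P r (m + 1) D := by
        by_cases hU : R.covU r x
        · rw [mb1 c.run hm hxn hU] at hD
          have h3 := hE x hx hxn hD
          rw [covU_iff] at hU
          obtain ⟨u2, l2⟩ : R.up (r + 1) = true ∧ R.lc (r + 1) = 2 * (R.J (r + 1) : ℤ) + 2 := by
            rcases lc_cases R (r + 1) with h4 | h4
            · exact h4
            · omega
          have h5 := hm.t4 (by omega) u2 (m + 1) (by omega)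
          omega
        · rw [mb0 hm hxn hU] at hD
          exact hA x hx hxn hp' D hD
      by_cases hU : R.covU r (m + 1)
      · rw [mb1 c.run hm hmn hU]
        exact hqm
      · rw [mb0 hm hmn hU]
        exact hb
    by_cases hDa : D = a
    · subst hDa
      by_cases hL : R.covL r x
      · rw [ma1 hm hxn hL] at hD
        omega
      · rw [ma0 hm hxn hL] at hD
        have h3 := hA x hx hxn hp' D hD
        rw [ma0 hm hmn (ha D b x hx hxn hm hp' hL hD)]
        exact h3
    · rw [mo hm hxn hDp hDq hDa hDb] at hD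
      rw [mo hm hmn hDp hDq hDa hDb]
      exact hA x hx hxn hp' D hD

/-- maintenance of (C) -/
theorem stepCC (c : Ctx R m s t h) {r : ℕ} (h1 : s < r) (h2 : r < t) (I : I1 R m s r h) :
    (R.P (r + 1) m R.q = h ∧ 2 * (m : ℤ) + 1 < R.lc (r + 1)) ∨
      ∃ al, CC R m s (r + 1) h al := by
  have hrN : r + 1 < R.N := lt_of_le_of_lt h2 c.tN
  have hrN' : r < R.N := by omega
  have hmn : m + 1 ≤ R.n := c.mn
  rcases I.C with ⟨hq, hlc⟩ | ⟨al, hC⟩
  · rcases c.run.hmove r hrN with hj | ⟨a, b, hm⟩
    · rcases lc_cases R r with ⟨u1, l1⟩ | ⟨u1, l1⟩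
      · rw [hj.up0] at u1
        exact absurd u1 (by simp)
      · omega
    · obtain ⟨u1, l1⟩ : R.up r = true ∧ R.lc r = 2 * (R.J r : ℤ) + 2 := by
        rcases lc_cases R r with h4 | h4
        · exact h4
        · omega
      by_cases hU : R.covU r m
      · right
        have hU' := hU
        rw [covU_iff] at hU'
        have hdec : R.lc (r + 1) < R.lc r := by omega
        refine ⟨b, hm.bp, hm.bq, ?_, ?_, hm.t1 hdec u1⟩
        · rw [mb1 c.run hm (by omega) hU]
          exact hq
        · intro x hx hxn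
          have hle := c.monoq h1 h2.le hxn
          by_cases hUx : R.covU r x
          · rw [mb1 c.run hm hxn hUx]
            have hne : R.P r x R.q ≠ R.P s x R.q := by
              intro he
              have h3 := I.E x hx hxn he
              rw [covU_iff] at hUx
              omega
            omega
          · rw [mb0 hm hxn hUx]
            rw [covU_iff] at hUx
            have h3 := hm.t1' hdec u1 x (by omega) hxn
            omega
      · left
        rw [mq0 c.run hm (by omega) hU]
        refine ⟨hq, ?_⟩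
        rw [covU_iff] at hU
        rcases lc_cases R (r + 1) with ⟨u2, l2⟩ | ⟨u2, l2⟩ <;> omega
  · right
    exact ⟨al, stepC c h1 h2 I.E I.B hC⟩

/-- the label `p` does not get the position `h + 1` at the place `m + 1` -/
theorem neX (c : Ctx R m s t h) {r : ℕ} (h1 : s < r) (h2 : r < t)
    (ha : R.P r (m + 1) R.p ≤ h) (hB : CB R m s r)
    (hC : (R.P r m R.q = h ∧ 2 * (m : ℤ) + 1 < R.lc r) ∨ ∃ al, CC R m s r h al) :
    R.P (r + 1) (m + 1) R.p ≠ h + 1 := by
  intro he
  have hrN : r + 1 < R.N := lt_of_le_of_lt h2 c.tN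
  have hmn : m + 1 ≤ R.n := c.mn
  rcases c.run.hmove r hrN with hj | ⟨a, b, hm⟩
  · rw [hj.P1 (m + 1) hmn] at he
    omega
  · by_cases hc : R.covL r (m + 1)
    · rw [mp1 c.run hm hmn hc] at he
      have h3 : R.P r m a = h := by
        rcases c.lm h1 h2 a with h4 | h4 | h4 <;> omega
      rcases hC with ⟨hq, _⟩ | ⟨al, hC⟩
      · exact hm.aq ((R.P r m).injective (h3.trans hq.symm))
      · have h4 : al = a := (R.P r m).injective (hC.at0.trans h3.symm)
        subst h4
        exact key c h1 h2 hC hB hm (by omega) hc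
    · rw [mp0 c.run hm hmn hc] at he
      omega

/-- the start -/
theorem start (c : Ctx R m s t h) (h2 : s + 1 < t) : I1 R m s (s + 1) h := by
  have hsN : s + 1 < R.N := h2.trans c.tN
  have hmn : m + 1 ≤ R.n := c.mn
  have hls := c.lcs
  have hJne : R.J (s + 1) ≠ m := c.ne (s + 1) (by omega) h2
  rcases c.run.hmove s hsN with hj | ⟨a, b, hm⟩
  · have := hj.up0
    rw [c.ups] at this
    exact absurd this (by simp)
  · have hpq' := c.run.hpq (s + 1) hsN
    have hpqs := c.run.hpq s c.sN
    rcases lc_cases R (s + 1) with ⟨u2, l2⟩ | ⟨u2, l2⟩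
    · -- both markers on the upper strand
      have hL : ∀ x, ¬ R.covL s x := by
        intro x hc
        rw [covL_iff] at hc
        omega
      by_cases hinc : R.lc s < R.lc (s + 1)
      · refine ⟨?_, ?_, ?_, ?_, ?_⟩
        · rw [mp0 c.run hm hmn (hL _)]
          have h3 := hpqs (m + 1) hmn
          rw [c.q1] at h3
          exact h3
        · intro x hx hxn hp D hD
          by_cases hU : R.covU s x
          · have hDb : D = b := by
              apply (R.P (s + 1) x).injective
              rw [hD, mb1 c.run hm hxn hU]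
            rw [hDb]
            have hU1 : R.covU s (m + 1) := by
              rw [covU_iff] at hU ⊢
              left
              constructor <;> omega
            rw [mb1 c.run hm hmn hU1, c.q1]
          · have hDq : D = R.q := by
              apply (R.P (s + 1) x).injective
              rw [hD, mq0 c.run hm hxn hU]
            rw [hDq, ← c.q1]
            exact (mono1 c.run hsN hmn).2
        · intro x hx hxn _
          rw [mp0 c.run hm hxn (hL _)]
          exact hpqs x hxn
        · intro x hx hxn hq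
          by_cases hU : R.covU s x
          · have h3 := hm.cU x hxn hU
            rw [mq1 hm hxn hU] at hq
            omega
          · rw [covU_iff] at hU
            omega
        · left
          have hU : ¬ R.covU s m := by
            rw [covU_iff]
            omega
          rw [mq0 c.run hm (by omega) hU]
          exact ⟨c.q0, by omega⟩
      · have hdec : R.lc (s + 1) < R.lc s := by
          have : R.lc (s + 1) ≠ R.lc s := by
            intro he
            rw [l2, hls] at he
            omega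
          omega
        have hU : ∀ x, m + 1 ≤ x → ¬ R.covU s x := by
          intro x hx
          rw [covU_iff]
          omega
        have hUm : R.covU s m := by
          rw [covU_iff]
          right
          constructor <;> omega
        have hqq : ∀ x, m + 1 ≤ x → x ≤ R.n → R.P (s + 1) x R.q = R.P s x R.q :=
          fun x hx hxn => mq0 c.run hm hxn (hU x hx)
        refine ⟨?_, ?_, ?_, ?_, ?_⟩
        · have h3 := hpq' (m + 1) hmn
          rw [hqq (m + 1) (le_refl _) hmn, c.q1] at h3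
          exact h3
        · intro x hx hxn hp D hD
          have hDq : D = R.q := by
            apply (R.P (s + 1) x).injective
            rw [hD, hqq x hx hxn]
          rw [hDq, hqq (m + 1) (le_refl _) hmn, c.q1]
        · intro x hx hxn _
          rw [← hqq x hx hxn]
          exact hpq' x hxn
        · intro x hx hxn _
          omega
        · right
          refine ⟨b, hm.bp, hm.bq, ?_, ?_, hm.t1 hdec c.ups⟩
          · rw [mb1 c.run hm (by omega) hUm, c.q0]
          · intro x hx hxn
            rw [mb0 hm hxn (hU x hx)]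
            exact hm.t1' hdec c.ups x (by rw [c.Js]; omega) hxn
    · have hdec : R.lc (s + 1) < R.lc s := by omega
      have hU : ∀ x, m + 1 ≤ x → ¬ R.covU s x := by
        intro x hx
        rw [covU_iff]
        omega
      have hUm : R.covU s m := by
        rw [covU_iff]
        right
        constructor <;> omega
      have hqq : ∀ x, m + 1 ≤ x → x ≤ R.n → R.P (s + 1) x R.q = R.P s x R.q :=
        fun x hx hxn => mq0 c.run hm hxn (hU x hx)
      refine ⟨?_, ?_, ?_, ?_, ?_⟩
      · have h3 := hpq' (m + 1) hmn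
        rw [hqq (m + 1) (le_refl _) hmn, c.q1] at h3
        exact h3
      · intro x hx hxn hp D hD
        have hDq : D = R.q := by
          apply (R.P (s + 1) x).injective
          rw [hD, hqq x hx hxn]
        rw [hDq, hqq (m + 1) (le_refl _) hmn, c.q1]
      · intro x hx hxn _
        rw [← hqq x hx hxn]
        exact hpq' x hxn
      · intro x hx hxn _
        omega
      · right
        refine ⟨b, hm.bp, hm.bq, ?_, ?_, hm.t1 hdec c.ups⟩
        · rw [mb1 c.run hm (by omega) hUm, c.q0]
        · intro x hx hxn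
          rw [mb0 hm hxn (hU x hx)]
          exact hm.t1' hdec c.ups x (by rw [c.Js]; omega) hxn

/-- the dead states -/
def Dd (R : RunData) (m r : ℕ) (h : ℤ) : Prop :=
  h + 2 ≤ R.P r (m + 1) R.p ∨ (R.P r (m + 1) R.p = h ∧ -(2 * (m : ℤ) + 3) < R.lc r)

theorem step1 (c : Ctx R m s t h) {r : ℕ} (h1 : s < r) (h2 : r + 1 < t) (I : I1 R m s r h) :
    I1 R m s (r + 1) h ∨ I2 R m s (r + 1) h ∨ Dd R m (r + 1) h := by
  have h2' : r < t := by omega
  have hrN : r + 1 < R.N := h2.trans c.tN
  have hmn : m + 1 ≤ R.n := c.mn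
  have hne := neX c h1 h2' I.a.le I.B I.C
  have hIa := I.a
  by_cases hlt : R.P (r + 1) (m + 1) R.p < h
  · left
    refine ⟨hlt, ?_, ?_, stepE c h1 h2' I.E, stepCC c h1 h2' I⟩
    · apply stepA c h1 h2' I.A I.E
      intro a b x hx hxn hm hp hL hD hc
      rw [mp1 c.run hm hmn hc] at hlt
      have h3 := I.A x hx hxn hp a hD
      omega
    · exact stepB c h1 h2' (le_refl _) I.A I.B I.a.le (fun _ => Or.inl hlt)
  · by_cases heq : R.P (r + 1) (m + 1) R.p = h
    · by_cases hlo : R.lc (r + 1) < -(2 * (m : ℤ) + 3)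
      · right
        left
        -- the move covers the place `m + 1`
        have hcov : R.covL r (m + 1) := by
          by_contra hc
          rcases c.run.hmove r hrN with hj | ⟨a, b, hm⟩
          · rw [hj.P1 (m + 1) hmn] at heq
            omega
          · rw [mp0 c.run hm hmn hc] at heq
            omega
        have hcov' := hcov
        rw [covL_iff] at hcov'
        push_cast at hcov'
        have hdec : R.lc (r + 1) < R.lc r := by omega
        obtain ⟨u2, l2⟩ : R.up (r + 1) = false ∧ R.lc (r + 1) = -(2 * (R.J (r + 1) : ℤ) + 2) := by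
          rcases lc_cases R (r + 1) with h4 | h4
          · omega
          · exact h4
        have hA : CA R m s (r + 1) h := by
          apply stepA c h1 h2' I.A I.E
          intro a b x hx hxn hm hp hL hD
          exfalso
          rw [covL_iff] at hL
          have h3 := hm.t5' hdec u2 x (by omega) hxn
          omega
        refine ⟨heq, hlo, ?_, ?_, ?_⟩
        · intro x hx hxn hp D hD
          have h3 := hA x hx hxn hp D hD
          have h4 : R.P (r + 1) (m + 1) D ≠ h := by
            intro he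
            have h5 : D = R.p := (R.P (r + 1) (m + 1)).injective (he.trans heq.symm)
            rw [h5] at hD
            omega
          omega
        · exact stepB c h1 h2' (le_refl _) I.A I.B I.a.le (fun _ => Or.inr hdec)
        · rcases stepCC c h1 h2' I with ⟨_, h3⟩ | h3
          · omega
          · exact h3
      · right
        right
        right
        refine ⟨heq, ?_⟩
        rcases lc_cases R (r + 1) with ⟨u2, l2⟩ | ⟨u2, l2⟩ <;> omega
    · right
      right
      left
      omega

theorem step2 (c : Ctx R m s t h) {r : ℕ} (h1 : s < r) (h2 : r + 1 < t) (I : I2 R m s r h) :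
    I2 R m s (r + 1) h ∨ Dd R m (r + 1) h := by
  have h2' : r < t := by omega
  have hrN : r + 1 < R.N := h2.trans c.tN
  have hmn : m + 1 ≤ R.n := c.mn
  obtain ⟨al, hC⟩ := I.C
  have hne := neX c h1 h2' I.a.le I.B (Or.inr ⟨al, hC⟩)
  have hIa := I.a
  have hlo := I.lo
  rcases c.run.hmove r hrN with hj | ⟨a, b, hm⟩
  · exfalso
    have hJ := c.jmp r h1 h2' hj
    rcases lc_cases R r with ⟨u1, l1⟩ | ⟨u1, l1⟩ <;> omega
  · by_cases hc : R.covL r (m + 1)
    · right
      left
      have h3 := hm.cL (m + 1) hmn hc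
      rw [mp1 c.run hm hmn hc] at hne ⊢
      omega
    · left
      have hc' := hc
      rw [covL_iff] at hc'
      push_cast at hc'
      have hlo' : R.lc (r + 1) < -(2 * (m : ℤ) + 3) := by
        rcases lc_cases R (r + 1) with ⟨u2, l2⟩ | ⟨u2, l2⟩ <;> omega
      have hU : ∀ x, ¬ R.covU r x := by
        intro x hcU
        rw [covU_iff] at hcU
        omega
      have hE : CE R m s r := by
        intro x hx hxn _
        omega
      refine ⟨?_, hlo', ?_, ?_, ⟨al, stepC c h1 h2' hE I.B hC⟩⟩
      · rw [mp0 c.run hm hmn hc]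
        exact I.a
      · intro x hx hxn hp D hD
        have hpr := (mono1 c.run hrN hxn).1
        have hp' : R.P r x R.p < R.P s x R.q := by omega
        have hsame : R.P (r + 1) (m + 1) D = R.P r (m + 1) D := e00 hm hmn hc (hU _) D
        rw [hsame]
        by_cases hL : R.covL r x
        · by_cases hDp : D = R.p
          · rw [hDp] at hD
            omega
          · by_cases hDa : D = a
            · rw [hDa, ma1 hm hxn hL] at hD
              omega
            · rw [e10 hm hxn hL (hU _), Equiv.swap_apply_of_ne_of_ne hDp hDa] at hD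
              exact I.A x hx hxn hp' D hD
        · rw [e00 hm hxn hL (hU _)] at hD
          exact I.A x hx hxn hp' D hD
      · exact stepB c h1 h2' (by omega) I.A I.B I.a.le (fun hcc => absurd hcc hc)

theorem stepD (c : Ctx R m s t h) {r : ℕ} (h1 : s < r) (h2 : r + 1 < t) (I : Dd R m r h) :
    Dd R m (r + 1) h := by
  have h2' : r < t := by omega
  have hrN : r + 1 < R.N := h2.trans c.tN
  have hmn : m + 1 ≤ R.n := c.mn
  have hmono := (mono1 c.run hrN hmn).1
  rcases I with h3 | ⟨h3, h4⟩
  · left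
    omega
  · rcases c.run.hmove r hrN with hj | ⟨a, b, hm⟩
    · right
      rw [hj.P1 (m + 1) hmn]
      refine ⟨h3, ?_⟩
      rcases lc_cases R (r + 1) with ⟨u2, l2⟩ | ⟨u2, l2⟩
      · omega
      · rw [hj.up1] at u2
        exact absurd u2 (by simp)
    · by_cases hc : R.covL r (m + 1)
      · left
        have h5 := hm.cL (m + 1) hmn hc
        have h6 := mp1 c.run hm hmn hc
        have h7 : R.P (r + 1) (m + 1) R.p ≠ h + 1 := by
          intro he
          have h8 : R.P (r + 1) m R.p = h := by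
            rcases c.lm (r := r + 1) (by omega) h2 R.p with h9 | h9 | h9 <;> omega
          have h10 : R.P r m R.p = h + 1 := by
            rcases c.lm h1 h2' R.p with h9 | h9 | h9 <;> omega
          have h11 := (mono1 c.run hrN (show m ≤ R.n by omega)).1
          omega
        omega
      · right
        rw [mp0 c.run hm hmn hc]
        refine ⟨h3, ?_⟩
        rw [covL_iff] at hc
        push_cast at hc
        rcases lc_cases R (r + 1) with ⟨u2, l2⟩ | ⟨u2, l2⟩ <;> omega

theorem all (c : Ctx R m s t h) (r : ℕ) (h1 : s + 1 ≤ r) : r < t →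
    I1 R m s r h ∨ I2 R m s r h ∨ Dd R m r h := by
  induction r, h1 using Nat.le_induction with
  | base => intro h2; exact Or.inl (start c h2)
  | succ r hr ih =>
    intro h2
    rcases ih (by omega) with h3 | h3 | h3
    · exact step1 c hr h2 h3
    · exact Or.inr (step2 c hr h2 h3)
    · exact Or.inr (Or.inr (stepD c hr h2 h3))

theorem fin (c : Ctx R m s t h) : False := by
  have hst := c.st
  have htN := c.tN
  have hmn : m + 1 ≤ R.n := c.mn
  have h2 : s + 1 < t := by
    by_contra hc
    have he : t = s + 1 := by omega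
    have hJt := c.Jt
    rcases c.run.hmove s (by omega) with hj | ⟨a, b, hm⟩
    · have := hj.up0
      rw [c.ups] at this
      exact absurd this (by simp)
    · apply hm.J1
      rw [← he, hJt, c.Js]
  obtain ⟨r, hr⟩ : ∃ r, t = r + 1 := ⟨t - 1, by omega⟩
  have hsr : s < r := by omega
  have hrt : r < t := by omega
  have hpt := c.pt
  have hlt := c.lct
  rw [hr] at hpt hlt
  rcases all c r hsr hrt with I | I | I
  · exact neX c hsr hrt I.a.le I.B I.C hpt
  · exact neX c hsr hrt I.a.le I.B (Or.inr I.C) hpt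
  · have hmono := (mono1 c.run (show r + 1 < R.N by omega) hmn).1
    rcases I with h3 | ⟨h3, h4⟩
    · omega
    · rcases c.run.hmove r (by omega) with hj | ⟨a, b, hm⟩
      · rw [hj.P1 (m + 1) hmn] at hpt
        omega
      · by_cases hc : R.covL r (m + 1)
        · rw [covL_iff] at hc
          push_cast at hc
          omega
        · rw [mp0 c.run hm hmn hc] at hpt
          omega

end steps

end CT

theorem claimT : S_claimT := by
  intro R hR m s t hst htN hJs hJt hne hups hupt
  by_contra hcon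
  push Not at hcon
  apply CT.fin (R := R) (m := m) (s := s) (t := t) (h := R.v s m + 1)
  refine ⟨hR, hst, htN, hJs, hJt, hne, hups, hupt, ?_, rfl⟩
  intro r h1 h2 hj
  have h3 := hcon r h1 h2 hj
  have h4 := hne r h1 h2
  omega

end Pool.Agent.H156.Fpf
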