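import Pool.Agent.H156.Fpf.Good

/-! # Arcs cross at most once (subtask FPF-cross of MP_46c28c_co, by helper94) -/

set_option autoImplicit false

namespace Pool.Agent.H156.Fpf

namespace CrossAux

theorem fpfFun_ne (i : ℤ) : fpfFun i ≠ i := by
  unfold fpfFun
  split_ifs <;> omega

/-- an adjacent transposition changes only the order of the two exchanged points -/
theorem swap_order (c a b : ℤ) (_hab : a ≠ b) (h : ¬ ((a = c ∧ b = c + 1) ∨ (b = c ∧ a = c + 1))) :
    Equiv.swap c (c + 1) a < Equiv.swap c (c + 1) b ↔ a < b := by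
  rw [Equiv.swap_apply_def, Equiv.swap_apply_def]
  split_ifs <;> omega

section
variable {π : Equiv.Perm ℤ} {n : ℕ} {v : ℕ → ℤ} {j : ℕ} (H : Good π n v j)
include H

theorem pi_pi (f : ℤ) : π (π f) = f := by
  apply (pos v j n 0).injective
  rw [H.cap (π f), H.cap f]
  exact fpfFun_invol _

theorem pi_ne (f : ℤ) : π f ≠ f := by
  intro h
  have h1 := H.cap f
  rw [h] at h1
  exact fpfFun_ne _ h1.symm

omit H in
theorem next_ne {t : ℕ} (ht : t < n) (hj : t ≠ j) (f : ℤ) :
    pos v j n (t + 1) f = Equiv.swap (v t) (v t + 1) (pos v j n t f) := by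
  rw [pos_step v j n t ht, stepPerm, if_neg hj, Equiv.Perm.mul_apply, Equiv.swap_apply_self]

omit H in
theorem next_eq {t : ℕ} (ht : t < n) (hj : t = j) (f : ℤ) :
    pos v j n (t + 1) f = pos v j n t f := by
  rw [pos_step v j n t ht, stepPerm, if_pos hj, one_mul]

omit H in
theorem order {t : ℕ} (ht : t < n) {f g : ℤ} (hfg : f ≠ g)
    (h : t ≠ j → ¬ ((pos v j n t f = v t ∧ pos v j n t g = v t + 1) ∨
      (pos v j n t g = v t ∧ pos v j n t f = v t + 1))) :
    pos v j n (t + 1) f < pos v j n (t + 1) g ↔ pos v j n t f < pos v j n t g := by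
  by_cases hj : t = j
  · rw [next_eq ht hj, next_eq ht hj]
  · rw [next_ne ht hj, next_ne ht hj]
    exact swap_order _ _ _ (fun e => hfg ((pos v j n t).injective e)) (h hj)

/-- one crossing -/
theorem one {t : ℕ} (ht : t < n) (hj : t ≠ j) {f g : ℤ} (h1 : g ≠ f) (h2 : g ≠ π f)
    (hf : pos v j n t f = v t) (hg : pos v j n t g = v t + 1) :
    pos v j n t f < pos v j n t g ∧ pos v j n t (π f) < pos v j n t (π g) ∧
    pos v j n (t + 1) g < pos v j n (t + 1) f ∧
    pos v j n (t + 1) (π f) < pos v j n (t + 1) (π g) := by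
  have hasc := H.asc t ht hj f g hf hg
  have hpf1 : π f ≠ f := pi_ne H f
  have hpg1 : π g ≠ g := pi_ne H g
  have hpg2 : π g ≠ f := by
    intro h; apply h2; rw [← h, pi_pi H]
  have hneq : π f ≠ π g := fun h => h1 (π.injective h).symm
  refine ⟨by omega, hasc, ?_, ?_⟩
  · rw [next_ne ht hj, next_ne ht hj, hf, hg, Equiv.swap_apply_left, Equiv.swap_apply_right]
    omega
  · rw [order ht hneq]
    · exact hasc
    · rintro - (⟨h3, -⟩ | ⟨h3, -⟩)
      · exact hpf1 ((pos v j n t).injective (h3.trans hf.symm))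
      · exact hpg2 ((pos v j n t).injective (h3.trans hf.symm))

/-- the two cases of a step -/
theorem step {t : ℕ} (ht : t < n) {f g : ℤ} (h1 : g ≠ f) (h2 : g ≠ π f) :
    ((pos v j n t f < pos v j n t g ↔ pos v j n (t + 1) f < pos v j n (t + 1) g) ∧
      (pos v j n t (π f) < pos v j n t (π g) ↔
        pos v j n (t + 1) (π f) < pos v j n (t + 1) (π g))) ∨
    ((pos v j n t f < pos v j n t g ↔ pos v j n t (π f) < pos v j n t (π g)) ∧
      ¬ (pos v j n (t + 1) f < pos v j n (t + 1) g ↔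
        pos v j n (t + 1) (π f) < pos v j n (t + 1) (π g))) := by
  have hpf2 : f ≠ π g := by
    intro h; apply h2; rw [h, pi_pi H]
  have hneq : π g ≠ π f := fun h => h1 (π.injective h)
  have hf2 := pi_pi H f
  have hg2 := pi_pi H g
  by_cases hj : t = j
  · left
    simp only [next_eq ht hj, and_self]
  by_cases hA : (pos v j n t f = v t ∧ pos v j n t g = v t + 1)
  · right
    obtain ⟨a1, a2, a3, a4⟩ := one H ht hj h1 h2 hA.1 hA.2
    have a5 : ¬ pos v j n (t + 1) f < pos v j n (t + 1) g := not_lt.2 a3.le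
    exact ⟨iff_of_true a1 a2, fun h => a5 (h.2 a4)⟩
  by_cases hB : (pos v j n t g = v t ∧ pos v j n t f = v t + 1)
  · right
    obtain ⟨a1, a2, a3, a4⟩ := one H ht hj h1.symm hpf2 hB.1 hB.2
    have b1 : ¬ pos v j n t f < pos v j n t g := not_lt.2 a1.le
    have b2 : ¬ pos v j n t (π f) < pos v j n t (π g) := not_lt.2 a2.le
    have b4 : ¬ pos v j n (t + 1) (π f) < pos v j n (t + 1) (π g) := not_lt.2 a4.le
    exact ⟨iff_of_false b1 b2, fun h => b4 (h.1 a3)⟩
  by_cases hC : (pos v j n t (π f) = v t ∧ pos v j n t (π g) = v t + 1)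
  · right
    obtain ⟨a1, a2, a3, a4⟩ := one H ht hj hneq (by rw [hf2]; exact hpf2.symm) hC.1 hC.2
    rw [hf2, hg2] at a2 a4
    have a5 : ¬ pos v j n (t + 1) (π f) < pos v j n (t + 1) (π g) := not_lt.2 a3.le
    exact ⟨iff_of_true a2 a1, fun h => a5 (h.1 a4)⟩
  by_cases hD : (pos v j n t (π g) = v t ∧ pos v j n t (π f) = v t + 1)
  · right
    obtain ⟨a1, a2, a3, a4⟩ := one H ht hj hneq.symm (by rw [hg2]; exact h2.symm) hD.1 hD.2
    rw [hf2, hg2] at a2 a4
    have b1 : ¬ pos v j n t (π f) < pos v j n t (π g) := not_lt.2 a1.le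
    have b2 : ¬ pos v j n t f < pos v j n t g := not_lt.2 a2.le
    have b4 : ¬ pos v j n (t + 1) f < pos v j n (t + 1) g := not_lt.2 a4.le
    exact ⟨iff_of_false b2 b1, fun h => b4 (h.2 a3)⟩
  · left
    refine ⟨(order ht h1.symm ?_).symm, (order ht hneq.symm ?_).symm⟩
    · exact fun _ h => h.elim hA hB
    · exact fun _ h => h.elim hC hD

/-- partners never cross -/
theorem partner {f : ℤ} {t : ℕ} (ht : t < n) :
    pos v j n (t + 1) f < pos v j n (t + 1) (π f) ↔ pos v j n t f < pos v j n t (π f) := by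
  apply order ht (pi_ne H f).symm
  rintro hj (⟨h1, h2⟩ | ⟨h1, h2⟩)
  · have := H.asc t ht hj _ _ h1 h2
    rw [pi_pi H] at this
    omega
  · have := H.asc t ht hj _ _ h1 h2
    rw [pi_pi H] at this
    omega

theorem partner0 (f : ℤ) (x : ℕ) (hx : x ≤ n) :
    pos v j n x f < pos v j n x (π f) ↔ pos v j n 0 f < pos v j n 0 (π f) := by
  induction x with
  | zero => rfl
  | succ x ih => rw [partner H (by omega), ih (by omega)]

theorem down {f g : ℤ} (h1 : g ≠ f) (h2 : g ≠ π f) (x d : ℕ) (hd : x + d ≤ n)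
    (h : pos v j n (x + d) f < pos v j n (x + d) g ↔
      pos v j n (x + d) (π f) < pos v j n (x + d) (π g)) :
    (pos v j n x f < pos v j n x g ↔ pos v j n (x + d) f < pos v j n (x + d) g) ∧
    (pos v j n x (π f) < pos v j n x (π g) ↔
      pos v j n (x + d) (π f) < pos v j n (x + d) (π g)) := by
  induction d with
  | zero => exact ⟨Iff.rfl, Iff.rfl⟩
  | succ d ih =>
    rw [← Nat.add_assoc] at h ⊢
    rcases step H (t := x + d) (by omega) h1 h2 with ⟨a, b⟩ | ⟨a, b⟩
    · have := ih (by omega) (by rw [a, b]; exact h)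
      rw [this.1, this.2]
      exact ⟨a, b⟩
    · exact absurd h b

theorem up {f g : ℤ} (h1 : g ≠ f) (h2 : g ≠ π f) (x d : ℕ) (hd : x + d ≤ n)
    (h : ¬ (pos v j n x f < pos v j n x g ↔ pos v j n x (π f) < pos v j n x (π g))) :
    (pos v j n x f < pos v j n x g ↔ pos v j n (x + d) f < pos v j n (x + d) g) ∧
    (pos v j n x (π f) < pos v j n x (π g) ↔
      pos v j n (x + d) (π f) < pos v j n (x + d) (π g)) := by
  induction d with
  | zero => exact ⟨Iff.rfl, Iff.rfl⟩
  | succ d ih =>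
    rw [← Nat.add_assoc]
    obtain ⟨c1, c2⟩ := ih (by omega)
    rcases step H (t := x + d) (by omega) h1 h2 with ⟨a, b⟩ | ⟨a, b⟩
    · exact ⟨c1.trans a, c2.trans b⟩
    · rw [c1, c2] at h
      exact absurd a h

theorem four {f g : ℤ} (h1 : g ≠ f) (h2 : g ≠ π f) (x y : ℕ) (hxy : x ≤ y) (hy : y ≤ n) :
    ((pos v j n y f < pos v j n y g ↔ pos v j n y (π f) < pos v j n y (π g)) →
      ((pos v j n x f < pos v j n x g ↔ pos v j n y f < pos v j n y g) ∧
       (pos v j n x (π f) < pos v j n x (π g) ↔ pos v j n y (π f) < pos v j n y (π g)))) ∧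
    (¬ (pos v j n x f < pos v j n x g ↔ pos v j n x (π f) < pos v j n x (π g)) →
      ((pos v j n x f < pos v j n x g ↔ pos v j n y f < pos v j n y g) ∧
       (pos v j n x (π f) < pos v j n x (π g) ↔ pos v j n y (π f) < pos v j n y (π g)))) := by
  obtain ⟨d, rfl⟩ := Nat.exists_eq_add_of_le hxy
  exact ⟨down H h1 h2 x d hy, up H h1 h2 x d hy⟩

end

end CrossAux

open CrossAux

theorem cross2 : S_cross2 := by
  intro π n v j H
  refine ⟨pi_pi H, pi_ne H, ?_, ?_⟩
  · intro f x y hx hy h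
    rw [partner0 H f y hy, ← partner0 H f x hx]
    exact h
  · intro f g h1 h2 x y hxy hy
    exact four H h1 h2 x y hxy hy

theorem cross1 : S_cross1 := by
  intro π n v j H f g x y z hxy hyz hz h1 h2
  by_cases hgf : g = f
  · subst hgf
    exact absurd h1 (lt_irrefl _)
  by_cases hgp : g = π f
  · subst hgp
    have h3 : pos v j n y f < pos v j n y (π f) := by
      rw [partner0 H f y (hyz.trans hz), ← partner0 H f x ((hxy.trans hyz).trans hz)]
      exact h1
    exact absurd h3 (not_lt.2 h2.le)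
  have h3 : ¬ pos v j n y f < pos v j n y g := not_lt.2 h2.le
  have h4 : ¬ (pos v j n y f < pos v j n y g ↔ pos v j n y (π f) < pos v j n y (π g)) := by
    intro h
    have := ((four H hgf hgp x y hxy (hyz.trans hz)).1 h).1
    exact h3 (this.1 h1)
  have h5 := ((four H hgf hgp y z hyz hz).2 h4).1
  have h6 : ¬ pos v j n z f < pos v j n z g := fun h => h3 (h5.2 h)
  rcases lt_or_eq_of_le (not_lt.1 h6) with h7 | h7
  · exact h7
  · exact absurd ((pos v j n z).injective h7) hgf

end Pool.Agent.H156.Fpf
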