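import Pool.Agent.H156.Fpf.Core

/-!
FPF: the final count, no letter is pushed three times.
-/

set_option autoImplicit false

namespace Pool.Agent.H156.Fpf

namespace Fin687

open RunData

variable {R : RunData}

theorem ne_pq (hR : R.IsRun) {τ : ℕ} (hτ : τ < R.N) : R.p ≠ R.q := by
  intro h
  have h1 := hR.hpq τ hτ 0 (Nat.zero_le _)
  rw [h] at h1
  exact lt_irrefl _ h1

theorem move_p (hR : R.IsRun) {τ : ℕ} {a b : ℤ} (h : R.IsMove τ a b) {x : ℕ} (hx : x ≤ R.n) :
    (R.covL τ x → R.P (τ + 1) x R.p = R.P τ x a) ∧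
      (¬ R.covL τ x → R.P (τ + 1) x R.p = R.P τ x R.p) := by
  classical
  have hpq := ne_pq hR (τ := τ) (lt_trans (Nat.lt_succ_self τ) h.lt)
  have e1 : (if R.covU τ x then Equiv.swap R.q b else 1) R.p = R.p := by
    split_ifs
    · exact Equiv.swap_apply_of_ne_of_ne hpq h.bp.symm
    · rfl
  have e2 := h.P1 x hx
  have e3 : R.P (τ + 1) x R.p = R.P τ x ((if R.covL τ x then Equiv.swap R.p a else 1) R.p) := by
    rw [e2, Equiv.Perm.mul_apply, Equiv.Perm.mul_apply]
    congr 2
  constructor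
  · intro hc
    rw [e3, if_pos hc, Equiv.swap_apply_left]
  · intro hc
    rw [e3, if_neg hc, Equiv.Perm.one_apply]

theorem move_q (hR : R.IsRun) {τ : ℕ} {a b : ℤ} (h : R.IsMove τ a b) {x : ℕ} (hx : x ≤ R.n) :
    (R.covU τ x → R.P (τ + 1) x R.q = R.P τ x b) ∧
      (¬ R.covU τ x → R.P (τ + 1) x R.q = R.P τ x R.q) := by
  classical
  have hpq := ne_pq hR (τ := τ) (lt_trans (Nat.lt_succ_self τ) h.lt)
  have e2 := h.P1 x hx
  constructor
  · intro hc
    rw [e2, Equiv.Perm.mul_apply, Equiv.Perm.mul_apply, if_pos hc, Equiv.swap_apply_left]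
    split_ifs
    · rw [Equiv.swap_apply_of_ne_of_ne h.bp h.ab.symm]
    · rfl
  · intro hc
    rw [e2, Equiv.Perm.mul_apply, Equiv.Perm.mul_apply, if_neg hc, Equiv.Perm.one_apply]
    split_ifs
    · rw [Equiv.swap_apply_of_ne_of_ne hpq.symm h.aq.symm]
    · rfl

/-- one step -/
theorem step_p (hR : R.IsRun) {τ : ℕ} (hτ : τ + 1 < R.N) {x : ℕ} (hx : x ≤ R.n) :
    R.P τ x R.p ≤ R.P (τ + 1) x R.p := by
  rcases hR.hmove τ hτ with h | ⟨a, b, h⟩
  · rw [h.P1 x hx]
  · by_cases hc : R.covL τ x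
    · rw [(move_p hR h hx).1 hc]
      exact (h.cL x hx hc).le
    · rw [(move_p hR h hx).2 hc]

theorem step_q (hR : R.IsRun) {τ : ℕ} (hτ : τ + 1 < R.N) {x : ℕ} (hx : x ≤ R.n) :
    R.P τ x R.q ≤ R.P (τ + 1) x R.q := by
  rcases hR.hmove τ hτ with h | ⟨a, b, h⟩
  · rw [h.P1 x hx]
  · by_cases hc : R.covU τ x
    · rw [(move_q hR h hx).1 hc]
      exact (h.cU x hx hc).le
    · rw [(move_q hR h hx).2 hc]

theorem mono_p (hR : R.IsRun) {s t : ℕ} (hst : s ≤ t) (ht : t < R.N) {x : ℕ} (hx : x ≤ R.n) :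
    R.P s x R.p ≤ R.P t x R.p := by
  induction t, hst using Nat.le_induction with
  | base => exact le_refl _
  | succ t hst ih => exact (ih (by omega)).trans (step_p hR ht hx)

theorem mono_q (hR : R.IsRun) {s t : ℕ} (hst : s ≤ t) (ht : t < R.N) {x : ℕ} (hx : x ≤ R.n) :
    R.P s x R.q ≤ R.P t x R.q := by
  induction t, hst using Nat.le_induction with
  | base => exact le_refl _
  | succ t hst ih => exact (ih (by omega)).trans (step_q hR ht hx)

theorem lc_even (τ : ℕ) : ∃ k : ℤ, R.lc τ = 2 * k := by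
  unfold RunData.lc loc
  split_ifs
  · exact ⟨(R.J τ : ℤ) + 1, by ring⟩
  · exact ⟨-((R.J τ : ℤ) + 1), by ring⟩

theorem lc_true {τ : ℕ} (h : R.up τ = true) : R.lc τ = 2 * (R.J τ : ℤ) + 2 := by
  unfold RunData.lc loc
  rw [h]
  simp

theorem lc_false {τ : ℕ} (h : R.up τ = false) : R.lc τ = -(2 * (R.J τ : ℤ) + 2) := by
  unfold RunData.lc loc
  rw [h]
  simp

theorem jump_up {τ : ℕ} (h : R.IsJump τ) : R.lc τ < R.lc (τ + 1) := by
  rw [lc_false h.up0, lc_true h.up1]
  omega

/-- passing down raises, upper strand -/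
theorem rd_q (hR : R.IsRun) {s t : ℕ} (hst : s ≤ t) (ht : t < R.N) {x : ℕ} (hx : x ≤ R.n)
    (h1 : 2 * (x : ℤ) + 1 < R.lc s) (h2 : R.lc t < 2 * (x : ℤ) + 1) :
    R.P s x R.q < R.P t x R.q := by
  induction t, hst using Nat.le_induction with
  | base => omega
  | succ t hst ih =>
    by_cases h3 : R.lc t < 2 * (x : ℤ) + 1
    · exact lt_of_lt_of_le (ih (by omega) h3) (step_q hR ht hx)
    · have h4 : 2 * (x : ℤ) + 1 < R.lc t := by
        obtain ⟨k, hk⟩ := lc_even (R := R) t
        omega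
      rcases hR.hmove t ht with h | ⟨a, b, h⟩
      · have := jump_up h
        omega
      · have hc : R.covU t x := Or.inr ⟨h2, h4⟩
        have h5 := (move_q hR h hx).1 hc
        rw [h5]
        exact lt_of_le_of_lt (mono_q hR hst (by omega) hx) (h.cU x hx hc)

/-- passing down raises, lower strand -/
theorem rd_p (hR : R.IsRun) {s t : ℕ} (hst : s ≤ t) (ht : t < R.N) {x : ℕ} (hx : x ≤ R.n)
    (h1 : -(2 * (x : ℤ) + 1) < R.lc s) (h2 : R.lc t < -(2 * (x : ℤ) + 1)) :
    R.P s x R.p < R.P t x R.p := by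
  induction t, hst using Nat.le_induction with
  | base => omega
  | succ t hst ih =>
    by_cases h3 : R.lc t < -(2 * (x : ℤ) + 1)
    · exact lt_of_lt_of_le (ih (by omega) h3) (step_p hR ht hx)
    · have h4 : -(2 * (x : ℤ) + 1) < R.lc t := by
        obtain ⟨k, hk⟩ := lc_even (R := R) t
        omega
      rcases hR.hmove t ht with h | ⟨a, b, h⟩
      · have := jump_up h
        omega
      · have hc : R.covL t x := Or.inr ⟨h2, h4⟩
        have h5 := (move_p hR h hx).1 hc
        rw [h5]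
        exact lt_of_le_of_lt (mono_p hR hst (by omega) hx) (h.cL x hx hc)

/-- neighbouring columns -/
theorem row (hR : R.IsRun) {τ : ℕ} (hτ : τ < R.N) {x : ℕ} (hx : x < R.n) (f : ℤ) :
    R.P τ x f ≤ R.P τ (x + 1) f + 1 ∧ R.P τ (x + 1) f ≤ R.P τ x f + 1 := by
  rw [hR.hstep τ hτ x hx]
  split_ifs
  · rw [one_mul]
    constructor <;> omega
  · rw [Equiv.Perm.mul_apply]
    by_cases h1 : R.P τ (x + 1) f = R.v τ x
    · rw [h1, Equiv.swap_apply_left]
      constructor <;> omega
    · by_cases h2 : R.P τ (x + 1) f = R.v τ x + 1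
      · rw [h2, Equiv.swap_apply_right]
        constructor <;> omega
      · rw [Equiv.swap_apply_of_ne_of_ne h1 h2]
        constructor <;> omega

theorem row_J (hR : R.IsRun) {τ : ℕ} (hτ : τ < R.N) : R.P τ (R.J τ) = R.P τ (R.J τ + 1) := by
  rw [hR.hstep τ hτ (R.J τ) (hR.hJ τ hτ), if_pos rfl, one_mul]

/-- the letter is not changed between two pushes -/
theorem v_const (hR : R.IsRun) {m r s : ℕ} (hrs : r < s) (hs : s < R.N) (hJ : R.J r = m)
    (hno : ∀ k, r < k → k < s → R.J k ≠ m) : R.v s m = R.v r m + 1 := by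
  induction s, (Nat.succ_le_of_lt hrs) using Nat.le_induction with
  | base =>
    have := hR.hv r (by omega) m
    rw [if_pos hJ.symm] at this
    exact this
  | succ s hrs' ih =>
    have h1 := hR.hv s (by omega) m
    have h2 : R.J s ≠ m := hno s (by omega) (by omega)
    rw [if_neg (Ne.symm h2)] at h1
    rw [h1]
    exact ih (by omega) (by omega) fun k hk hk' => hno k hk (by omega)

theorem mark_q (hR : R.IsRun) {τ m : ℕ} (hτ : τ < R.N) (hJ : R.J τ = m) (hu : R.up τ = true) :
    R.P τ m R.q = R.v τ m + 1 ∧ R.P τ (m + 1) R.q = R.v τ m + 1 := by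
  have h1 := hR.hmark τ hτ
  have h2 := row_J hR hτ
  rw [hu, if_pos rfl, hJ] at h1
  rw [hJ] at h2
  exact ⟨h1, by rw [← h2]; exact h1⟩

theorem mark_p (hR : R.IsRun) {τ m : ℕ} (hτ : τ < R.N) (hJ : R.J τ = m) (hu : R.up τ = false) :
    R.P τ m R.p = R.v τ m + 1 ∧ R.P τ (m + 1) R.p = R.v τ m + 1 := by
  have h1 := hR.hmark τ hτ
  have h2 := row_J hR hτ
  rw [hu, hJ] at h1
  rw [hJ] at h2
  have h3 : R.P τ m R.p = R.v τ m + 1 := by simpa using h1
  exact ⟨h3, by rw [← h2]; exact h3⟩

end Fin687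

open Fin687

theorem final : S_final := by
  intro hS hT hK R hR m r s t hrs hst htN hJr hJs hJt hno1 hno2
  have hsN : s < R.N := by omega
  have hrN : r < R.N := by omega
  have hm : m < R.n := hJr ▸ hR.hJ r hrN
  have hm0 : m ≤ R.n := by omega
  have hm1 : m + 1 ≤ R.n := by omega
  have vs := v_const hR hrs hsN hJr hno1
  have vt := v_const hR hst htN hJs hno2
  -- pairs
  have pair1 : (s = r + 1 ∧ R.IsJump r) ∨ ∃ c, r < c ∧ c < s ∧ R.IsJump c ∧ m < R.J c := by
    by_cases h : R.up r = true ∧ R.up s = false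
    · exact Or.inr (hT R hR m r s hrs hsN hJr hJs hno1 h.1 h.2)
    · exact hK R hR m r s hrs hsN hJr hJs hno1 h
  have pair2 : (t = s + 1 ∧ R.IsJump s) ∨ ∃ d, s < d ∧ d < t ∧ R.IsJump d ∧ m < R.J d := by
    by_cases h : R.up s = true ∧ R.up t = false
    · exact Or.inr (hT R hR m s t hst htN hJs hJt hno2 h.1 h.2)
    · exact hK R hR m s t hst htN hJs hJt hno2 h
  -- M1
  have M1 : ∀ c, r < c → c < R.N → R.IsJump c → m < R.J c → R.up r = true →
      R.v r m + 2 ≤ R.P c m R.q := by
    intro c hrc hcN hj hJc hu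
    have h1 := rd_q hR hrc.le hcN hm0 (by rw [lc_true hu, hJr]; omega)
      (by rw [lc_false hj.up0]; omega)
    have h2 := (mark_q hR hrN hJr hu).1
    omega
  -- M3
  have M3 : ∀ c, c < t → R.IsJump c → m < R.J c → R.up t = true →
      R.P c (m + 1) R.q < R.P t (m + 1) R.q := by
    intro c hct hj hJc hu
    have h1 := rd_q hR (s := c + 1) (t := t) (by omega) htN hm1
      (by rw [lc_true hj.up1, hj.J1]; push_cast; omega) (by rw [lc_true hu, hJt]; push_cast; omega)
    rwa [hj.P1 _ hm1] at h1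
  -- M4
  have M4 : ∀ c, c < t → R.IsJump c → R.up t = false → R.P c m R.p < R.P t m R.p := by
    intro c hct hj hu
    have h1 := rd_p hR (s := c + 1) (t := t) (by omega) htN hm0
      (by rw [lc_true hj.up1, hj.J1]; omega) (by rw [lc_false hu, hJt]; omega)
    rwa [hj.P1 _ hm0] at h1
  -- M0
  have M0 : ∀ c, r < c → c < R.N → R.up r = false → R.v r m + 1 ≤ R.P c m R.p ∧
      R.v r m + 1 ≤ R.P c (m + 1) R.p := by
    intro c hrc hcN hu
    have h2 := mark_p hR hrN hJr hu
    have h3 := mono_p hR hrc.le hcN hm0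
    have h4 := mono_p hR hrc.le hcN hm1
    omega
  have M0q : ∀ c, r < c → c < R.N → R.up r = true → R.v r m + 1 ≤ R.P c (m + 1) R.q := by
    intro c hrc hcN hu
    have h2 := mark_q hR hrN hJr hu
    have h4 := mono_q hR hrc.le hcN hm1
    omega
  rcases pair1 with ⟨hs1, hjr⟩ | ⟨c, hrc, hcs, hjc, hJc⟩
  · rcases pair2 with ⟨ht1, hjs⟩ | ⟨d, hsd, hdt, hjd, hJd⟩
    · have h1 := hjr.up1
      rw [← hs1, hjs.up0] at h1
      exact absurd h1 (by decide)
    · have h1 := hS R hR r d (by omega) hjr hjd m (by omega) hJd.le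
      have h2 := hjr.adj
      rw [hJr] at h2
      have h3 := mark_p hR hrN hJr hjr.up0
      rcases Bool.eq_false_or_eq_true (R.up t) with hu | hu
      · have h4 := M3 d hdt hjd hJd hu
        have h5 := (mark_q hR htN hJt hu).2
        have h6 := hR.hpq d (by omega) (m + 1) hm1
        have h7 := row hR (τ := d) (by omega) hm R.p
        omega
      · have h4 := M4 d hdt hjd hu
        have h5 := (mark_p hR htN hJt hu).1
        omega
  · rcases pair2 with ⟨ht1, hjs⟩ | ⟨d, hsd, hdt, hjd, hJd⟩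
    · have h1 := hS R hR c s hcs hjc hjs m hJc.le (by omega)
      have h2 := mark_p hR hsN hJs hjs.up0
      rcases Bool.eq_false_or_eq_true (R.up r) with hu | hu
      · have h3 := M1 c hrc (by omega) hjc hJc hu
        omega
      · have h3 := M0 c hrc (by omega) hu
        have h4 := hR.hpq c (by omega) m hm0
        omega
    · have h1 := hS R hR c d (by omega) hjc hjd m hJc.le hJd.le
      have h1' := hS R hR c d (by omega) hjc hjd (m + 1) hJc hJd
      rcases Bool.eq_false_or_eq_true (R.up t) with hu | hu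
      · have h4 := M3 d hdt hjd hJd hu
        have h5 := (mark_q hR htN hJt hu).2
        have h6 := hR.hpq d (by omega) (m + 1) hm1
        rcases Bool.eq_false_or_eq_true (R.up r) with hv | hv
        · have h7 := M0q c hrc (by omega) hv
          omega
        · have h7 := M0 c hrc (by omega) hv
          have h8 := hR.hpq c (by omega) (m + 1) hm1
          omega
      · have h4 := M4 d hdt hjd hu
        have h5 := (mark_p hR htN hJt hu).1
        rcases Bool.eq_false_or_eq_true (R.up r) with hv | hv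
        · have h7 := M1 c hrc (by omega) hjc hJc hv
          omega
        · have h7 := M0 c hrc (by omega) hv
          have h8 := hR.hpq c (by omega) m hm0
          omega

end Pool.Agent.H156.Fpf
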