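import Pool.Agent.H156.Fpf.Core

/-!
Lemma K for the fixed-point-free involution Little bump: the cases (U,U), (L,L), (L,U).
-/

set_option autoImplicit false

namespace Pool.Agent.H156.Fpf

namespace LK

variable {R : RunData}

theorem pq_ne (h : R.IsRun) (hN : 0 < R.N) : R.p ≠ R.q := by
  intro e
  have h1 := h.hpq 0 hN 0 (Nat.zero_le _)
  rw [e] at h1
  exact lt_irrefl _ h1

theorem move_q (h : R.IsRun) {τ : ℕ} {a b : ℤ} (hm : R.IsMove τ a b) {x : ℕ} (hx : x ≤ R.n) :
    (R.covU τ x → R.P τ x R.q < R.P (τ + 1) x R.q) ∧
      (¬ R.covU τ x → R.P (τ + 1) x R.q = R.P τ x R.q) := by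
  classical
  have hpq := pq_ne h (by have := hm.lt; omega)
  have h1 := hm.P1 x hx
  constructor
  · intro hc
    have h2 := hm.cU x hx hc
    rw [h1, if_pos hc]
    by_cases hl : R.covL τ x
    · rw [if_pos hl, Equiv.Perm.mul_apply, Equiv.Perm.mul_apply, Equiv.swap_apply_left,
        Equiv.swap_apply_of_ne_of_ne hm.bp (Ne.symm hm.ab)]
      exact h2
    · rw [if_neg hl, Equiv.Perm.mul_apply, Equiv.Perm.mul_apply, Equiv.swap_apply_left,
        Equiv.Perm.one_apply]
      exact h2
  · intro hc
    rw [h1, if_neg hc]
    by_cases hl : R.covL τ x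
    · rw [if_pos hl, Equiv.Perm.mul_apply, Equiv.Perm.mul_apply, Equiv.Perm.one_apply,
        Equiv.swap_apply_of_ne_of_ne (Ne.symm hpq) (Ne.symm hm.aq)]
    · rw [if_neg hl, mul_one, mul_one]

theorem move_p (h : R.IsRun) {τ : ℕ} {a b : ℤ} (hm : R.IsMove τ a b) {x : ℕ} (hx : x ≤ R.n) :
    (R.covL τ x → R.P τ x R.p < R.P (τ + 1) x R.p) ∧
      (¬ R.covL τ x → R.P (τ + 1) x R.p = R.P τ x R.p) := by
  classical
  have hpq := pq_ne h (by have := hm.lt; omega)
  have h1 := hm.P1 x hx
  constructor
  · intro hc
    have h2 := hm.cL x hx hc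
    rw [h1, if_pos hc]
    by_cases hl : R.covU τ x
    · rw [if_pos hl, Equiv.Perm.mul_apply, Equiv.Perm.mul_apply,
        Equiv.swap_apply_of_ne_of_ne hpq (Ne.symm hm.bp), Equiv.swap_apply_left]
      exact h2
    · rw [if_neg hl, Equiv.Perm.mul_apply, Equiv.Perm.mul_apply, Equiv.Perm.one_apply,
        Equiv.swap_apply_left]
      exact h2
  · intro hc
    rw [h1, if_neg hc, mul_one]
    by_cases hl : R.covU τ x
    · rw [if_pos hl, Equiv.Perm.mul_apply, Equiv.swap_apply_of_ne_of_ne hpq (Ne.symm hm.bp)]
    · rw [if_neg hl, mul_one]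

theorem step_q (h : R.IsRun) {τ x : ℕ} (hτ : τ + 1 < R.N) (hx : x ≤ R.n) :
    R.P τ x R.q ≤ R.P (τ + 1) x R.q := by
  rcases h.hmove τ hτ with hj | ⟨a, b, hm⟩
  · rw [hj.P1 x hx]
  · by_cases hc : R.covU τ x
    · exact ((move_q h hm hx).1 hc).le
    · exact ((move_q h hm hx).2 hc).ge

theorem step_p (h : R.IsRun) {τ x : ℕ} (hτ : τ + 1 < R.N) (hx : x ≤ R.n) :
    R.P τ x R.p ≤ R.P (τ + 1) x R.p := by
  rcases h.hmove τ hτ with hj | ⟨a, b, hm⟩
  · rw [hj.P1 x hx]
  · by_cases hc : R.covL τ x
    · exact ((move_p h hm hx).1 hc).le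
    · exact ((move_p h hm hx).2 hc).ge

theorem mono_q (h : R.IsRun) {s x : ℕ} (hx : x ≤ R.n) : ∀ t, s ≤ t → t < R.N →
    R.P s x R.q ≤ R.P t x R.q := by
  intro t hst
  induction t, hst using Nat.le_induction with
  | base => intro _; exact le_rfl
  | succ t hst ih => intro ht; exact (ih (by omega)).trans (step_q h ht hx)

theorem mono_p (h : R.IsRun) {s x : ℕ} (hx : x ≤ R.n) : ∀ t, s ≤ t → t < R.N →
    R.P s x R.p ≤ R.P t x R.p := by
  intro t hst
  induction t, hst using Nat.le_induction with
  | base => intro _; exact le_rfl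
  | succ t hst ih => intro ht; exact (ih (by omega)).trans (step_p h ht hx)

theorem row (h : R.IsRun) {τ : ℕ} (hτ : τ < R.N) : R.P τ (R.J τ) = R.P τ (R.J τ + 1) := by
  have h1 := h.hstep τ hτ (R.J τ) (h.hJ τ hτ)
  rw [if_pos rfl, one_mul] at h1
  exact h1

theorem v_eq (h : R.IsRun) {m s : ℕ} (hs : R.J s = m) (hsN : s < R.N) : ∀ t, s + 1 ≤ t → t < R.N →
    (∀ r, s < r → r < t → R.J r ≠ m) → R.v t m = R.v s m + 1 := by
  intro t hst
  induction t, hst using Nat.le_induction with
  | base =>
    intro _ _
    rw [h.hv s hsN m, if_pos hs.symm]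
  | succ t hst ih =>
    intro ht hr
    rw [h.hv t (by omega) m, if_neg (Ne.symm (hr t (by omega) (by omega)))]
    exact ih (by omega) fun r h1 h2 => hr r h1 (by omega)

theorem lc_up {τ : ℕ} (h : R.up τ = true) : R.lc τ = 2 * (R.J τ : ℤ) + 2 := by
  unfold RunData.lc loc
  rw [h, if_pos rfl]

theorem lc_dn {τ : ℕ} (h : R.up τ = false) : R.lc τ = -(2 * (R.J τ : ℤ) + 2) := by
  unfold RunData.lc loc
  rw [h, if_neg (by simp)]

theorem lc_cases (τ : ℕ) : R.lc τ = 2 * (R.J τ : ℤ) + 2 ∨ R.lc τ = -(2 * (R.J τ : ℤ) + 2) := by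
  cases h : R.up τ
  · exact Or.inr (lc_dn h)
  · exact Or.inl (lc_up h)

/-- crossing the point `x` of the upper strand upwards is impossible if the value is maximal -/
theorem stay (h : R.IsRun) {x s t : ℕ} {c : ℤ} (hx : x ≤ R.n) (ht : t < R.N)
    (hP : R.P s x R.q = c + 1) (hP' : R.P t x R.q = c + 1) {r : ℕ} (hsr : s ≤ r) (hrt : r + 1 ≤ t)
    {a b : ℤ} (hm : R.IsMove r a b) : ¬ R.covU r x := by
  intro hc
  have h1 := (move_q h hm hx).1 hc
  have h2 := mono_q h hx r hsr (by omega)
  have h3 := mono_q h hx (s := r + 1) t hrt ht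
  omega

theorem stay' (h : R.IsRun) {x s t : ℕ} {c : ℤ} (hx : x ≤ R.n) (ht : t < R.N)
    (hP : R.P s x R.p = c + 1) (hP' : R.P t x R.p = c + 1) {r : ℕ} (hsr : s ≤ r) (hrt : r + 1 ≤ t)
    {a b : ℤ} (hm : R.IsMove r a b) : ¬ R.covL r x := by
  intro hc
  have h1 := (move_p h hm hx).1 hc
  have h2 := mono_p h hx r hsr (by omega)
  have h3 := mono_p h hx (s := r + 1) t hrt ht
  omega

end LK

open LK in
/-- **Lemma K**, the cases (U,U), (L,L), (L,U). -/
theorem lemmaK : S_lemmaK := by
  intro R h m s t hst ht hJs hJt hr hup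
  by_contra hcon
  have hc1 : ¬ (t = s + 1 ∧ R.IsJump s) := fun h' => hcon (Or.inl h')
  have hc2 : ∀ r, s < r → r < t → R.IsJump r → R.J r < m := by
    intro r h1 h2 h3
    have h4 := hr r h1 h2
    by_contra h5
    exact hcon (Or.inr ⟨r, h1, h2, h3, by omega⟩)
  have hsN : s < R.N := by omega
  have hs1 : s + 1 < R.N := by omega
  have hmn : m < R.n := by rw [← hJs]; exact h.hJ s hsN
  have hv := v_eq h hJs hsN t hst ht hr
  have hms := h.hmark s hsN
  have hmt := h.hmark t ht
  have hrs := row h hsN
  have hrt := row h ht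
  rw [hJs] at hms hrs
  rw [hJt] at hmt hrt
  -- a jump at `s` is impossible
  have hnj : ¬ R.IsJump s := by
    intro hj
    have h1 := hj.J1
    rw [hJs] at h1
    rcases Nat.lt_or_ge (s + 1) t with h2 | h2
    · exact hr (s + 1) (by omega) h2 h1
    · exact hc1 ⟨by omega, hj⟩
  obtain ⟨a, b, hm⟩ := (h.hmove s hs1).resolve_left hnj
  have hJ1 : R.J (s + 1) ≠ m := by
    have := hm.J1
    rwa [hJs] at this
  cases hus : R.up s
  · cases hut : R.up t
    · -- both on the lower strand
      rw [hus, if_neg (by simp)] at hms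
      rw [hut, if_neg (by simp)] at hmt
      have hls := lc_dn hus
      have hlt := lc_dn hut
      rw [hJs] at hls
      rw [hJt] at hlt
      rcases lt_or_ge (R.lc (s + 1)) (R.lc s) with hd | hd
      · -- decreasing
        have h1 : R.lc (s + 1) < -(2 * ((m + 1 : ℕ) : ℤ) + 1) := by
          rcases lc_cases (R := R) (s + 1) with h1 | h1 <;> omega
        have h2 : R.covL s (m + 1) := by
          right
          exact ⟨h1, by omega⟩
        have h3 := (move_p h hm (x := m + 1) (by omega)).1 h2
        rw [← hrs] at h3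
        have h4 := mono_p h (x := m + 1) (by omega) (s := s + 1) t (by omega) ht
        rw [← hrt] at h4
        have e1 : R.P (s + 1) (m + 1) R.p = (R.v s m + 1) + 1 := by omega
        have e2 : R.P t (m + 1) R.p = (R.v s m + 1) + 1 := by rw [← hrt]; omega
        have key : ∀ r, s + 1 ≤ r → r ≤ t → R.lc r < -(2 * ((m + 1 : ℕ) : ℤ) + 1) := by
          intro r hr1
          induction r, hr1 using Nat.le_induction with
          | base => intro _; exact h1
          | succ r hr1 ih =>
            intro hr2
            have ih' := ih (by omega)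
            rcases h.hmove r (by omega) with hj | ⟨a', b', hm'⟩
            · have h5 := hc2 r (by omega) (by omega) hj
              have h6 := lc_dn hj.up0
              omega
            · by_contra h5
              refine stay' h (x := m + 1) (by omega) ht e1 e2 hr1 hr2 hm' (Or.inl ⟨ih', ?_⟩)
              rcases lc_cases (R := R) (r + 1) with h6 | h6 <;> omega
        have := key t (by omega) le_rfl
        omega
      · -- increasing
        have h1 : -(2 * (m : ℤ) + 1) < R.lc (s + 1) := by
          rcases lc_cases (R := R) (s + 1) with h1 | h1 <;> omega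
        have h2 : R.covL s m := by
          left
          exact ⟨by omega, h1⟩
        have h3 := (move_p h hm (x := m) (by omega)).1 h2
        have h4 := mono_p h (x := m) (by omega) (s := s + 1) t (by omega) ht
        have e1 : R.P (s + 1) m R.p = (R.v s m + 1) + 1 := by omega
        have e2 : R.P t m R.p = (R.v s m + 1) + 1 := by omega
        have key : ∀ r, s + 1 ≤ r → r ≤ t → -(2 * (m : ℤ) + 1) < R.lc r := by
          intro r hr1
          induction r, hr1 using Nat.le_induction with
          | base => intro _; exact h1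
          | succ r hr1 ih =>
            intro hr2
            have ih' := ih (by omega)
            rcases h.hmove r (by omega) with hj | ⟨a', b', hm'⟩
            · have h6 := lc_up hj.up1
              omega
            · by_contra h5
              refine stay' h (x := m) (by omega) ht e1 e2 hr1 hr2 hm' (Or.inr ⟨?_, ih'⟩)
              rcases lc_cases (R := R) (r + 1) with h6 | h6 <;> omega
        have := key t (by omega) le_rfl
        omega
    · -- from the lower to the upper strand
      rw [hus, if_neg (by simp)] at hms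
      rw [hut, if_pos rfl] at hmt
      have h1 := h.hpq s hsN m (by omega)
      have h2 := mono_q h (x := m) (by omega) (s := s) t (by omega) ht
      have h3 := hm.t3 hus
      rw [hJs] at h3
      have h4 : R.P s m a = R.P s m R.q := by omega
      exact hm.aq ((R.P s m).injective h4)
  · cases hut : R.up t
    · exact hup ⟨hus, hut⟩
    · -- both on the upper strand
      rw [hus, if_pos rfl] at hms
      rw [hut, if_pos rfl] at hmt
      have hls := lc_up hus
      have hlt := lc_up hut
      rw [hJs] at hls
      rw [hJt] at hlt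
      rcases lt_or_ge (R.lc (s + 1)) (R.lc s) with hd | hd
      · -- decreasing
        have h1 : R.lc (s + 1) < 2 * (m : ℤ) + 1 := by
          rcases lc_cases (R := R) (s + 1) with h1 | h1 <;> omega
        have h2 : R.covU s m := by
          right
          exact ⟨h1, by omega⟩
        have h3 := (move_q h hm (x := m) (by omega)).1 h2
        have h4 := mono_q h (x := m) (by omega) (s := s + 1) t (by omega) ht
        have e1 : R.P (s + 1) m R.q = (R.v s m + 1) + 1 := by omega
        have e2 : R.P t m R.q = (R.v s m + 1) + 1 := by omega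
        have key : ∀ r, s + 1 ≤ r → r ≤ t → R.lc r < 2 * (m : ℤ) + 1 := by
          intro r hr1
          induction r, hr1 using Nat.le_induction with
          | base => intro _; exact h1
          | succ r hr1 ih =>
            intro hr2
            have ih' := ih (by omega)
            rcases h.hmove r (by omega) with hj | ⟨a', b', hm'⟩
            · have h5 := hc2 r (by omega) (by omega) hj
              have h6 := lc_up hj.up1
              have h7 := hj.J1
              rw [h7] at h6
              omega
            · by_contra h5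
              refine stay h (x := m) (by omega) ht e1 e2 hr1 hr2 hm' (Or.inl ⟨ih', ?_⟩)
              rcases lc_cases (R := R) (r + 1) with h6 | h6 <;> omega
        have := key t (by omega) le_rfl
        omega
      · -- increasing
        have h1 : 2 * ((m + 1 : ℕ) : ℤ) + 1 < R.lc (s + 1) := by
          rcases lc_cases (R := R) (s + 1) with h1 | h1 <;> omega
        have h2 : R.covU s (m + 1) := by
          left
          exact ⟨by omega, h1⟩
        have h3 := (move_q h hm (x := m + 1) (by omega)).1 h2
        rw [← hrs] at h3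
        have h4 := mono_q h (x := m + 1) (by omega) (s := s + 1) t (by omega) ht
        rw [← hrt] at h4
        have e1 : R.P (s + 1) (m + 1) R.q = (R.v s m + 1) + 1 := by omega
        have e2 : R.P t (m + 1) R.q = (R.v s m + 1) + 1 := by rw [← hrt]; omega
        have key : ∀ r, s + 1 ≤ r → r ≤ t → 2 * ((m + 1 : ℕ) : ℤ) + 1 < R.lc r := by
          intro r hr1
          induction r, hr1 using Nat.le_induction with
          | base => intro _; exact h1
          | succ r hr1 ih =>
            intro hr2
            have ih' := ih (by omega)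
            rcases h.hmove r (by omega) with hj | ⟨a', b', hm'⟩
            · have h6 := lc_dn hj.up0
              omega
            · by_contra h5
              refine stay h (x := m + 1) (by omega) ht e1 e2 hr1 hr2 hm' (Or.inr ⟨?_, ih'⟩)
              rcases lc_cases (R := R) (r + 1) with h6 | h6 <;> omega
        have := key t (by omega) le_rfl
        omega

end Pool.Agent.H156.Fpf
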