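import Pool.Agent.H156.Fpf.Good

set_option autoImplicit false

namespace Pool.Agent.H156.Fpf

section mv

theorem mv_del (v : ℕ → ℤ) {j n : ℕ} (hj : j < n) : pos v j n j = pos v j n (j + 1) := by
  rw [pos_step v j n j hj, stepPerm, if_pos rfl, one_mul]

theorem mv_real (v : ℕ → ℤ) {j n x : ℕ} (hx : x < n) (hxj : x ≠ j) :
    pos v j n x = Equiv.swap (v x) (v x + 1) * pos v j n (x + 1) := by
  rw [pos_step v j n x hx, stepPerm, if_neg hxj]

theorem mv_high (v : ℕ → ℤ) {j j' n x : ℕ} (hx : j < x) (hx' : j' < x) :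
    pos v j' n x = pos v j n x := by
  unfold pos
  congr 1
  apply List.map_congr_left
  intro t ht
  rw [List.mem_range'_1] at ht
  unfold stepPerm
  rw [if_neg (by omega), if_neg (by omega)]

theorem mv_down (v : ℕ → ℤ) {j j' n x x₀ : ℕ} (θ : Equiv.Perm ℤ) (hx : x ≤ x₀) :
    x₀ ≤ n → (∀ t, x ≤ t → t < x₀ → t ≠ j ∧ t ≠ j') →
    pos v j' n x₀ = pos v j n x₀ * θ → pos v j' n x = pos v j n x * θ := by
  induction x₀, hx using Nat.le_induction with
  | base => intro _ _ h; exact h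
  | succ m hm ih =>
    intro hn hne h
    apply ih (by omega) (fun t h1 h2 => hne t h1 (by omega))
    obtain ⟨h1, h2⟩ := hne m hm (by omega)
    rw [mv_real v (by omega : m < n) h1, mv_real v (by omega : m < n) h2, h, mul_assoc]

theorem mv_three (π θ : ℤ → ℤ) (hi : ∀ f, π (π f) = f) (hf : ∀ f, π f ≠ f)
    (hc : ∀ f, θ (π f) = π (θ f)) (p q r : ℤ) (hpq : p ≠ q) (hqr : q ≠ r) (hpr : p ≠ r)
    (h1 : θ p = q) (h2 : θ q = r) (h3 : θ r = p)
    (h4 : ∀ z, z ≠ p → z ≠ q → z ≠ r → θ z = z) : False := by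
  have inj : ∀ a b, π a = π b → a = b := fun a b h => by rw [← hi a, h, hi]
  by_cases e1 : π p = q
  · have e2 : π q = p := by rw [← e1, hi]
    have e3 := hc q
    rw [e2, h1, h2] at e3
    apply hpr
    rw [← e2, e3, hi]
  by_cases e2 : π p = r
  · have e3 : π r = p := by rw [← e2, hi]
    have e4 := hc r
    rw [e3, h1, h3, e2] at e4
    exact hqr e4
  have e3 := hc p
  rw [h4 (π p) (hf p) e1 e2, h1] at e3
  exact hpq (inj _ _ e3)

/-- the combinatorial part -/
theorem mv_comb (π : ℤ → ℤ) (hi : ∀ f, π (π f) = f) (hf : ∀ f, π f ≠ f) (A B C F : ℤ)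
    (hAB : A ≠ B) (hCF : C ≠ F) (hBA : B ≠ π A)
    (hc : ∀ f, Equiv.swap C F (Equiv.swap A B (π f)) = π (Equiv.swap C F (Equiv.swap A B f))) :
    F ≠ π C ∧ (((A = C ∧ B = F) ∨ (A = F ∧ B = C)) ∨
      ((A ≠ C ∧ A ≠ F ∧ B ≠ C ∧ B ≠ F) ∧ ((A = π C ∧ B = π F) ∨ (A = π F ∧ B = π C)))) := by
  have inj : ∀ a b, π a = π b → a = b := fun a b h => by rw [← hi a, h, hi]
  have hFC : F ≠ π C := by
    intro hF
    have hF' : π F = C := by rw [hF, hi]
    have h1 : ∀ x, Equiv.swap C F (π x) = π (Equiv.swap C F x) := by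
      intro x
      by_cases e1 : x = C
      · rw [e1, ← hF, Equiv.swap_apply_right, Equiv.swap_apply_left, hF']
      by_cases e2 : x = F
      · rw [e2, hF', Equiv.swap_apply_right, Equiv.swap_apply_left, hF]
      have e3 : π x ≠ C := fun h => e2 (by rw [hF, ← h, hi])
      have e4 : π x ≠ F := fun h => e1 (by rw [← hF', ← h, hi])
      rw [Equiv.swap_apply_of_ne_of_ne e3 e4, Equiv.swap_apply_of_ne_of_ne e1 e2]
    have h2 : ∀ x, Equiv.swap A B (π x) = π (Equiv.swap A B x) := by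
      intro x
      have := hc x
      rw [← h1] at this
      exact (Equiv.swap C F).injective this
    have h3 := h2 A
    rw [Equiv.swap_apply_left, Equiv.swap_apply_of_ne_of_ne (hf A) (Ne.symm hBA)] at h3
    exact hAB (inj _ _ h3)
  refine ⟨hFC, ?_⟩
  by_cases e1 : A = C
  · by_cases e2 : B = F
    · exact Or.inl (Or.inl ⟨e1, e2⟩)
    exfalso
    subst e1
    refine mv_three π (fun x => Equiv.swap A F (Equiv.swap A B x)) hi hf hc B F A e2 (Ne.symm hCF)
      (Ne.symm hAB) ?_ ?_ ?_ ?_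
    · show Equiv.swap A F (Equiv.swap A B B) = F
      rw [Equiv.swap_apply_right, Equiv.swap_apply_left]
    · show Equiv.swap A F (Equiv.swap A B F) = A
      rw [Equiv.swap_apply_of_ne_of_ne (Ne.symm hCF) (Ne.symm e2), Equiv.swap_apply_right]
    · show Equiv.swap A F (Equiv.swap A B A) = B
      rw [Equiv.swap_apply_left, Equiv.swap_apply_of_ne_of_ne (Ne.symm hAB) e2]
    · intro z z1 z2 z3
      show Equiv.swap A F (Equiv.swap A B z) = z
      rw [Equiv.swap_apply_of_ne_of_ne z3 z1, Equiv.swap_apply_of_ne_of_ne z3 z2]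
  by_cases e2 : A = F
  · by_cases e3 : B = C
    · exact Or.inl (Or.inr ⟨e2, e3⟩)
    exfalso
    subst e2
    refine mv_three π (fun x => Equiv.swap C A (Equiv.swap A B x)) hi hf hc B C A e3 hCF
      (Ne.symm hAB) ?_ ?_ ?_ ?_
    · show Equiv.swap C A (Equiv.swap A B B) = C
      rw [Equiv.swap_apply_right, Equiv.swap_apply_right]
    · show Equiv.swap C A (Equiv.swap A B C) = A
      rw [Equiv.swap_apply_of_ne_of_ne hCF (Ne.symm e3), Equiv.swap_apply_left]
    · show Equiv.swap C A (Equiv.swap A B A) = B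
      rw [Equiv.swap_apply_left, Equiv.swap_apply_of_ne_of_ne e3 (Ne.symm hAB)]
    · intro z z1 z2 z3
      show Equiv.swap C A (Equiv.swap A B z) = z
      rw [Equiv.swap_apply_of_ne_of_ne z3 z1, Equiv.swap_apply_of_ne_of_ne z2 z3]
  by_cases e3 : B = C
  · exfalso
    subst e3
    refine mv_three π (fun x => Equiv.swap B F (Equiv.swap A B x)) hi hf hc A F B e2 (Ne.symm hCF)
      hAB ?_ ?_ ?_ ?_
    · show Equiv.swap B F (Equiv.swap A B A) = F
      rw [Equiv.swap_apply_left, Equiv.swap_apply_left]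
    · show Equiv.swap B F (Equiv.swap A B F) = B
      rw [Equiv.swap_apply_of_ne_of_ne (Ne.symm e2) (Ne.symm hCF), Equiv.swap_apply_right]
    · show Equiv.swap B F (Equiv.swap A B B) = A
      rw [Equiv.swap_apply_right, Equiv.swap_apply_of_ne_of_ne hAB e2]
    · intro z z1 z2 z3
      show Equiv.swap B F (Equiv.swap A B z) = z
      rw [Equiv.swap_apply_of_ne_of_ne z1 z3, Equiv.swap_apply_of_ne_of_ne z3 z2]
  by_cases e4 : B = F
  · exfalso
    subst e4
    refine mv_three π (fun x => Equiv.swap C B (Equiv.swap A B x)) hi hf hc A C B e1 hCF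
      hAB ?_ ?_ ?_ ?_
    · show Equiv.swap C B (Equiv.swap A B A) = C
      rw [Equiv.swap_apply_left, Equiv.swap_apply_right]
    · show Equiv.swap C B (Equiv.swap A B C) = B
      rw [Equiv.swap_apply_of_ne_of_ne (Ne.symm e1) hCF, Equiv.swap_apply_left]
    · show Equiv.swap C B (Equiv.swap A B B) = A
      rw [Equiv.swap_apply_right, Equiv.swap_apply_of_ne_of_ne e1 hAB]
    · intro z z1 z2 z3
      show Equiv.swap C B (Equiv.swap A B z) = z
      rw [Equiv.swap_apply_of_ne_of_ne z1 z3, Equiv.swap_apply_of_ne_of_ne z2 z3]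
  refine Or.inr ⟨⟨e1, e2, e3, e4⟩, ?_⟩
  have h := hc C
  rw [Equiv.swap_apply_of_ne_of_ne (Ne.symm e1) (Ne.symm e3), Equiv.swap_apply_left] at h
  by_cases d1 : π C = A
  · rw [d1, Equiv.swap_apply_left, Equiv.swap_apply_of_ne_of_ne e3 e4] at h
    exact Or.inl ⟨d1.symm, h⟩
  by_cases d2 : π C = B
  · rw [d2, Equiv.swap_apply_right, Equiv.swap_apply_of_ne_of_ne e1 e2] at h
    exact Or.inr ⟨h, d2.symm⟩
  rw [Equiv.swap_apply_of_ne_of_ne d1 d2, Equiv.swap_apply_of_ne_of_ne (hf C) (Ne.symm hFC)] at h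
  exact absurd (inj _ _ h) hCF

end mv

theorem move (h2 : S_cross2) (h1 : S_cross1) : S_move := by
  intro π n w j j' hj hj' hjj G G' C F hC hF
  obtain ⟨hi, hf, h3, h4⟩ := h2 π n w j G
  have h1' := h1 π n w j G
  obtain ⟨P, hP⟩ : ∃ P : ℕ → Equiv.Perm ℤ, ∀ x, P x = pos w j n x := ⟨_, fun _ => rfl⟩
  obtain ⟨P', hP'⟩ : ∃ P' : ℕ → Equiv.Perm ℤ, ∀ x, P' x = pos w j' n x := ⟨_, fun _ => rfl⟩
  obtain ⟨A, hA⟩ : ∃ A, P (j' + 1) A = w j' := ⟨(P (j' + 1)).symm (w j'), Equiv.apply_symm_apply _ _⟩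
  obtain ⟨B, hB⟩ : ∃ B, P (j' + 1) B = w j' + 1 :=
    ⟨(P (j' + 1)).symm (w j' + 1), Equiv.apply_symm_apply _ _⟩
  have hAB : A ≠ B := by
    rintro rfl
    rw [hA] at hB
    omega
  have hCF : C ≠ F := by
    rintro rfl
    rw [hC] at hF
    omega
  have hPj : P j = P (j + 1) := by rw [hP, hP]; exact mv_del w hj
  have hPj' : P' j' = P' (j' + 1) := by rw [hP', hP']; exact mv_del w hj'
  have hPr : P j' = P (j' + 1) * Equiv.swap A B := by
    rw [Equiv.mul_swap_eq_swap_mul, hA, hB, hP, hP]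
    exact mv_real w hj' (Ne.symm hjj)
  have hPr' : P' j = Equiv.swap (w j) (w j + 1) * P' (j + 1) := by
    rw [hP', hP']
    exact mv_real w hj hjj
  have hPCF : Equiv.swap (w j) (w j + 1) * P j = P j * Equiv.swap C F := by
    rw [Equiv.mul_swap_eq_swap_mul, hP, hC, hF]
  have hhigh : ∀ x, j < x → j' < x → P' x = P x := by
    intro x hx hx'
    rw [hP, hP']
    exact mv_high w hx hx'
  have hdown : ∀ (x x₀ : ℕ) (θ : Equiv.Perm ℤ), x ≤ x₀ → x₀ ≤ n →
      (∀ t, x ≤ t → t < x₀ → t ≠ j ∧ t ≠ j') → P' x₀ = P x₀ * θ → P' x = P x * θ := by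
    intro x x₀ θ hx hx₀ hne h
    rw [hP, hP'] at h ⊢
    exact mv_down w θ hx hx₀ hne h
  have hAj : P j' A = w j' + 1 := by
    rw [hPr, Equiv.Perm.mul_apply, Equiv.swap_apply_left, hB]
  have hBj : P j' B = w j' := by
    rw [hPr, Equiv.Perm.mul_apply, Equiv.swap_apply_right, hA]
  -- P' in terms of P
  have hmid1 : j < j' → ∀ x, j < x → x ≤ j' → P' x = P x * Equiv.swap A B := by
    intro hlt x hx hx'
    refine hdown x j' _ hx' hj'.le (fun t ht ht' => ⟨by omega, by omega⟩) ?_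
    rw [hPj', hhigh (j' + 1) (by omega) (by omega), hPr, mul_assoc, Equiv.swap_mul_self, mul_one]
  have hlow1 : j < j' → ∀ x, x ≤ j → P' x = P x * (Equiv.swap C F * Equiv.swap A B) := by
    intro hlt x hx
    refine hdown x j _ hx hj.le (fun t ht ht' => ⟨by omega, by omega⟩) ?_
    rw [hPr', hmid1 hlt (j + 1) (by omega) (by omega), ← hPj, ← mul_assoc, hPCF, mul_assoc]
  have hmid2 : j' < j → ∀ x, j' < x → x ≤ j → P' x = P x * Equiv.swap C F := by
    intro hlt x hx hx'
    refine hdown x j _ hx' hj.le (fun t ht ht' => ⟨by omega, by omega⟩) ?_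
    rw [hPr', hhigh (j + 1) (by omega) (by omega), ← hPj, hPCF]
  have hlow2 : j' < j → ∀ x, x ≤ j' → P' x = P x * (Equiv.swap A B * Equiv.swap C F) := by
    intro hlt x hx
    refine hdown x j' _ hx hj'.le (fun t ht ht' => ⟨by omega, by omega⟩) ?_
    rw [hPj', hmid2 hlt (j' + 1) (by omega) (by omega), hPr, mul_assoc, ← mul_assoc (Equiv.swap A B),
      Equiv.swap_mul_self, one_mul]
  have hcap : ∀ f, P 0 (π f) = oneFpf (P 0 f) := by
    intro f; rw [hP]; exact G.cap f
  have hcap' : ∀ f, P' 0 (π f) = oneFpf (P' 0 f) := by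
    intro f; rw [hP']; exact G'.cap f
  have hcommθ : ∀ θ : Equiv.Perm ℤ, P' 0 = P 0 * θ → ∀ f, θ (π f) = π (θ f) := by
    intro θ hθ f
    have e := hcap' f
    rw [hθ, Equiv.Perm.mul_apply, Equiv.Perm.mul_apply, ← hcap] at e
    exact (P 0).injective e
  have hc : ∀ f, Equiv.swap C F (Equiv.swap A B (π f)) = π (Equiv.swap C F (Equiv.swap A B f)) := by
    rcases lt_or_gt_of_ne hjj with hlt | hlt
    · intro f
      exact hcommθ _ (hlow1 hlt 0 (Nat.zero_le _)) f
    · intro f
      have e := hcommθ _ (hlow2 hlt 0 (Nat.zero_le _)) (Equiv.swap C F (Equiv.swap A B f))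
      simp only [Equiv.Perm.mul_apply, Equiv.swap_apply_self] at e
      rw [← e, Equiv.swap_apply_self, Equiv.swap_apply_self]
  simp only [← hP] at hC hF h3 h4 h1'
  have hBA : B ≠ π A := by
    intro h
    have := h3 A (j' + 1) j' (by omega) hj'.le (by rw [← h, hA, hB]; omega)
    rw [← h, hAj, hBj] at this
    omega
  obtain ⟨hFC, hcase⟩ := mv_comb π hi hf A B C F hAB hCF hBA hc
  -- crossing at j'
  have hX1 : ∀ x, x ≤ j' → P x B < P x A := by
    intro x hx
    by_contra hcon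
    have hne : P x A ≠ P x B := fun h => hAB ((P x).injective h)
    have := h1' A B x j' (j' + 1) hx (by omega) (by omega) (by omega) (by rw [hAj, hBj]; omega)
    rw [hA, hB] at this
    omega
  have hX2 : ∀ x, j' < x → x ≤ n → P x A < P x B := by
    intro x hx hxn
    exact h1' B A j' (j' + 1) x (by omega) (by omega) hxn (by rw [hAj, hBj]; omega)
      (by rw [hA, hB]; omega)
  simp only [← hP, ← hP']
  refine ⟨hFC, ?_⟩
  rcases hcase with hs | ⟨⟨n1, n2, n3, n4⟩, hcc⟩
  · left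
    have hsw : Equiv.swap A B = Equiv.swap C F := by
      rcases hs with ⟨rfl, rfl⟩ | ⟨rfl, rfl⟩
      · rfl
      · exact Equiv.swap_comm _ _
    refine ⟨?_, ?_, ?_, ?_⟩
    · intro x hx
      rcases lt_or_gt_of_ne hjj with hlt | hlt
      · rw [min_eq_left hlt.le, max_eq_right hlt.le]
        rcases le_or_gt x j with g1 | g1
        · rw [if_neg (by omega), hlow1 hlt x g1, hsw, Equiv.swap_mul_self]
        · rcases le_or_gt x j' with g2 | g2
          · rw [if_pos ⟨g1, g2⟩, hmid1 hlt x g1 g2, hsw]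
          · rw [if_neg (by omega), hhigh x g1 g2, mul_one]
      · rw [min_eq_right hlt.le, max_eq_left hlt.le]
        rcases le_or_gt x j' with g1 | g1
        · rw [if_neg (by omega), hlow2 hlt x g1, hsw, Equiv.swap_mul_self]
        · rcases le_or_gt x j with g2 | g2
          · rw [if_pos ⟨g1, g2⟩, hmid2 hlt x g1 g2]
          · rw [if_neg (by omega), hhigh x g2 g1, mul_one]
    · rcases lt_or_gt_of_ne hjj with hlt | hlt
      · have g := hX1 j hlt.le
        have hCB : C = B := by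
          rcases hs with ⟨rfl, rfl⟩ | ⟨rfl, rfl⟩
          · omega
          · rfl
        rw [hPj', hhigh (j' + 1) (by omega) (by omega), hCB, hB]
      · have g := hX2 j hlt hj.le
        have hFB : F = B := by
          rcases hs with ⟨rfl, rfl⟩ | ⟨rfl, rfl⟩
          · rfl
          · omega
        rw [hPj', hmid2 hlt (j' + 1) (by omega) (by omega), Equiv.Perm.mul_apply,
          Equiv.swap_apply_left, hFB, hB]
    · intro hlt
      have g := hX2 j hlt hj.le
      have hFB : C = A ∧ F = B := by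
        rcases hs with ⟨rfl, rfl⟩ | ⟨rfl, rfl⟩
        · exact ⟨rfl, rfl⟩
        · omega
      rw [hFB.1, hFB.2]
      exact ⟨hX1, hX2⟩
    · intro hlt
      have g := hX1 j hlt.le
      have hFB : C = B ∧ F = A := by
        rcases hs with ⟨rfl, rfl⟩ | ⟨rfl, rfl⟩
        · omega
        · exact ⟨rfl, rfl⟩
      rw [hFB.1, hFB.2]
      exact ⟨hX1, hX2⟩
  · right
    have h4' := h4 C F (Ne.symm hCF) hFC
    have hPC : P j' C = P (j' + 1) C := by
      rw [hPr, Equiv.Perm.mul_apply, Equiv.swap_apply_of_ne_of_ne (Ne.symm n1) (Ne.symm n3)]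
    have hPF : P j' F = P (j' + 1) F := by
      rw [hPr, Equiv.Perm.mul_apply, Equiv.swap_apply_of_ne_of_ne (Ne.symm n2) (Ne.symm n4)]
    have hswap : (P j' (π C) < P j' (π F)) ↔ ¬ (P (j' + 1) (π C) < P (j' + 1) (π F)) := by
      rcases hcc with ⟨rfl, rfl⟩ | ⟨rfl, rfl⟩ <;> rw [hA, hB, hAj, hBj] <;> constructor <;> intro _ <;> omega
    have q1 := h4' j' (j' + 1) (by omega) (by omega)
    have hlow : ¬ (P (j' + 1) C < P (j' + 1) F ↔ P (j' + 1) (π C) < P (j' + 1) (π F)) := by
      intro hh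
      have hq := (q1.1 hh).2
      rw [hq] at hswap
      exact iff_not_self hswap
    have hup : (P j' C < P j' F ↔ P j' (π C) < P j' (π F)) := by
      by_contra hh
      have hq := (q1.2 hh).2
      rw [hq] at hswap
      exact iff_not_self hswap
    have hconst : ∀ x, x ≤ n → (P x C < P x F ↔ P j' C < P j' F) := by
      intro x hx
      rcases le_or_gt x j' with g | g
      · exact ((h4' x j' g hj'.le).1 hup).1
      · have := ((h4' (j' + 1) x (by omega) hx).2 hlow).1
        rw [hPC, hPF]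
        exact this.symm
    have hj1 : P j C < P j F := by rw [hC, hF]; omega
    have hj'1 : P j' C < P j' F := (hconst j hj.le).1 hj1
    have hj'2 : P j' (π C) < P j' (π F) := hup.1 hj'1
    have hBA' : A = π F ∧ B = π C := by
      rcases hcc with ⟨rfl, rfl⟩ | ⟨rfl, rfl⟩
      · rw [hAj, hBj] at hj'2; omega
      · exact ⟨rfl, rfl⟩
    obtain ⟨eA, eB⟩ := hBA'
    have hsw : Equiv.swap A B = Equiv.swap (π C) (π F) := by
      rw [eA, eB]; exact Equiv.swap_comm _ _
    have hdisj : Equiv.swap A B * Equiv.swap C F = Equiv.swap C F * Equiv.swap A B := by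
      rw [Equiv.mul_swap_eq_swap_mul, Equiv.swap_apply_of_ne_of_ne (Ne.symm n1) (Ne.symm n3),
        Equiv.swap_apply_of_ne_of_ne (Ne.symm n2) (Ne.symm n4)]
    refine ⟨?_, ?_, ?_, ?_, ?_⟩
    · intro x hx
      rcases lt_or_gt_of_ne hjj with hlt | hlt
      · rcases le_or_gt x j with g1 | g1
        · rw [if_pos g1, if_pos (by omega), hlow1 hlt x g1, hsw, mul_assoc]
        · rcases le_or_gt x j' with g2 | g2
          · rw [if_neg (by omega), if_pos g2, hmid1 hlt x g1 g2, hsw, mul_one]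
          · rw [if_neg (by omega), if_neg (by omega), hhigh x g1 g2, mul_one, mul_one]
      · rcases le_or_gt x j' with g1 | g1
        · rw [if_pos (by omega), if_pos g1, hlow2 hlt x g1, hdisj, hsw, mul_assoc]
        · rcases le_or_gt x j with g2 | g2
          · rw [if_pos g2, if_neg (by omega), hmid2 hlt x g1 g2, mul_one]
          · rw [if_neg (by omega), if_neg (by omega), hhigh x g2 g1, mul_one, mul_one]
    · rcases lt_or_gt_of_ne hjj with hlt | hlt
      · rw [hPj', hhigh (j' + 1) (by omega) (by omega), ← eB, hB]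
      · rw [hPj', hmid2 hlt (j' + 1) (by omega) (by omega), Equiv.Perm.mul_apply,
          Equiv.swap_apply_of_ne_of_ne (hf C) (Ne.symm hFC), ← eB, hB]
    · intro x hx
      exact (hconst x hx).2 hj'1
    · intro x hx
      rw [← eA, ← eB]
      exact hX1 x hx
    · intro x hx hxn
      rw [← eA, ← eB]
      exact hX2 x hx hxn

end Pool.Agent.H156.Fpf
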