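import Pool.Agent.H156.Fpf.Good

/-!
# A chain of good diagrams is an abstract run
-/

set_option autoImplicit false

namespace Pool.Agent.H156.Fpf

namespace TR

theorem stepPerm_update (v : ℕ → ℤ) (j : ℕ) (c : ℤ) :
    stepPerm (Function.update v j c) j = stepPerm v j := by
  funext t
  unfold stepPerm
  by_cases h : t = j
  · rw [if_pos h, if_pos h]
  · rw [if_neg h, if_neg h, Function.update_of_ne h]

theorem pos_update (v : ℕ → ℤ) (j n x : ℕ) (c : ℤ) :
    pos (Function.update v j c) j n x = pos v j n x := by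
  unfold pos
  rw [stepPerm_update]

theorem good_update {π : Equiv.Perm ℤ} {n : ℕ} {v : ℕ → ℤ} {j : ℕ} (c : ℤ) (h : Good π n v j) :
    Good π n (Function.update v j c) j := by
  constructor
  · intro f
    rw [pos_update]
    exact h.cap f
  · intro t ht htj f g hf hg
    rw [pos_update, Function.update_of_ne htj] at hf hg
    rw [pos_update]
    exact h.asc t ht htj f g hf hg

/-- the marked label -/
def rho (n : ℕ) (V : ℕ → ℕ → ℤ) (J : ℕ → ℕ) (τ : ℕ) : ℤ :=
  (pos (V τ) (J τ) n (J τ)).symm (V τ (J τ) + 1)

theorem rho_spec (n : ℕ) (V : ℕ → ℕ → ℤ) (J : ℕ → ℕ) (τ : ℕ) :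
    pos (V τ) (J τ) n (J τ) (rho n V J τ) = V τ (J τ) + 1 :=
  Equiv.apply_symm_apply _ _

theorem rho_eq {n : ℕ} {V : ℕ → ℕ → ℤ} {J : ℕ → ℕ} {τ : ℕ} {C : ℤ}
    (h : pos (V τ) (J τ) n (J τ) C = V τ (J τ) + 1) : rho n V J τ = C :=
  (Equiv.symm_apply_eq _).2 h.symm

/-- the run -/
def mkR (n N : ℕ) (V : ℕ → ℕ → ℤ) (J : ℕ → ℕ) (p q : ℤ) : RunData where
  n := n
  N := N
  p := p
  q := q
  J := J
  up := fun τ => decide (rho n V J τ = q)
  v := V
  P := fun τ x => pos (V τ) (J τ) n x

section cov

variable {n N : ℕ} {V : ℕ → ℕ → ℤ} {J : ℕ → ℕ} {p q : ℤ}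

theorem lc_up {τ : ℕ} (h : rho n V J τ = q) : (mkR n N V J p q).lc τ = 2 * (J τ : ℤ) + 2 := by
  unfold RunData.lc loc mkR
  simp [h]

theorem lc_dn {τ : ℕ} (h : rho n V J τ ≠ q) : (mkR n N V J p q).lc τ = -(2 * (J τ : ℤ) + 2) := by
  unfold RunData.lc loc mkR
  simp [h]

theorem up_true {τ : ℕ} (h : rho n V J τ = q) : (mkR n N V J p q).up τ = true := by
  unfold mkR
  simp [h]

theorem up_false {τ : ℕ} (h : rho n V J τ ≠ q) : (mkR n N V J p q).up τ = false := by
  unfold mkR
  simp [h]

theorem covL_iff {τ x : ℕ} {a b : ℤ} (ha : (mkR n N V J p q).lc τ = a)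
    (hb : (mkR n N V J p q).lc (τ + 1) = b) :
    (mkR n N V J p q).covL τ x ↔ (a < -(2 * (x : ℤ) + 1) ∧ -(2 * (x : ℤ) + 1) < b) ∨
      (b < -(2 * (x : ℤ) + 1) ∧ -(2 * (x : ℤ) + 1) < a) := by
  unfold RunData.covL
  rw [ha, hb]
  rfl

theorem covU_iff {τ x : ℕ} {a b : ℤ} (ha : (mkR n N V J p q).lc τ = a)
    (hb : (mkR n N V J p q).lc (τ + 1) = b) :
    (mkR n N V J p q).covU τ x ↔ (a < 2 * (x : ℤ) + 1 ∧ 2 * (x : ℤ) + 1 < b) ∨
      (b < 2 * (x : ℤ) + 1 ∧ 2 * (x : ℤ) + 1 < a) := by
  unfold RunData.covU
  rw [ha, hb]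
  rfl

end cov

/-- one step of the chain -/
theorem step (h2 : S_cross2) (hm : S_move) {π : Equiv.Perm ℤ} {n N : ℕ} {V : ℕ → ℕ → ℤ}
    {J : ℕ → ℕ} (hC : Chain π n N V J) {p q : ℤ} (hpq : p < q) (hp : π p = q) (hq : π q = p)
    (hord : ∀ τ < N, ∀ x ≤ n, pos (V τ) (J τ) n x p < pos (V τ) (J τ) n x q)
    (hz : ∀ τ < N, pos (V τ) (J τ) n 0 q = pos (V τ) (J τ) n 0 p + 1)
    {τ : ℕ} (hτ : τ + 1 < N) (hρ : rho n V J τ = p ∨ rho n V J τ = q) :
    (rho n V J (τ + 1) = p ∨ rho n V J (τ + 1) = q) ∧
      ((mkR n N V J p q).IsJump τ ∨ ∃ a b, (mkR n N V J p q).IsMove τ a b) := by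
  classical
  have hτ0 : τ < N := by omega
  obtain ⟨hinv, hfix, -, -⟩ := h2 π n (V τ) (J τ) (hC.good τ hτ0)
  have hpne : p ≠ q := hpq.ne
  obtain ⟨w, hw⟩ : ∃ w, w = V (τ + 1) := ⟨_, rfl⟩
  have hw' : w = Function.update (V τ) (J τ) (V τ (J τ) + 1) := by rw [hw]; exact hC.push τ hτ0
  have hposw : ∀ x, pos w (J τ) n x = pos (V τ) (J τ) n x := fun x => by rw [hw', pos_update]
  have hgoodw : Good π n w (J τ) := by rw [hw']; exact good_update _ (hC.good τ hτ0)
  have hwj : w (J τ) = V τ (J τ) + 1 := by rw [hw', Function.update_self]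
  obtain ⟨C, hCdef⟩ : ∃ C, C = rho n V J τ := ⟨_, rfl⟩
  have hCpos : pos w (J τ) n (J τ) C = w (J τ) := by
    rw [hposw, hwj, hCdef]
    exact rho_spec n V J τ
  obtain ⟨F, hFdef⟩ : ∃ F, F = (pos w (J τ) n (J τ)).symm (w (J τ) + 1) := ⟨_, rfl⟩
  have hFpos : pos w (J τ) n (J τ) F = w (J τ) + 1 := by
    rw [hFdef]
    exact Equiv.apply_symm_apply _ _
  have hFC : F ≠ C := by
    rintro h
    rw [h, hCpos] at hFpos
    omega
  rw [← hCdef] at hρ
  by_cases hJ : J (τ + 1) = J τ
  · -- a jump
    have hF : F = π C := by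
      refine hC.semi τ hτ hJ C F ?_ ?_
      · rw [← hposw, hCpos, hwj]
      · rw [← hposw, hFpos, hwj]
        ring
    have hjn : J τ ≤ n := (hC.hJ τ hτ0).le
    have hCp : C = p := by
      rcases hρ with h | h
      · exact h
      · exfalso
        have h1 := hord τ hτ0 (J τ) hjn
        rw [← hposw] at h1
        rw [h] at hCpos hF
        rw [hq] at hF
        rw [hF] at hFpos
        omega
    have hFq : F = q := by rw [hF, hCp, hp]
    have hr1 : rho n V J (τ + 1) = q := by
      apply rho_eq
      rw [← hw, hJ, ← hFq]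
      exact hFpos
    refine ⟨Or.inr hr1, Or.inl ⟨hτ, ?_, up_true hr1, hJ, ?_, ?_⟩⟩
    · apply up_false
      rw [← hCdef, hCp]
      exact hpne
    · intro x _
      show pos (V (τ + 1)) (J (τ + 1)) n x = pos (V τ) (J τ) n x
      rw [← hw, hJ, hposw]
    · show pos (V τ) (J τ) n (J τ) q = pos (V τ) (J τ) n (J τ) p + 1
      rw [← hposw, ← hFq, ← hCp, hFpos, hCpos]
  · -- a move
    have hj : J τ < n := hC.hJ τ hτ0
    have hj' : J (τ + 1) < n := hC.hJ _ hτ
    have hgood' : Good π n w (J (τ + 1)) := by rw [hw]; exact hC.good _ hτ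
    obtain ⟨hFπ, hcase⟩ := hm π n w (J τ) (J (τ + 1)) hj hj' (fun h => hJ h.symm) hgoodw hgood'
      C F hCpos hFpos
    have hPτ : ∀ x, (mkR n N V J p q).P τ x = pos w (J τ) n x := fun x => (hposw x).symm
    have hPτ' : ∀ x, (mkR n N V J p q).P (τ + 1) x = pos w (J (τ + 1)) n x := fun x => by
      rw [hw]; rfl
    have hz0 : pos w (J τ) n 0 q = pos w (J τ) n 0 p + 1 := by
      rw [hposw]; exact hz τ hτ0
    have hπF : π F ≠ F := hfix F
    rcases hρ with hCp | hCq
    · -- `C = p`
      have hFp : F ≠ p := fun h => hFC (h.trans hCp.symm)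
      have hFq : F ≠ q := fun h => hFπ (by rw [h, hCp, hp])
      have hπFp : π F ≠ p := fun h => hFq (by rw [← hinv F, h, hp])
      have hπFq : π F ≠ q := fun h => hFp (by rw [← hinv F, h, hq])
      have hρτ : rho n V J τ ≠ q := by rw [← hCdef, hCp]; exact hpne
      have hlc := lc_dn (N := N) (p := p) hρτ
      have hup := up_false (N := N) (p := p) hρτ
      rw [hCp] at hcase hCpos
      rcases hcase with ⟨hs1, hs2, hs3, hs4⟩ | ⟨hc1, hc2, hc3, hc4, hc5⟩
      · -- s-type
        have hr1 : rho n V J (τ + 1) = p := by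
          apply rho_eq
          rw [← hw]
          exact hs2
        have hρτ' : rho n V J (τ + 1) ≠ q := by rw [hr1]; exact hpne
        have hlc' := lc_dn (N := N) (p := p) hρτ'
        have hup' := up_false (N := N) (p := p) hρτ'
        have hL : ∀ x, (mkR n N V J p q).covL τ x ↔
            min (J τ) (J (τ + 1)) < x ∧ x ≤ max (J τ) (J (τ + 1)) := by
          intro x
          rw [covL_iff hlc hlc']
          omega
        have hU : ∀ x, ¬ (mkR n N V J p q).covU τ x := by
          intro x
          rw [covU_iff hlc hlc']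
          omega
        refine ⟨Or.inl hr1, Or.inr ⟨F, π F, ⟨hτ, hJ, hFp, hFq, hπFp, hπFq, hπF.symm, ?_, ?_, ?_,
          ?_, ?_, ?_, ?_, ?_, ?_, ?_, ?_⟩⟩⟩
        · intro x hx
          rw [hPτ', hPτ, hs1 x hx, if_neg (hU x), mul_one]
          by_cases h : min (J τ) (J (τ + 1)) < x ∧ x ≤ max (J τ) (J (τ + 1))
          · rw [if_pos h, if_pos ((hL x).2 h)]
            rfl
          · rw [if_neg h, if_neg (fun h' => h ((hL x).1 h'))]
        · intro x hx hcov
          rw [hPτ]
          have hcov' := (hL x).1 hcov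
          rcases lt_or_gt_of_ne hJ with h | h
          · exact (hs3 h).2 x (by omega) hx
          · exact (hs4 h).1 x (by omega)
        · intro x _ hcov
          exact absurd hcov (hU x)
        · intro _ h
          rw [hup] at h
          exact absurd h (by decide)
        · intro _ h
          rw [hup] at h
          exact absurd h (by decide)
        · intro h
          exact absurd (hup.trans hup'.symm) h
        · intro _
          rw [hPτ]
          show pos w (J τ) n (J τ) F = pos w (J τ) n (J τ) p + 1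
          rw [hFpos, hCpos]
        · intro h _ x hx
          rw [hlc, hlc'] at h
          rw [hPτ]
          exact (hs3 (by omega)).1 x hx
        · intro _ h
          rw [hup'] at h
          exact absurd h (by decide)
        · intro h _ x hx
          rw [hlc, hlc'] at h
          rw [hPτ]
          exact (hs4 (by omega)).1 x hx
        · intro h _ x hx hxn
          rw [hlc, hlc'] at h
          rw [hPτ]
          exact (hs4 (by omega)).2 x hx hxn
      · -- c-type
        rw [hp] at hc1 hc2 hc4 hc5
        have hr1 : rho n V J (τ + 1) = q := by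
          apply rho_eq
          rw [← hw]
          exact hc2
        have hlc' := lc_up (N := N) (p := p) hr1
        have hup' := up_true (N := N) (p := p) hr1
        have hL : ∀ x, (mkR n N V J p q).covL τ x ↔ x ≤ J τ := by
          intro x
          rw [covL_iff hlc hlc']
          omega
        have hU : ∀ x, (mkR n N V J p q).covU τ x ↔ x ≤ J (τ + 1) := by
          intro x
          rw [covU_iff hlc hlc']
          omega
        refine ⟨Or.inr hr1, Or.inr ⟨F, π F, ⟨hτ, hJ, hFp, hFq, hπFp, hπFq, hπF.symm, ?_, ?_, ?_,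
          ?_, ?_, ?_, ?_, ?_, ?_, ?_, ?_⟩⟩⟩
        · intro x hx
          rw [hPτ', hPτ, hc1 x hx]
          have e1 : (if x ≤ J τ then Equiv.swap p F else 1) =
              (if (mkR n N V J p q).covL τ x then Equiv.swap (mkR n N V J p q).p F else 1) := by
            by_cases h : x ≤ J τ
            · rw [if_pos h, if_pos ((hL x).2 h)]
              rfl
            · rw [if_neg h, if_neg (fun h' => h ((hL x).1 h'))]
          have e2 : (if x ≤ J (τ + 1) then Equiv.swap q (π F) else 1) =
              (if (mkR n N V J p q).covU τ x then Equiv.swap (mkR n N V J p q).q (π F) else 1) := by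
            by_cases h : x ≤ J (τ + 1)
            · rw [if_pos h, if_pos ((hU x).2 h)]
              rfl
            · rw [if_neg h, if_neg (fun h' => h ((hU x).1 h'))]
          rw [e1, e2]
        · intro x hx _
          rw [hPτ]
          exact hc3 x hx
        · intro x _ hcov
          rw [hPτ]
          exact hc4 x ((hU x).1 hcov)
        · intro _ h
          rw [hup] at h
          exact absurd h (by decide)
        · intro _ h
          rw [hup] at h
          exact absurd h (by decide)
        · intro _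
          rw [hPτ]
          exact ⟨hc3 0 (Nat.zero_le _), hc4 0 (Nat.zero_le _)⟩
        · intro _
          rw [hPτ]
          show pos w (J τ) n (J τ) F = pos w (J τ) n (J τ) p + 1
          rw [hFpos, hCpos]
        · intro _ h
          rw [hup'] at h
          exact absurd h (by decide)
        · intro _ _ x hx
          rw [hPτ]
          exact hc4 x hx
        · intro _ h
          rw [hup'] at h
          exact absurd h (by decide)
        · intro _ h
          rw [hup'] at h
          exact absurd h (by decide)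
    · -- `C = q`
      have hFq : F ≠ q := fun h => hFC (h.trans hCq.symm)
      have hFp : F ≠ p := fun h => hFπ (by rw [h, hCq, hq])
      have hπFp : π F ≠ p := fun h => hFq (by rw [← hinv F, h, hp])
      have hπFq : π F ≠ q := fun h => hFp (by rw [← hinv F, h, hq])
      have hρτ : rho n V J τ = q := by rw [← hCdef, hCq]
      have hlc := lc_up (N := N) (p := p) hρτ
      have hup := up_true (N := N) (p := p) hρτ
      rw [hCq] at hcase hCpos
      rcases hcase with ⟨hs1, hs2, hs3, hs4⟩ | ⟨hc1, hc2, hc3, hc4, hc5⟩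
      · -- s-type
        have hr1 : rho n V J (τ + 1) = q := by
          apply rho_eq
          rw [← hw]
          exact hs2
        have hlc' := lc_up (N := N) (p := p) hr1
        have hup' := up_true (N := N) (p := p) hr1
        have hU : ∀ x, (mkR n N V J p q).covU τ x ↔
            min (J τ) (J (τ + 1)) < x ∧ x ≤ max (J τ) (J (τ + 1)) := by
          intro x
          rw [covU_iff hlc hlc']
          omega
        have hL : ∀ x, ¬ (mkR n N V J p q).covL τ x := by
          intro x
          rw [covL_iff hlc hlc']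
          omega
        refine ⟨Or.inr hr1, Or.inr ⟨π F, F, ⟨hτ, hJ, hπFp, hπFq, hFp, hFq, hπF, ?_, ?_, ?_,
          ?_, ?_, ?_, ?_, ?_, ?_, ?_, ?_⟩⟩⟩
        · intro x hx
          rw [hPτ', hPτ, hs1 x hx, if_neg (hL x), mul_one]
          by_cases h : min (J τ) (J (τ + 1)) < x ∧ x ≤ max (J τ) (J (τ + 1))
          · rw [if_pos h, if_pos ((hU x).2 h)]
            rfl
          · rw [if_neg h, if_neg (fun h' => h ((hU x).1 h'))]
        · intro x _ hcov
          exact absurd hcov (hL x)
        · intro x hx hcov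
          rw [hPτ]
          have hcov' := (hU x).1 hcov
          rcases lt_or_gt_of_ne hJ with h | h
          · exact (hs3 h).2 x (by omega) hx
          · exact (hs4 h).1 x (by omega)
        · intro h _
          rw [hlc, hlc'] at h
          have h1 := (hs3 (by omega)).1 0 (Nat.zero_le _)
          rw [hPτ', hs1 0 (Nat.zero_le _), if_neg (by omega), mul_one]
          show pos w (J τ) n 0 F < pos w (J τ) n 0 p
          have h3 : pos w (J τ) n 0 F ≠ pos w (J τ) n 0 p := fun h4 =>
            hFp ((pos w (J τ) n 0).injective h4)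
          omega
        · intro h _ x hx hxn
          rw [hlc, hlc'] at h
          rw [hPτ]
          exact (hs3 (by omega)).2 x (by
            have : J τ ≤ x := hx
            omega) hxn
        · intro h
          exact absurd (hup.trans hup'.symm) h
        · intro h
          rw [hup] at h
          exact absurd h (by decide)
        · intro _ h
          rw [hup'] at h
          exact absurd h (by decide)
        · intro h _ x hx
          rw [hlc, hlc'] at h
          rw [hPτ]
          exact (hs4 (by omega)).1 x hx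
        · intro _ h
          rw [hup'] at h
          exact absurd h (by decide)
        · intro _ h
          rw [hup'] at h
          exact absurd h (by decide)
      · -- c-type
        rw [hq] at hc1 hc2 hc4 hc5
        have hr1 : rho n V J (τ + 1) = p := by
          apply rho_eq
          rw [← hw]
          exact hc2
        have hρτ' : rho n V J (τ + 1) ≠ q := by rw [hr1]; exact hpne
        have hlc' := lc_dn (N := N) (p := p) hρτ'
        have hup' := up_false (N := N) (p := p) hρτ'
        have hL : ∀ x, (mkR n N V J p q).covL τ x ↔ x ≤ J (τ + 1) := by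
          intro x
          rw [covL_iff hlc hlc']
          omega
        have hU : ∀ x, (mkR n N V J p q).covU τ x ↔ x ≤ J τ := by
          intro x
          rw [covU_iff hlc hlc']
          omega
        have hcomm : Equiv.swap q F * Equiv.swap p (π F) = Equiv.swap p (π F) * Equiv.swap q F := by
          have h3 : Equiv.Perm.Disjoint (Equiv.swap q F) (Equiv.swap p (π F)) := by
            apply Equiv.Perm.disjoint_swap_swap
            simp only [List.nodup_cons, List.mem_cons, List.not_mem_nil, or_false, not_or,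
              not_false_eq_true, List.nodup_nil, and_true]
            exact ⟨⟨hFq.symm, hpne.symm, hπFq.symm⟩, ⟨hFp, hπF.symm⟩, hπFp.symm⟩
          exact h3.commute.eq
        refine ⟨Or.inl hr1, Or.inr ⟨π F, F, ⟨hτ, hJ, hπFp, hπFq, hFp, hFq, hπF, ?_, ?_, ?_,
          ?_, ?_, ?_, ?_, ?_, ?_, ?_, ?_⟩⟩⟩
        · intro x hx
          rw [hPτ', hPτ, hc1 x hx]
          by_cases h : x ≤ J τ
          · rw [if_pos h, if_pos ((hU x).2 h)]
            by_cases h' : x ≤ J (τ + 1)
            · rw [if_pos h', if_pos ((hL x).2 h'), mul_assoc, hcomm, ← mul_assoc]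
              rfl
            · rw [if_neg h', if_neg (fun h'' => h' ((hL x).1 h'')), mul_one, mul_one]
              rfl
          · rw [if_neg h, if_neg (fun h'' => h ((hU x).1 h''))]
            by_cases h' : x ≤ J (τ + 1)
            · rw [if_pos h', if_pos ((hL x).2 h'), mul_one, mul_one]
              rfl
            · rw [if_neg h', if_neg (fun h'' => h' ((hL x).1 h''))]
        · intro x _ hcov
          rw [hPτ]
          exact hc4 x ((hL x).1 hcov)
        · intro x hx _
          rw [hPτ]
          exact hc3 x hx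
        · intro _ _
          have h1 := hc4 0 (Nat.zero_le _)
          rw [hPτ', hc1 0 (Nat.zero_le _), if_pos (Nat.zero_le _), if_pos (Nat.zero_le _)]
          show pos w (J τ) n 0 (Equiv.swap q F (Equiv.swap p (π F) F)) <
            pos w (J τ) n 0 (Equiv.swap q F (Equiv.swap p (π F) p))
          rw [Equiv.swap_apply_of_ne_of_ne hFp hπF.symm, Equiv.swap_apply_right,
            Equiv.swap_apply_left, Equiv.swap_apply_of_ne_of_ne hπFq hπF]
          have h3 : pos w (J τ) n 0 (π F) ≠ pos w (J τ) n 0 q := fun h4 =>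
            hπFq ((pos w (J τ) n 0).injective h4)
          omega
        · intro _ _ x _ hxn
          rw [hPτ]
          exact hc3 x hxn
        · intro _
          rw [hPτ]
          exact ⟨hc4 0 (Nat.zero_le _), hc3 0 (Nat.zero_le _)⟩
        · intro h
          rw [hup] at h
          exact absurd h (by decide)
        · intro h _
          rw [hlc, hlc'] at h
          omega
        · intro _ h
          rw [hup'] at h
          exact absurd h (by decide)
        · intro _ _ x hx
          rw [hPτ]
          exact hc4 x hx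
        · intro _ _ x hx hxn
          rw [hPτ]
          exact hc5 x hx hxn

end TR

open TR

/-- a chain gives a run. -/
theorem toRun : S_toRun := by
  intro h2 h1 hm π n N V J hC hN
  obtain ⟨hinv, hfix, -, -⟩ := h2 π n (V 0) (J 0) (hC.good 0 hN)
  obtain ⟨p, q, hpq, hp, hq, h0⟩ : ∃ p q : ℤ, p < q ∧ π p = q ∧ π q = p ∧
      (rho n V J 0 = p ∨ rho n V J 0 = q) := by
    rcases lt_or_gt_of_ne (hfix (rho n V J 0)) with h | h
    · exact ⟨_, _, h, hinv _, rfl, Or.inr rfl⟩
    · exact ⟨_, _, h, rfl, hinv _, Or.inl rfl⟩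
  have hord : ∀ τ < N, ∀ x ≤ n, pos (V τ) (J τ) n x p < pos (V τ) (J τ) n x q := by
    intro τ hτ x hx
    obtain ⟨-, -, h3, -⟩ := h2 π n (V τ) (J τ) (hC.good τ hτ)
    have h4 := h3 p n x le_rfl hx
    rw [hp, pos_last] at h4
    exact h4 hpq
  have hz : ∀ τ < N, pos (V τ) (J τ) n 0 q = pos (V τ) (J τ) n 0 p + 1 := by
    intro τ hτ
    have h3 := (hC.good τ hτ).cap p
    have h4 := hord τ hτ 0 (Nat.zero_le _)
    rw [hp] at h3
    have h5 : oneFpf (pos (V τ) (J τ) n 0 p) = fpfFun (pos (V τ) (J τ) n 0 p) := rfl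
    rw [h5] at h3
    unfold fpfFun at h3
    split_ifs at h3 with h6
    · omega
    · exact h3
  have hρ : ∀ τ, τ < N → rho n V J τ = p ∨ rho n V J τ = q := by
    intro τ
    induction τ with
    | zero => exact fun _ => h0
    | succ τ ih => exact fun hτ => (step h2 hm hC hpq hp hq hord hz hτ (ih (by omega))).1
  refine ⟨mkR n N V J p q, ⟨hC.hJ, ?_, ?_, hz, hord, ?_, ?_, ?_⟩, rfl, rfl, rfl⟩
  · intro τ hτ t
    show V (τ + 1) t = if t = J τ then V τ t + 1 else V τ t
    rw [hC.push τ hτ, Function.update_apply]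
    by_cases h : t = J τ
    · rw [if_pos h, if_pos h, h]
    · rw [if_neg h, if_neg h]
  · intro τ _ t ht
    exact pos_step (V τ) (J τ) n t ht
  · intro τ hτ f g x y z hxy hyz hzn
    exact h1 π n (V τ) (J τ) (hC.good τ hτ) f g x y z hxy hyz hzn
  · intro τ hτ
    show pos (V τ) (J τ) n (J τ) (if (mkR n N V J p q).up τ then q else p) = V τ (J τ) + 1
    rcases hρ τ hτ with h | h
    · have h3 : rho n V J τ ≠ q := by rw [h]; exact hpq.ne
      rw [up_false (N := N) (p := p) h3, if_neg (by decide), ← h]
      exact rho_spec n V J τ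
    · rw [up_true (N := N) (p := p) h, if_pos rfl, ← h]
      exact rho_spec n V J τ
  · intro τ hτ
    exact (step h2 hm hC hpq hp hq hord hz hτ (hρ τ (by
      have : τ + 1 < N := hτ
      omega))).2

end Pool.Agent.H156.Fpf
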