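import Pool.Agent.H156.Fpf.Words

/-!
Translation of a chain of `fpush` steps into a chain of good diagrams.
-/

namespace Pool.Agent.H156.Fpf

/-- the word as a function. -/
def fw (w : List ℤ) (t : ℕ) : ℤ := w.getD t 0

theorem fw_eq (w : List ℤ) (t : ℕ) (ht : t < w.length) : fw w t = w[t] := by
  unfold fw
  exact List.getD_eq_getElem _ _ ht

theorem pos_right (w : List ℤ) (i : ℕ) : ∀ k x, x + k = w.length → i < x →
    pos (fw w) i w.length x = wordProd (w.drop x) := by
  intro k
  induction k with
  | zero =>
    intro x hx _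
    have : x = w.length := by omega
    subst this
    rw [pos_last]; simp [wordProd_nil]
  | succ k ih =>
    intro x hx hi
    have hlt : x < w.length := by omega
    rw [pos_step _ _ _ _ hlt, ih (x + 1) (by omega) (by omega), drop_succ_prod w x hlt,
      stepPerm, if_neg (by omega), fw_eq w x hlt]
    rfl

theorem pos_left (w : List ℤ) (i : ℕ) (hi : i < w.length) : ∀ k x, x + k = i →
    pos (fw w) i w.length x = wordProd ((w.eraseIdx i).drop x) := by
  intro k
  induction k with
  | zero =>
    intro x hx
    have : x = i := by omega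
    subst this
    rw [pos_step _ _ _ _ hi, stepPerm, if_pos rfl, one_mul,
      pos_right w x (w.length - (x + 1)) (x + 1) (by omega) (by omega)]
    congr 1
    rw [List.eraseIdx_eq_take_drop_succ, List.drop_append]
    simp [List.length_take, Nat.min_eq_left hi.le]
  | succ k ih =>
    intro x hx
    have hlt : x < w.length := by omega
    have hle : (w.eraseIdx i).length = w.length - 1 := List.length_eraseIdx_of_lt hi
    have hlt' : x < (w.eraseIdx i).length := by omega
    rw [pos_step _ _ _ _ hlt, ih (x + 1) (by omega), drop_succ_prod _ x hlt',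
      stepPerm, if_neg (by omega), fw_eq w x hlt, List.getElem_eraseIdx_of_lt hlt' (by omega)]
    rfl

theorem erase_drop (w : List ℤ) (i x : ℕ) (hi : i < w.length) (hx : i ≤ x) :
    (w.eraseIdx i).drop x = w.drop (x + 1) := by
  rw [List.eraseIdx_eq_take_drop_succ, List.drop_append]
  have h1 : (w.take i).drop x = [] := by
    apply List.drop_eq_nil_of_le; simp; omega
  rw [h1, List.nil_append, List.drop_drop, List.length_take, Nat.min_eq_left hi.le]
  congr 1; omega

/-- marked words give good diagrams. -/
theorem good_of_marked {π : Equiv.Perm ℤ} {w : List ℤ} {i : ℕ} (h : Marked π w i) :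
    Good π w.length (fw w) i := by
  obtain ⟨hi, hR⟩ := h
  obtain ⟨hc, hmin⟩ := RSp_min hR
  have hle : (w.eraseIdx i).length = w.length - 1 := List.length_eraseIdx_of_lt hi
  have hasc := asc_of_min (π := π) (u := w.eraseIdx i) hc hmin
  constructor
  · intro f
    have h0 : pos (fw w) i w.length 0 = wordProd (w.eraseIdx i) := by
      rw [pos_left w i hi i 0 (by omega), List.drop_zero]
    rw [h0]
    exact cj_apply hc f
  · intro t ht hti f g hf hg
    rcases Nat.lt_or_ge t i with hlt | hge
    · rw [pos_left w i hi (i - t) t (by omega)] at hf hg ⊢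
      have ht' : t < (w.eraseIdx i).length := by omega
      have e : (w.eraseIdx i)[t] = fw w t := by
        rw [fw_eq w t ht, List.getElem_eraseIdx_of_lt ht' hlt]
      exact hasc t ht' f g (by rw [hf, e]) (by rw [hg, e])
    · have hgt : i < t := by omega
      rw [pos_right w i (w.length - t) t (by omega) hgt] at hf hg ⊢
      have ht' : t - 1 < (w.eraseIdx i).length := by omega
      have e : (w.eraseIdx i)[t - 1] = fw w t := by
        rw [fw_eq w t ht, List.getElem_eraseIdx_of_ge ht' (by omega)]
        congr 1; omega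
      have e2 : (w.eraseIdx i).drop (t - 1) = w.drop t := by
        rw [erase_drop w i (t - 1) hi (by omega)]; congr 1; omega
      have := hasc (t - 1) ht' f g (by rw [e2, hf, e]) (by rw [e2, hg, e])
      rw [e2] at this
      exact this

theorem erase_prod (w : List ℤ) (i : ℕ) (hi : i < w.length) (f g : ℤ)
    (hf : wordProd (w.drop (i + 1)) f = w[i]) (hg : wordProd (w.drop (i + 1)) g = w[i] + 1) :
    wordProd (w.eraseIdx i) = wordProd w * Equiv.swap f g := by
  have e1 : wordProd w = wordProd (w.take i) * (sw w[i] * wordProd (w.drop (i + 1))) := by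
    conv_lhs => rw [← List.take_append_drop i w]
    rw [wordProd_append, drop_succ_prod w i hi]
  rw [List.eraseIdx_eq_take_drop_succ, wordProd_append, e1, mul_assoc, mul_assoc,
    Equiv.mul_swap_eq_swap_mul, hf, hg]
  have q1 : ∀ (y : Equiv.Perm ℤ), sw w[i] * (Equiv.swap w[i] (w[i] + 1) * y) = y := by
    intro y
    have : Equiv.swap w[i] (w[i] + 1) = sw w[i] := rfl
    rw [this, ← mul_assoc, sw_mul_self, one_mul]
  rw [q1]

/-- in a semi-reduced marked word the two strands at the marked letter are partners. -/
theorem partner_of_semi {π : Equiv.Perm ℤ} {w : List ℤ} {i : ℕ} (hm : Marked π w i)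
    (hs : Semi π w) (f g : ℤ) (hf : wordProd (w.drop (i + 1)) f = w.getD i 0)
    (hg : wordProd (w.drop (i + 1)) g = w.getD i 0 + 1) : g = π f := by
  obtain ⟨hi, hR⟩ := hm
  obtain ⟨hc, -⟩ := RSp_min hR
  obtain ⟨-, σ, -, ⟨hσ, -⟩, hσc⟩ := hs
  rw [List.getD_eq_getElem _ _ hi] at hf hg
  have h1 := erase_prod w i hi f g hf hg
  have hc2 : cj (wordProd w) = π := by rw [hσ]; exact hσc
  have h2 : cj (wordProd (w.eraseIdx i)) = Equiv.swap f g * π * Equiv.swap f g := by
    rw [h1]
    have : cj (wordProd w * Equiv.swap f g) = (Equiv.swap f g)⁻¹ * cj (wordProd w) * Equiv.swap f g := by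
      simp only [cj, mul_inv_rev, mul_assoc]
    rw [this, hc2, Equiv.swap_inv]
  have h3 : Equiv.swap f g * π * Equiv.swap f g = π := by rw [← h2]; exact hc
  have hne : π f ≠ f := by
    intro h
    have := cj_apply hc2 f
    rw [h] at this
    exact fpfFun_ne _ this.symm
  have hfg : f ≠ g := by
    rintro rfl
    rw [hf] at hg; omega
  by_contra hcon
  have h4 := congrArg (fun e : Equiv.Perm ℤ => e g) h3
  simp only [Equiv.Perm.mul_apply, Equiv.swap_apply_right] at h4
  rw [Equiv.swap_apply_of_ne_of_ne hne (fun h => hcon h.symm)] at h4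
  exact hfg (π.injective h4)

end Pool.Agent.H156.Fpf
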