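import Pool.Agent.H156.Fpf.Defs

/-!
From the problem-level definitions to good diagrams.
-/

namespace Pool.Agent.H156.Fpf

theorem wordProd_nil : wordProd [] = 1 := rfl

theorem wordProd_cons (c : ℤ) (w : List ℤ) : wordProd (c :: w) = sw c * wordProd w := by
  simp [wordProd]

theorem wordProd_append (u w : List ℤ) : wordProd (u ++ w) = wordProd u * wordProd w := by
  simp [wordProd]

theorem sw_mul_self (c : ℤ) : sw c * sw c = 1 := by
  simp [sw]

theorem wordProd_mem_SZ (w : List ℤ) : wordProd w ∈ SZ := by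
  induction w with
  | nil =>
    simp [SZ, wordProd_nil]
  | cons c w ih =>
    have h1 : ({i : ℤ | (sw c) i ≠ i}).Finite := by
      apply Set.Finite.subset (Set.toFinite ({c, c + 1} : Set ℤ))
      intro i hi
      simp only [Set.mem_ofPred_eq, sw] at hi
      by_contra hcon
      simp only [Set.mem_insert_iff, Set.mem_singleton_iff, not_or] at hcon
      exact hi (Equiv.swap_apply_of_ne_of_ne hcon.1 hcon.2)
    apply Set.Finite.subset (h1.union ih)
    intro i hi
    simp only [Set.mem_ofPred_eq, wordProd_cons, Equiv.Perm.mul_apply] at hi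
    by_contra hcon
    simp only [Set.mem_union, Set.mem_ofPred_eq, not_or, not_not] at hcon
    rw [hcon.2] at hi
    exact hi hcon.1

theorem len_le (w : List ℤ) : len (wordProd w) ≤ w.length :=
  Nat.sInf_le ⟨w, rfl, rfl⟩

theorem le_len {w : List ℤ} {σ : Equiv.Perm ℤ} (h : IsReducedWord w σ) : w.length ≤ len σ := by
  apply le_csInf
  · exact ⟨w.length, w, h.1, rfl⟩
  · rintro l ⟨u, hu, rfl⟩
    exact h.2 u hu

/-- words in `RSp π` are the shortest words with the given conjugate. -/
theorem RSp_min {π : Equiv.Perm ℤ} {w : List ℤ} (h : w ∈ RSp π) :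
    (wordProd w)⁻¹ * oneFpf * wordProd w = π ∧
    ∀ u : List ℤ, (wordProd u)⁻¹ * oneFpf * wordProd u = π → w.length ≤ u.length := by
  obtain ⟨σ, ⟨hσ, hc, hm⟩, hr⟩ := h
  refine ⟨by rw [hr.1]; exact hc, fun u hu => ?_⟩
  calc w.length ≤ len σ := le_len hr
    _ ≤ len (wordProd u) := hm _ (wordProd_mem_SZ u) hu
    _ ≤ u.length := len_le u

/-- conjugation of `1_fpf`. -/
def cj (σ : Equiv.Perm ℤ) : Equiv.Perm ℤ := σ⁻¹ * oneFpf * σ

theorem cj_mul_comm {σ κ π : Equiv.Perm ℤ} (h : cj σ = π) (hk : π * κ = κ * π) :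
    cj (σ * κ) = π := by
  have : cj (σ * κ) = κ⁻¹ * (cj σ) * κ := by
    simp only [cj, mul_inv_rev, mul_assoc]
  rw [this, h, mul_assoc, hk, ← mul_assoc, inv_mul_cancel, one_mul]

theorem cj_apply {σ π : Equiv.Perm ℤ} (h : cj σ = π) (f : ℤ) : σ (π f) = fpfFun (σ f) := by
  rw [← h]
  simp [cj, oneFpf]

theorem sw_lt {c i j : ℤ} (h : ¬ ((i = c ∧ j = c + 1) ∨ (i = c + 1 ∧ j = c))) :
    (i < j ↔ sw c i < sw c j) := by
  simp only [sw, Equiv.swap_apply_def]
  split_ifs <;> omega

theorem fpf_lt {i j : ℤ} (h1 : i ≠ j) (h2 : j ≠ fpfFun i) : (i < j ↔ fpfFun i < fpfFun j) := by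
  have e1 : ∀ a : ℤ, fpfFun (2 * a) = 2 * a - 1 := by
    intro a
    have : Even (2 * a) := ⟨a, by ring⟩
    simp only [fpfFun, this, if_true]
  have e2 : ∀ a : ℤ, fpfFun (2 * a + 1) = 2 * a + 1 + 1 := by
    intro a
    have : ¬ Even (2 * a + 1) := by
      rw [Int.not_even_iff_odd]; exact ⟨a, rfl⟩
    simp only [fpfFun, this, if_false]
  rcases Int.even_or_odd' i with ⟨a, ha | ha⟩ <;> rcases Int.even_or_odd' j with ⟨b, hb | hb⟩ <;>
    subst ha <;> subst hb <;> simp only [e1, e2] at * <;> omega

theorem fpfFun_ne (i : ℤ) : fpfFun i ≠ i := by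
  unfold fpfFun; split_ifs <;> omega

theorem drop_succ_prod (u : List ℤ) (x : ℕ) (hx : x < u.length) :
    wordProd (u.drop x) = sw u[x] * wordProd (u.drop (x + 1)) := by
  rw [List.drop_eq_getElem_cons hx, wordProd_cons]

/-- words of minimal length: every letter is an ascent. -/
theorem asc_of_min {π : Equiv.Perm ℤ} {u : List ℤ} (hc : cj (wordProd u) = π)
    (hmin : ∀ w : List ℤ, cj (wordProd w) = π → u.length ≤ w.length)
    (t : ℕ) (ht : t < u.length) (f g : ℤ) (hf : wordProd (u.drop t) f = u[t])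
    (hg : wordProd (u.drop t) g = u[t] + 1) :
    wordProd (u.drop t) (π f) < wordProd (u.drop t) (π g) := by
  have hinv : ∀ f, π (π f) = f := by
    intro f
    apply (wordProd u).injective
    rw [cj_apply hc, cj_apply hc, fpfFun_invol]
  have hne : ∀ f, π f ≠ f := by
    intro f h
    have := cj_apply hc f
    rw [h] at this
    exact fpfFun_ne _ this.symm
  have hfg : f ≠ g := by
    intro h; rw [h] at hf; omega
  have hdel : ∀ (X Z : List ℤ) (c : ℤ), u = X ++ c :: Z →
      wordProd (X ++ Z) = wordProd u * Equiv.swap ((wordProd (c :: Z))⁻¹ c) ((wordProd (c :: Z))⁻¹ (c + 1)) := by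
    intro X Z c hu
    have e2 : Equiv.swap ((wordProd (c :: Z))⁻¹ c) ((wordProd (c :: Z))⁻¹ (c + 1)) =
        (wordProd (c :: Z))⁻¹ * sw c * wordProd (c :: Z) := by
      rw [eq_comm, mul_assoc, inv_mul_eq_iff_eq_mul, Equiv.mul_swap_eq_swap_mul]
      simp [sw]
    rw [hu, e2, wordProd_append, wordProd_append, wordProd_cons, mul_inv_rev]
    have hs : (sw c)⁻¹ = sw c := by simp [sw]
    rw [hs]
    have q1 : ∀ (y : Equiv.Perm ℤ), sw c * (sw c * y) = y := by
      intro y; rw [← mul_assoc, sw_mul_self, one_mul]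
    simp only [mul_assoc, q1, mul_inv_cancel_left]
  set c := u[t] with hcdef
  have hu : u = u.take t ++ c :: u.drop (t + 1) := by
    rw [← List.drop_eq_getElem_cons ht, List.take_append_drop]
  have hZ : c :: u.drop (t + 1) = u.drop t := (List.drop_eq_getElem_cons ht).symm
  have hf' : (wordProd (u.drop t))⁻¹ c = f := by rw [← hf]; simp
  have hg' : (wordProd (u.drop t))⁻¹ (c + 1) = g := by rw [← hg]; simp
  by_cases hgp : g = π f
  · -- partners: delete the letter
    exfalso
    have h1 := hdel _ _ _ hu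
    rw [hZ, hf', hg'] at h1
    have h2 : cj (wordProd (u.take t ++ u.drop (t + 1))) = π := by
      rw [h1]
      apply cj_mul_comm hc
      rw [Equiv.mul_swap_eq_swap_mul, hgp, hinv, Equiv.swap_comm]
    have h3 := hmin _ h2
    simp only [List.length_append, List.length_take, List.length_drop] at h3
    omega
  by_contra hcon
  -- there is an earlier crossing
  have hex : ∃ t', ∃ ht' : t' < t, ∃ F G : ℤ, ((F = f ∧ G = g) ∨ (F = π f ∧ G = π g)) ∧
      ((wordProd (u.drop t') F = u[t'] ∧ wordProd (u.drop t') G = u[t'] + 1) ∨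
       (wordProd (u.drop t') F = u[t'] + 1 ∧ wordProd (u.drop t') G = u[t'])) := by
    by_contra hno
    push Not at hno
    have key : ∀ F G : ℤ, ((F = f ∧ G = g) ∨ (F = π f ∧ G = π g)) → ∀ k, k ≤ t →
        (wordProd (u.drop (t - k)) F < wordProd (u.drop (t - k)) G ↔
          wordProd (u.drop t) F < wordProd (u.drop t) G) := by
      intro F G hFG k
      induction k with
      | zero => intro _; simp
      | succ k ih =>
        intro hk
        have ih := ih (by omega)
        have hlt : t - (k + 1) < u.length := by omega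
        have e : t - k = t - (k + 1) + 1 := by omega
        rw [← ih, e, drop_succ_prod u _ hlt]
        simp only [Equiv.Perm.mul_apply]
        have hh := hno (t - (k + 1)) (by omega) F G hFG
        rw [drop_succ_prod u _ hlt] at hh
        simp only [Equiv.Perm.mul_apply] at hh
        rw [sw_lt (c := u[t - (k + 1)])]
        · have e2 : ∀ y, sw u[t - (k + 1)] (sw u[t - (k + 1)] y) = y := by
            intro y; simp [sw]
          rw [e2, e2]
        · rintro (⟨h1, h2⟩ | ⟨h1, h2⟩)
          · exact hh.1 h1 h2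
          · exact hh.2 h1 h2
    have k1 := key f g (Or.inl ⟨rfl, rfl⟩) t le_rfl
    have k2 := key (π f) (π g) (Or.inr ⟨rfl, rfl⟩) t le_rfl
    simp only [Nat.sub_self, List.drop_zero] at k1 k2
    have k3 : wordProd u f < wordProd u g ↔ wordProd u (π f) < wordProd u (π g) := by
      rw [cj_apply hc, cj_apply hc]
      apply fpf_lt
      · intro h; exact hfg ((wordProd u).injective h)
      · intro h; rw [← cj_apply hc] at h; exact hgp ((wordProd u).injective h)
    apply hcon
    rw [← k2, ← k3, k1, hf, hg]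
    omega
  obtain ⟨t', ht', F, G, hFG, hcr⟩ := hex
  have ht'l : t' < u.length := by omega
  -- decomposition
  set c' := u[t'] with hc'def
  have hu1 : u = u.take t' ++ c' :: u.drop (t' + 1) := by
    rw [← List.drop_eq_getElem_cons ht'l, List.take_append_drop]
  set Y := (u.drop (t' + 1)).take (t - t' - 1) with hY
  have hY2 : u.drop (t' + 1) = Y ++ c :: u.drop (t + 1) := by
    rw [hZ, hY]
    have : u.drop t = (u.drop (t' + 1)).drop (t - t' - 1) := by
      rw [List.drop_drop]; congr 1; omega
    rw [this, List.take_append_drop]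
  set X := u.take t' with hX
  set Z := u.drop (t + 1) with hZd
  have hsFG : wordProd (X ++ (Y ++ Z)) = wordProd u * (Equiv.swap F G * Equiv.swap f g) := by
    have e1 : wordProd u = wordProd X * (sw c' * (wordProd Y * (sw c * wordProd Z))) := by
      conv_lhs => rw [hu1, hY2]
      rw [wordProd_append, wordProd_cons, wordProd_append, wordProd_cons]
    have e2 : Equiv.swap f g = (wordProd (u.drop t))⁻¹ * sw c * wordProd (u.drop t) := by
      rw [← hf', ← hg', eq_comm, mul_assoc, inv_mul_eq_iff_eq_mul, Equiv.mul_swap_eq_swap_mul]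
      simp [sw]
    have e3 : Equiv.swap F G = (wordProd (u.drop t'))⁻¹ * sw c' * wordProd (u.drop t') := by
      rw [eq_comm, mul_assoc, inv_mul_eq_iff_eq_mul, Equiv.mul_swap_eq_swap_mul]
      rcases hcr with ⟨h1, h2⟩ | ⟨h1, h2⟩
      · rw [h1, h2]; rfl
      · rw [h1, h2, Equiv.swap_comm]; rfl
    have e4 : wordProd (u.drop t) = sw c * wordProd Z := by rw [← hZ, wordProd_cons]
    have e5 : wordProd (u.drop t') = sw c' * (wordProd Y * (sw c * wordProd Z)) := by
      rw [List.drop_eq_getElem_cons ht'l, wordProd_cons, hY2, wordProd_append, wordProd_cons]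
    have hs : ∀ c, (sw c)⁻¹ = sw c := by intro c; simp [sw]
    rw [e2, e3, e4, e5, e1, wordProd_append, wordProd_append]
    simp only [mul_inv_rev, hs, mul_assoc]
    have q1 : ∀ c (y : Equiv.Perm ℤ), sw c * (sw c * y) = y := by
      intro c y; rw [← mul_assoc, sw_mul_self, one_mul]
    simp only [q1, mul_inv_cancel_left]
  have hcomm : π * (Equiv.swap F G * Equiv.swap f g) = (Equiv.swap F G * Equiv.swap f g) * π := by
    rcases hFG with ⟨rfl, rfl⟩ | ⟨rfl, rfl⟩
    · rw [Equiv.swap_mul_self]; simp
    · have hd : Equiv.swap (π f) (π g) * Equiv.swap f g = Equiv.swap f g * Equiv.swap (π f) (π g) := by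
        rw [Equiv.mul_swap_eq_swap_mul]
        rw [Equiv.swap_apply_of_ne_of_ne (hne f).symm, Equiv.swap_apply_of_ne_of_ne hgp (hne g).symm]
        intro h
        apply hgp
        rw [h, hinv]
      have p1 : π * Equiv.swap (π f) (π g) = Equiv.swap f g * π := by
        rw [Equiv.mul_swap_eq_swap_mul, hinv, hinv]
      have p2 : π * Equiv.swap f g = Equiv.swap (π f) (π g) * π := by
        rw [Equiv.mul_swap_eq_swap_mul]
      rw [← mul_assoc, p1, mul_assoc, p2, ← mul_assoc, ← hd]
  have h2 : cj (wordProd (X ++ (Y ++ Z))) = π := by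
    rw [hsFG]
    exact cj_mul_comm hc hcomm
  have h3 := hmin _ h2
  have hlen : u.length = X.length + (1 + (Y.length + (1 + Z.length))) := by
    conv_lhs => rw [hu1, hY2]
    simp only [List.length_append, List.length_cons]
    omega
  rw [List.length_append, List.length_append] at h3
  omega

end Pool.Agent.H156.Fpf
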